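import Pool.Agent.TH91.RF.Bch2

/-!
# Normal subgroups of exponential groups of Lie lattices are ideals
-/

set_option autoImplicit false

namespace Pool.Agent.TH91.RF

open Finset
open scoped Nat

/-- determinant of the Vandermonde matrix on `0, ..., N` -/
def vdm (N : ℕ) : ℤ := (Matrix.vandermonde (fun i : Fin (N + 1) => ((i : ℕ) : ℤ))).det

theorem not_dvd_vdm {N p : ℕ} (hp : p.Prime) (hN : N < p) : ¬ (p : ℤ) ∣ vdm N := by
  unfold vdm
  rw [Matrix.det_vandermonde]
  have hp' : Prime (p : ℤ) := Nat.prime_iff_prime_int.1 hp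
  rw [hp'.dvd_finsetProd_iff]
  rintro ⟨i, _, hi⟩
  rw [hp'.dvd_finsetProd_iff] at hi
  obtain ⟨j, hj, hij⟩ := hi
  rw [mem_Ioi] at hj
  have h1 : (i : ℕ) < j := hj
  have h2 : ((j : ℕ) : ℤ) - (i : ℕ) = ((j - i : ℕ) : ℤ) := by
    rw [Nat.cast_sub h1.le]
  rw [h2, Int.natCast_dvd_natCast] at hij
  have := Nat.le_of_dvd (by omega) hij
  have := j.2
  omega

theorem vdm_mem {A : Type*} [AddCommGroup A] (N : ℕ) (M : AddSubgroup A) (z : ℕ → A)
    (h : ∀ s : ℕ, ∑ n ∈ range (N + 1), ((s ^ n : ℕ) : ℤ) • z n ∈ M) (n : ℕ) (hn : n < N + 1) :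
    vdm N • z n ∈ M := by
  set V := Matrix.vandermonde (fun i : Fin (N + 1) => ((i : ℕ) : ℤ)) with hV
  have h1 : ∑ s : Fin (N + 1), V.adjugate ⟨n, hn⟩ s •
      (∑ m : Fin (N + 1), V s m • z m) = vdm N • z n := by
    simp_rw [smul_sum, smul_smul]
    rw [sum_comm]
    simp_rw [← sum_smul]
    have h2 : ∀ m : Fin (N + 1), ∑ s, V.adjugate ⟨n, hn⟩ s * V s m =
        if (⟨n, hn⟩ : Fin (N + 1)) = m then vdm N else 0 := by
      intro m
      have h3 := congrFun (congrFun (Matrix.adjugate_mul V) ⟨n, hn⟩) m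
      rw [Matrix.mul_apply] at h3
      rw [h3, Matrix.smul_apply, Matrix.one_apply, hV]
      unfold vdm
      split_ifs <;> simp
    simp_rw [h2, ite_smul, zero_smul]
    rw [sum_ite_eq]
    simp
  rw [← h1]
  refine M.sum_mem fun s _ => M.zsmul_mem ?_ _
  have h4 := h s
  rw [← Fin.sum_univ_eq_sum_range (fun m => ((((s : ℕ) ^ m : ℕ)) : ℤ) • z m)] at h4
  convert h4 using 2 with m
  rw [hV, Matrix.vandermonde_apply]
  push_cast
  rfl

variable {A : Type*} [Ring A] [Algebra ℚ A] {N : ℕ}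

theorem exp_conj {a b x : A} (hab : a * b = 1) (hba : b * a = 1) (hx : IsNilpotent x) :
    IsNilpotent.exp (a * x * b) = a * IsNilpotent.exp x * b := by
  let f : A →+* A :=
    { toFun := fun x => a * x * b
      map_one' := by rw [mul_one, hab]
      map_mul' := by
        intro x y
        calc a * (x * y) * b = a * x * 1 * y * b := by noncomm_ring
          _ = a * x * (b * a) * y * b := by rw [hba]
          _ = a * x * b * (a * y * b) := by noncomm_ring
      map_zero' := by simp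
      map_add' := by
        intro x y
        noncomm_ring }
  exact (IsNilpotent.map_exp hx f).symm

/-- A lattice of nilpotent elements whose brackets are divisible by `bigM N`. -/
structure LieLat (Φ : Filt A N) (T : AddSubgroup A) : Prop where
  le : ∀ x ∈ T, x ∈ Φ.F 1
  br : ∀ u ∈ T, ∀ v ∈ T, (bigM N : ℚ)⁻¹ • (u * v - v * u) ∈ T

/-- Ideals of a lattice. -/
structure LieIdl (N : ℕ) (T J : AddSubgroup A) : Prop where
  le : J ≤ T
  br : ∀ u ∈ T, ∀ v ∈ J, (bigM N : ℚ)⁻¹ • (u * v - v * u) ∈ J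

namespace LieLat

variable {Φ : Filt A N} {T J : AddSubgroup A} (hT : LieLat Φ T)
include hT

theorem self : LieIdl N T T := ⟨le_rfl, hT.br⟩

theorem exp_mul_add (hJ : LieIdl N T J) {x y : A} (hx : x ∈ T) (hy : y ∈ T)
    (h : (bigM N : ℚ)⁻¹ • (x * y - y * x) ∈ J) :
    ∃ j ∈ J, IsNilpotent.exp x * IsNilpotent.exp y = IsNilpotent.exp (x + y + j) := by
  obtain ⟨Z, h0, h1, hF, hs, hI⟩ := Φ.bch (hT.le x hx) (hT.le y hy)
  have h2 := hI T J hx hy hJ.le hJ.br h
  rcases Nat.eq_zero_or_pos N with rfl | hN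
  · refine ⟨0, J.zero_mem, ?_⟩
    have hx0 : x = 0 := Φ.bot x (Φ.anti (Nat.zero_le _) (hT.le x hx))
    have hy0 : y = 0 := Φ.bot y (Φ.anti (Nat.zero_le _) (hT.le y hy))
    rw [hx0, hy0]
    simp
  refine ⟨∑ n ∈ range (N - 1), Z (n + 2), J.sum_mem fun n _ => h2 _ (by omega), ?_⟩
  have h3 := hs 1
  simp only [one_smul, one_pow] at h3
  rw [h3]
  congr 1
  obtain ⟨N, rfl⟩ := Nat.exists_eq_succ_of_ne_zero hN.ne'
  rw [sum_range_succ', sum_range_succ', h0, h1]
  simp only [Nat.succ_eq_add_one, Nat.add_sub_cancel]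
  abel

theorem exp_mul {x y : A} (hx : x ∈ T) (hy : y ∈ T) :
    ∃ z ∈ T, IsNilpotent.exp x * IsNilpotent.exp y = IsNilpotent.exp z := by
  obtain ⟨j, hj, h⟩ := hT.exp_mul_add hT.self hx hy (hT.br x hx y hy)
  exact ⟨_, T.add_mem (T.add_mem hx hy) hj, h⟩

/-- `exp x' = exp x * exp j` when `x' - x ∈ J`. -/
theorem exp_coset (hJ : LieIdl N T J) {x x' : A} (hx : x ∈ T) (hx' : x' ∈ T) (h : x' - x ∈ J) :
    ∃ j ∈ J, IsNilpotent.exp x' = IsNilpotent.exp x * IsNilpotent.exp j := by
  have e : (bigM N : ℚ)⁻¹ • (-x * x' - x' * -x) = -((bigM N : ℚ)⁻¹ • (x * (x' - x) - (x' - x) * x)) := by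
    rw [← smul_neg]
    congr 1
    noncomm_ring
  obtain ⟨j, hj, h1⟩ := hT.exp_mul_add hJ (T.neg_mem hx) hx' (by
    rw [e]
    exact J.neg_mem (hJ.br x hx _ h))
  refine ⟨-x + x' + j, J.add_mem ?_ hj, ?_⟩
  · rwa [neg_add_eq_sub]
  · rw [← h1, ← mul_assoc, IsNilpotent.exp_mul_exp_neg_self (Φ.nilp (hT.le x hx)), one_mul]

/-- `exp x * exp j = exp (x + j')`. -/
theorem exp_mul_idl (hJ : LieIdl N T J) {x j : A} (hx : x ∈ T) (hj : j ∈ J) :
    ∃ j' ∈ J, IsNilpotent.exp x * IsNilpotent.exp j = IsNilpotent.exp (x + j') := by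
  obtain ⟨j', hj', h1⟩ := hT.exp_mul_add hJ hx (hJ.le hj) (hJ.br x hx _ hj)
  refine ⟨j + j', J.add_mem hj hj', ?_⟩
  rw [h1, add_assoc]

omit hT in
/-- the iterated brackets -/
theorem adr_iter_mem (hJ : LieIdl N T J) {w x : A} (hw : w ∈ T) (hx : x ∈ J) (k : ℕ) :
    ((bigM N : ℚ) ^ k)⁻¹ • (adr (-w))^[k] x ∈ J := by
  induction k with
  | zero => simpa using hx
  | succ k ih =>
    rw [Function.iterate_succ_apply']
    have h1 := hJ.br w hw _ ih
    have e : ((bigM N : ℚ) ^ (k + 1))⁻¹ • adr (-w) ((adr (-w))^[k] x) =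
        (bigM N : ℚ)⁻¹ • (w * (((bigM N : ℚ) ^ k)⁻¹ • (adr (-w))^[k] x) -
          (((bigM N : ℚ) ^ k)⁻¹ • (adr (-w))^[k] x) * w) := by
      rw [mul_smul_comm, smul_mul_assoc, ← smul_sub, smul_smul, ← mul_inv, ← pow_succ']
      congr 1
      unfold adr
      noncomm_ring
    rw [e]
    exact h1

omit hT in
theorem fact_dvd_bigM_pow {k : ℕ} (hk : k < N + 1) (j : ℕ) (hj : 1 ≤ j) :
    k.factorial ∣ bigM N ^ j := by
  refine Dvd.dvd.trans ?_ (dvd_pow_self _ (by omega : j ≠ 0))
  exact Dvd.dvd.mul_right (Nat.factorial_dvd_factorial hk.le) _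

theorem fact_adr_mem (hJ : LieIdl N T J) {w x : A} (hw : w ∈ T) (hx : x ∈ J) (k : ℕ)
    (hk : k < N + 1) :
    ((k.factorial : ℚ))⁻¹ • (adr (-w))^[k] x ∈ J := by
  rcases Nat.eq_zero_or_pos k with rfl | hk0
  · simpa using hx
  obtain ⟨c, hc⟩ := fact_dvd_bigM_pow (N := N) hk k hk0
  have h1 := J.nsmul_mem (adr_iter_mem hJ hw hx k) c
  rw [← Nat.cast_smul_eq_nsmul ℚ, smul_smul] at h1
  have h2 : ((bigM N : ℚ)) ^ k = (k.factorial : ℚ) * c := by exact_mod_cast hc
  have h3 : (k.factorial : ℚ) ≠ 0 := by positivity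
  have h4 : (c : ℚ) ≠ 0 := by
    intro h
    rw [h, mul_zero] at h2
    exact pow_ne_zero k (by exact_mod_cast (bigM_pos N).ne') h2
  rw [h2, mul_inv, mul_comm (c : ℚ), mul_assoc, inv_mul_cancel₀ h4, mul_one] at h1
  exact h1

/-- `exp w * exp x * exp (-w) = exp (∑ (1/k!) (ad w)^k x)`. -/
theorem exp_conj_eq {w x : A} (hw : w ∈ T) (hx : x ∈ T) :
    IsNilpotent.exp w * IsNilpotent.exp x * IsNilpotent.exp (-w) =
      IsNilpotent.exp (∑ k ∈ range (N + 1), ((k.factorial : ℚ))⁻¹ • (adr (-w))^[k] x) := by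
  have hwn := Φ.nilp (hT.le w hw)
  rw [← exp_conj (IsNilpotent.exp_mul_exp_neg_self hwn) (IsNilpotent.exp_neg_mul_exp_self hwn)
    (Φ.nilp (hT.le x hx))]
  congr 1
  rw [mul_assoc, Φ.mul_exp (hT.le _ (T.neg_mem hw)) (hT.le x hx), ← mul_assoc,
    IsNilpotent.exp_mul_exp_neg_self hwn, one_mul]

end LieLat

theorem adr_smul_iter (t : ℚ) (w x : A) (k : ℕ) :
    (adr (t • w))^[k] x = t ^ k • (adr w)^[k] x := by
  induction k with
  | zero => simp
  | succ k ih =>
    rw [Function.iterate_succ_apply', ih, Function.iterate_succ_apply']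
    unfold adr
    rw [smul_mul_assoc, mul_smul_comm, mul_smul_comm, smul_mul_assoc, pow_succ, mul_smul,
      smul_sub, smul_sub]

/-- **Normal subgroups are ideals.** -/
theorem exists_idl {Φ : Filt A N} {T : AddSubgroup A} (hT : LieLat Φ T) {p : ℕ} (hp : p.Prime)
    (hpN : N + 1 < p) (I : Set A) (hIT : ∀ x ∈ I, x ∈ T) (n0 : (0 : A) ∈ I)
    (n1 : ∀ x ∈ I, ∀ s : ℤ, s • x ∈ I)
    (n2 : ∀ x ∈ I, ∀ y ∈ I, ∀ z ∈ T, IsNilpotent.exp z = IsNilpotent.exp x * IsNilpotent.exp y →
      z ∈ I)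
    (n3 : ∀ x ∈ I, ∀ w ∈ T, ∀ z ∈ T, IsNilpotent.exp z =
      IsNilpotent.exp w * IsNilpotent.exp x * IsNilpotent.exp (-w) → z ∈ I)
    (n4 : ∀ x ∈ T, ∀ m : ℤ, ¬ (p : ℤ) ∣ m → m • x ∈ I → x ∈ I) :
    ∃ J : AddSubgroup A, (∀ x, x ∈ J ↔ x ∈ I) ∧ LieIdl N T J := by
  have hp' : Prime (p : ℤ) := Nat.prime_iff_prime_int.1 hp
  have hM0 : (bigM N : ℚ) ≠ 0 := by exact_mod_cast (bigM_pos N).ne'
  have hpM : ¬ (p : ℤ) ∣ (bigM N : ℤ) := by
    rw [Int.natCast_dvd_natCast]
    unfold bigM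
    intro h
    rcases (Nat.Prime.dvd_mul hp).1 h with h | h
    all_goals
      have := (Nat.Prime.dvd_factorial hp).1 h
      omega
  have hpD : ¬ (p : ℤ) ∣ vdm N := not_dvd_vdm hp (by omega)
  have key : ∀ j k : ℕ, N ≤ k + j → 1 ≤ k →
      (∀ x ∈ I, x ∈ Φ.F k → ∀ y ∈ I, y ∈ Φ.F k → x + y ∈ I) ∧
      (∀ w ∈ T, ∀ x ∈ I, x ∈ Φ.F k → (bigM N : ℚ)⁻¹ • (w * x - x * w) ∈ I) := by
    intro j
    induction j with
    | zero =>
      intro k hk hk1
      refine ⟨fun x hx hxk y hy hyk => ?_, fun w hw x hx hxk => ?_⟩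
      · rw [Φ.eq_zero_of_le hk hxk, Φ.eq_zero_of_le hk hyk, add_zero]
        exact n0
      · rw [Φ.eq_zero_of_le hk hxk]
        simpa using n0
    | succ j ih =>
      intro k hk hk1
      obtain ⟨ihadd, ihbr⟩ := ih (k + 1) (by omega) (by omega)
      -- the ideal `I ∩ F (k + 1)`
      let J : AddSubgroup A :=
        { carrier := {x | x ∈ I ∧ x ∈ Φ.F (k + 1)}
          add_mem' := by
            rintro a b ⟨ha, ha'⟩ ⟨hb, hb'⟩
            exact ⟨ihadd a ha ha' b hb hb', Submodule.add_mem _ ha' hb'⟩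
          zero_mem' := ⟨n0, Submodule.zero_mem _⟩
          neg_mem' := by
            rintro a ⟨ha, ha'⟩
            refine ⟨?_, Submodule.neg_mem _ ha'⟩
            simpa using n1 a ha (-1) }
      have hJ : LieIdl N T J := by
        refine ⟨fun x hx => hIT x hx.1, fun u hu v hv => ⟨ihbr u hu v hv.1 hv.2, ?_⟩⟩
        refine Submodule.smul_mem _ _ (Submodule.sub_mem _ ?_ ?_)
        · exact Φ.anti (by omega) (Φ.mul (hT.le u hu) hv.2)
        · exact Φ.anti (by omega) (Φ.mul hv.2 (hT.le u hu))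
      let J' : AddSubgroup A :=
        { carrier := {x | x ∈ T ∧ x ∈ Φ.F (k + 1)}
          add_mem' := by
            rintro a b ⟨ha, ha'⟩ ⟨hb, hb'⟩
            exact ⟨T.add_mem ha hb, Submodule.add_mem _ ha' hb'⟩
          zero_mem' := ⟨T.zero_mem, Submodule.zero_mem _⟩
          neg_mem' := by
            rintro a ⟨ha, ha'⟩
            exact ⟨T.neg_mem ha, Submodule.neg_mem _ ha'⟩ }
      have hJ' : LieIdl N T J' := by
        refine ⟨fun x hx => hx.1, fun u hu v hv => ⟨hT.br u hu v hv.1, ?_⟩⟩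
        refine Submodule.smul_mem _ _ (Submodule.sub_mem _ ?_ ?_)
        · exact Φ.anti (by omega) (Φ.mul (hT.le u hu) hv.2)
        · exact Φ.anti (by omega) (Φ.mul hv.2 (hT.le u hu))
      -- brackets
      have hbr : ∀ w ∈ T, ∀ x ∈ I, x ∈ Φ.F k → (bigM N : ℚ)⁻¹ • (w * x - x * w) ∈ J := by
        intro w hw x hx hxk
        have hxT := hIT x hx
        -- the conjugates
        have hcon : ∀ t : ℕ, ∑ n ∈ range (N + 1), ((t ^ n : ℕ) : ℤ) •
            (if n = 0 then 0 else ((n.factorial : ℚ))⁻¹ • (adr (-w))^[n] x) ∈ J := by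
          intro t
          set a : A := ∑ n ∈ range (N + 1), ((n.factorial : ℚ))⁻¹ •
            (adr (-((t : ℤ) • w)))^[n] x with ha
          have htw : (t : ℤ) • w ∈ T := T.zsmul_mem hw _
          have haT : a ∈ T := T.sum_mem fun n hn =>
            hT.fact_adr_mem hT.self htw hxT n (mem_range.1 hn)
          have haI : a ∈ I := n3 x hx _ htw a haT (hT.exp_conj_eq htw hxT).symm
          have hax : a - x = ∑ n ∈ range (N + 1), ((t ^ n : ℕ) : ℤ) •
            (if n = 0 then 0 else ((n.factorial : ℚ))⁻¹ • (adr (-w))^[n] x) := by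
            rw [ha, sum_range_succ', sum_range_succ' (fun n => ((t ^ n : ℕ) : ℤ) • _)]
            simp only [Function.iterate_zero, id_eq, Nat.factorial_zero, Nat.cast_one, inv_one,
              one_smul, add_sub_cancel_right, if_true, smul_zero, add_zero]
            refine sum_congr rfl fun n _ => ?_
            rw [if_neg (by omega)]
            have e1 : (-((t : ℤ) • w)) = (t : ℚ) • (-w) := by
              rw [smul_neg, Nat.cast_smul_eq_nsmul, Nat.cast_smul_eq_nsmul]
            rw [e1, adr_smul_iter, smul_comm, ← Int.cast_smul_eq_zsmul ℚ]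
            push_cast
            rfl
          have hax' : a - x ∈ J' := by
            refine ⟨T.sub_mem haT hxT, ?_⟩
            rw [hax]
            refine Submodule.sum_mem _ fun n hn => ?_
            rw [← Int.cast_smul_eq_zsmul ℚ]
            refine Submodule.smul_mem _ _ ?_
            split_ifs with h0
            · exact Submodule.zero_mem _
            · exact Submodule.smul_mem _ _ (Φ.anti (by omega)
                (Φ.adr_iter_mem (Submodule.neg_mem _ (hT.le w hw)) hxk n))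
          rw [← hax]
          obtain ⟨Z, h0, h1, hF, hs, hI⟩ := Φ.bch (hT.le a haT) (hT.le _ (T.neg_mem hxT))
          have hI' := hI T J' haT (T.neg_mem hxT) hJ'.le hJ'.br (by
            have e : (bigM N : ℚ)⁻¹ • (a * -x - -x * a) =
                (bigM N : ℚ)⁻¹ • (x * (a - x) - (a - x) * x) := by
              congr 1
              noncomm_ring
            rw [e]
            exact hJ'.br x hxT _ hax')
          have hZJ' : ∀ n, Z n ∈ J' := by
            intro n
            rcases Nat.lt_or_ge n 2 with h | h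
            · interval_cases n
              · rw [h0]; exact J'.zero_mem
              · rw [h1]
                rwa [← sub_eq_add_neg]
            · exact hI' n h
          have hsum : ∀ s : ℕ, ∑ n ∈ range (N + 1), ((s ^ n : ℕ) : ℤ) • Z n ∈ J := by
            intro s
            have h2 : ∑ n ∈ range (N + 1), ((s ^ n : ℕ) : ℤ) • Z n ∈ J' :=
              J'.sum_mem fun n _ => J'.zsmul_mem (hZJ' n) _
            refine ⟨n2 _ (n1 a haI s) _ (n1 x hx (-s)) _ h2.1 ?_, h2.2⟩
            have h3 := hs s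
            have e1 : ∑ n ∈ range (N + 1), ((s ^ n : ℕ) : ℤ) • Z n =
                ∑ n ∈ range (N + 1), (s : ℚ) ^ n • Z n := by
              refine sum_congr rfl fun n _ => ?_
              rw [← Int.cast_smul_eq_zsmul ℚ]
              push_cast
              rfl
            rw [e1, ← h3, ← Int.cast_smul_eq_zsmul ℚ, ← Int.cast_smul_eq_zsmul ℚ]
            push_cast
            rw [smul_neg, neg_smul]
          rcases Nat.eq_zero_or_pos N with hN0 | hN0
          · have : a - x = 0 := Φ.eq_zero_of_le (by omega) hax'.2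
            rw [this]
            exact J.zero_mem
          have h5 := vdm_mem N J Z hsum 1 (by omega)
          rw [h1, ← sub_eq_add_neg] at h5
          exact ⟨n4 _ hax'.1 _ hpD h5.1, hax'.2⟩
        rcases Nat.eq_zero_or_pos N with hN0 | hN0
        · have : (bigM N : ℚ)⁻¹ • (w * x - x * w) = 0 := by
            rw [Φ.eq_zero_of_le (by omega) hxk]
            simp
          rw [this]
          exact J.zero_mem
        have h5 := vdm_mem N J _ hcon 1 (by omega)
        simp only [one_ne_zero, if_false, Nat.factorial_one, Nat.cast_one, inv_one, one_smul,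
          Function.iterate_one] at h5
        have e1 : adr (-w) x = w * x - x * w := by
          unfold adr
          noncomm_ring
        rw [e1] at h5
        have e2 : vdm N • (w * x - x * w) =
            (vdm N * (bigM N : ℤ)) • ((bigM N : ℚ)⁻¹ • (w * x - x * w)) := by
          rw [mul_smul, Nat.cast_smul_eq_nsmul ℤ, ← Nat.cast_smul_eq_nsmul ℚ (bigM N),
            smul_inv_smul₀ hM0]
        rw [e2] at h5
        refine ⟨n4 _ (hT.br w hw x hxT) _ ?_ h5.1, ?_⟩
        · intro h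
          rcases hp'.dvd_or_dvd h with h | h
          · exact hpD h
          · exact hpM h
        · refine Submodule.smul_mem _ _ (Submodule.sub_mem _ ?_ ?_)
          · exact Φ.anti (by omega) (Φ.mul (hT.le w hw) hxk)
          · exact Φ.anti (by omega) (Φ.mul hxk (hT.le w hw))
      refine ⟨fun x hx hxk y hy hyk => ?_, fun w hw x hx hxk => (hbr w hw x hx hxk).1⟩
      obtain ⟨j, hj, h1⟩ := hT.exp_mul_add hJ (hIT x hx) (hIT y hy) (hbr x (hIT x hx) y hy hyk)
      have h2T : x + y + j ∈ T := T.add_mem (T.add_mem (hIT x hx) (hIT y hy)) (hIT j hj.1)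
      have h2 : x + y + j ∈ I := n2 x hx y hy _ h2T h1.symm
      have h3T : x + y ∈ T := T.add_mem (hIT x hx) (hIT y hy)
      obtain ⟨j', hj', h3⟩ := hT.exp_coset hJ h2T h3T (by
        have : x + y - (x + y + j) = -j := by abel
        rw [this]
        exact J.neg_mem hj)
      exact n2 _ h2 _ hj'.1 _ h3T h3
  obtain ⟨hadd, hbr⟩ := key N 1 (by omega) le_rfl
  refine ⟨{ carrier := I
            add_mem' := fun {a b} ha hb => hadd a ha (hT.le _ (hIT a ha)) b hb (hT.le _ (hIT b hb))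
            zero_mem' := n0
            neg_mem' := fun {a} ha => by simpa using n1 a ha (-1) }, fun x => Iff.rfl, ?_⟩
  exact ⟨fun x hx => hIT x hx, fun u hu v hv => hbr u hu v hv (hT.le _ (hIT v hv))⟩

end Pool.Agent.TH91.RF
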