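import Mathlib

/-!
# The Baker-Campbell-Hausdorff theorem in filtered nilpotent algebras
-/

set_option autoImplicit false

namespace Pool.Agent.TH91.RF

open Finset Polynomial
open scoped Nat

/-- A multiplicative decreasing filtration with `F N = 0`. -/
structure Filt (A : Type*) [Ring A] [Algebra ℚ A] (N : ℕ) where
  F : ℕ → Submodule ℚ A
  anti : ∀ {i j}, i ≤ j → F j ≤ F i
  mul : ∀ {i j} {x y : A}, x ∈ F i → y ∈ F j → x * y ∈ F (i + j)
  bot : ∀ x ∈ F N, x = 0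

/-- `adr Z W = [W, Z]` -/
def adr {A : Type*} [Ring A] (Z W : A) : A := W * Z - Z * W

section basic
variable {A : Type*} [Ring A] [Algebra ℚ A]

theorem mul_pow_adr (W Z : A) (m : ℕ) :
    W * Z ^ m = ∑ k ∈ range (m + 1), (m.choose k : ℚ) • (Z ^ (m - k) * (adr Z)^[k] W) := by
  set l : Module.End ℚ A := LinearMap.mulLeft ℚ Z with hl
  set r : Module.End ℚ A := LinearMap.mulRight ℚ Z with hr
  have hlr : Commute l r := by
    ext w
    simp [hl, hr, mul_assoc]
  have hc : Commute (r - l) l := (hlr.symm.sub_left (Commute.refl l))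
  have h1 : r = (r - l) + l := by simp
  have h2 : ∀ k : ℕ, ((r - l) ^ k) W = (adr Z)^[k] W := by
    intro k
    induction k with
    | zero => simp
    | succ k ih =>
      rw [pow_succ', Module.End.mul_apply, ih, Function.iterate_succ_apply']
      simp [hl, hr, adr]
  have h3 : (r ^ m) W = W * Z ^ m := by
    rw [hr, LinearMap.pow_mulRight]
    simp
  have h4 : ∀ (k : ℕ) (w : A), (l ^ k) w = Z ^ k * w := by
    intro k w
    rw [hl, LinearMap.pow_mulLeft]
    simp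
  rw [← h3, h1, hc.add_pow]
  simp only [LinearMap.sum_apply]
  refine sum_congr rfl fun k hk => ?_
  have h5 : ((r - l) ^ k * l ^ (m - k) * (m.choose k : Module.End ℚ A)) W =
      (m.choose k : ℚ) • ((l ^ (m - k)) (((r - l) ^ k) W)) := by
    rw [(hc.pow_pow k (m - k)).eq]
    have : (m.choose k : Module.End ℚ A) W = (m.choose k : ℚ) • W := by
      rw [← nsmul_one (m.choose k)]
      simp [Nat.cast_smul_eq_nsmul]
    rw [Module.End.mul_apply, Module.End.mul_apply, this, map_smul, map_smul]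
  rw [h5, h4, h2]

theorem deriv_pow_adr (D : A → A) (hD : ∀ x y, D (x * y) = D x * y + x * D y) (Z : A) (m : ℕ)
    (h1 : D 1 = 0) :
    D (Z ^ m) = ∑ k ∈ range m, (m.choose (k + 1) : ℚ) • (Z ^ (m - 1 - k) * (adr Z)^[k] (D Z)) := by
  induction m with
  | zero => simp [h1]
  | succ m ih =>
    rw [pow_succ', hD, ih, mul_pow_adr]
    have e : ∀ k ∈ range (m + 1), (((m + 1).choose (k + 1) : ℕ) : ℚ) •
        (Z ^ (m + 1 - 1 - k) * (adr Z)^[k] (D Z)) =
        (m.choose k : ℚ) • (Z ^ (m - k) * (adr Z)^[k] (D Z)) +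
        (m.choose (k + 1) : ℚ) • (Z ^ (m - k) * (adr Z)^[k] (D Z)) := by
      intro k hk
      rw [Nat.choose_succ_succ, Nat.cast_add, add_smul]
      simp
    rw [sum_congr rfl e, sum_add_distrib]
    congr 1
    rw [sum_range_succ, Nat.choose_succ_self, Nat.cast_zero, zero_smul, add_zero, mul_sum]
    refine sum_congr rfl fun k hk => ?_
    rw [mem_range] at hk
    rw [mul_smul_comm, ← mul_assoc, ← pow_succ', show m - 1 - k + 1 = m - k by omega]

omit [Algebra ℚ A] in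
theorem sum_anti (N : ℕ) (f : ℕ → ℕ → A) (h : ∀ j k, N ≤ j + k → f j k = 0) :
    ∑ m ∈ range N, ∑ k ∈ range (m + 1), f (m - k) k =
      (∑ j ∈ range N, ∑ k ∈ range N, f j k) := by
  rw [sum_sigma', ← sum_product']
  have h2 : ∑ x ∈ range N ×ˢ range N, f x.1 x.2 =
      ∑ x ∈ (range N ×ˢ range N).filter (fun x => x.1 + x.2 < N), f x.1 x.2 := by
    rw [sum_filter_of_ne]
    intro x _ hx
    by_contra h3
    exact hx (h _ _ (by omega))
  rw [h2]
  refine sum_nbij' (fun x => (x.1 - x.2, x.2)) (fun x => ⟨x.1 + x.2, x.2⟩) ?_ ?_ ?_ ?_ ?_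
  · rintro ⟨m, k⟩ hx
    simp only [mem_sigma, mem_range, mem_filter, mem_product] at hx ⊢
    omega
  · rintro ⟨j, k⟩ hx
    simp only [mem_sigma, mem_range, mem_filter, mem_product] at hx ⊢
    omega
  · rintro ⟨m, k⟩ hx
    simp only [mem_sigma, mem_range] at hx ⊢
    simp only [Sigma.mk.injEq, heq_eq_eq, and_true]
    omega
  · rintro ⟨j, k⟩ hx
    simp
  · rintro ⟨m, k⟩ hx
    rfl

end basic

namespace Filt

variable {A : Type*} [Ring A] [Algebra ℚ A] {N : ℕ} (Φ : Filt A N)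

theorem pow_mem {x : A} (hx : x ∈ Φ.F 1) (k : ℕ) (hk : 1 ≤ k) : x ^ k ∈ Φ.F k := by
  induction k, hk using Nat.le_induction with
  | base => simpa using hx
  | succ k hk ih =>
    rw [pow_succ]
    exact Φ.mul ih hx

theorem eq_zero_of_le {x : A} {k : ℕ} (hk : N ≤ k) (hx : x ∈ Φ.F k) : x = 0 :=
  Φ.bot x (Φ.anti hk hx)

theorem pow_eq_zero {x : A} (hx : x ∈ Φ.F 1) (k : ℕ) (hk : N ≤ k) (hk1 : 1 ≤ k) : x ^ k = 0 :=
  Φ.eq_zero_of_le hk (Φ.pow_mem hx k hk1)

theorem nilp {x : A} (hx : x ∈ Φ.F 1) : IsNilpotent x :=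
  ⟨N + 1, Φ.pow_eq_zero hx _ (by omega) (by omega)⟩

theorem adr_mem {i j : ℕ} {z w : A} (hz : z ∈ Φ.F i) (hw : w ∈ Φ.F j) :
    adr z w ∈ Φ.F (j + i) := by
  unfold adr
  refine Submodule.sub_mem _ (Φ.mul hw hz) ?_
  rw [add_comm]
  exact Φ.mul hz hw

theorem adr_iter_mem {j : ℕ} {z w : A} (hz : z ∈ Φ.F 1) (hw : w ∈ Φ.F j) (k : ℕ) :
    (adr z)^[k] w ∈ Φ.F (j + k) := by
  induction k with
  | zero => simpa using hw
  | succ k ih =>
    rw [Function.iterate_succ_apply']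
    exact Φ.adr_mem (i := 1) (j := j + k) hz ih

theorem exp_eq {x : A} (hx : x ∈ Φ.F 1) :
    IsNilpotent.exp x = ∑ i ∈ range (N + 1), (i.factorial : ℚ)⁻¹ • (x ^ i) :=
  IsNilpotent.exp_eq_sum (Φ.pow_eq_zero hx _ (by omega) (by omega))

theorem mul_mem1 {i k : ℕ} {z w : A} (hz : z ∈ Φ.F 1) (hw : w ∈ Φ.F i) : z ^ k * w ∈ Φ.F (k + i) := by
  rcases Nat.eq_zero_or_pos k with rfl | hk
  · simpa using hw
  · exact Φ.mul (Φ.pow_mem hz k hk) hw

/-- `w exp z = exp z * ∑ (1/k!) adr z ^ k w` -/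
theorem mul_exp {z w : A} (hz : z ∈ Φ.F 1) (hw : w ∈ Φ.F 1) :
    w * IsNilpotent.exp z = IsNilpotent.exp z *
      ∑ k ∈ range (N + 1), (k.factorial : ℚ)⁻¹ • (adr z)^[k] w := by
  rw [Φ.exp_eq hz, mul_sum, sum_mul]
  simp_rw [mul_smul_comm, mul_pow_adr]
  have h := sum_anti (N + 1) (fun j k => ((j.factorial : ℚ)⁻¹ * (k.factorial : ℚ)⁻¹) •
    (z ^ j * (adr z)^[k] w)) (by
      intro j k hjk
      rw [Φ.eq_zero_of_le (k := j + (1 + k)) (by omega) (Φ.mul_mem1 hz (Φ.adr_iter_mem hz hw k)),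
        smul_zero])
  have e1 : ∀ m ∈ range (N + 1), ((m.factorial : ℚ)⁻¹ • ∑ k ∈ range (m + 1),
      (m.choose k : ℚ) • (z ^ (m - k) * (adr z)^[k] w)) = ∑ k ∈ range (m + 1),
      ((((m - k).factorial : ℕ) : ℚ)⁻¹ * (k.factorial : ℚ)⁻¹) • (z ^ (m - k) * (adr z)^[k] w) := by
    intro m _
    rw [smul_sum]
    refine sum_congr rfl fun k hk => ?_
    rw [mem_range] at hk
    rw [smul_smul, Nat.choose_eq_factorial_div_factorial (by omega),
      Nat.cast_div (Nat.factorial_mul_factorial_dvd_factorial (by omega)) (by positivity)]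
    congr 1
    have h1 : ((m.factorial : ℕ) : ℚ) ≠ 0 := by positivity
    have h2 : (((m - k).factorial : ℕ) : ℚ) ≠ 0 := by positivity
    have h3 : ((k.factorial : ℕ) : ℚ) ≠ 0 := by positivity
    push_cast
    field_simp
  rw [sum_congr rfl e1, h]
  refine sum_congr rfl fun j _ => ?_
  rw [mul_sum]
  refine sum_congr rfl fun k _ => ?_
  rw [smul_mul_assoc, mul_smul_comm, smul_smul]

/-- the derivative of the exponential -/
theorem deriv_exp (D : A →+ A) (hD : ∀ x y, D (x * y) = D x * y + x * D y)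
    (hDq : ∀ (q : ℚ) x, D (q • x) = q • D x) {z : A} (hz : z ∈ Φ.F 1) (hDz : D z ∈ Φ.F 1) :
    D (IsNilpotent.exp z) = IsNilpotent.exp z *
      ∑ k ∈ range (N + 1), ((k + 1).factorial : ℚ)⁻¹ • (adr z)^[k] (D z) := by
  have h1 : D 1 = 0 := by
    have := hD 1 1
    simp only [mul_one, one_mul] at this
    exact left_eq_add.1 this
  have e0 : IsNilpotent.exp z = ∑ i ∈ range (N + 2), (i.factorial : ℚ)⁻¹ • (z ^ i) :=
    IsNilpotent.exp_eq_sum (Φ.pow_eq_zero hz _ (by omega) (by omega))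
  conv_lhs => rw [e0]
  rw [map_sum, sum_range_succ']
  simp_rw [hDq]
  rw [pow_zero, h1, smul_zero, add_zero]
  simp_rw [fun m => deriv_pow_adr D hD z m h1]
  have h := sum_anti (N + 1) (fun j k => ((j.factorial : ℚ)⁻¹ * ((k + 1).factorial : ℚ)⁻¹) •
    (z ^ j * (adr z)^[k] (D z))) (by
      intro j k hjk
      rw [Φ.eq_zero_of_le (k := j + (1 + k)) (by omega) (Φ.mul_mem1 hz (Φ.adr_iter_mem hz hDz k)),
        smul_zero])
  have e1 : ∀ m ∈ range (N + 1), (((m + 1).factorial : ℚ)⁻¹ • ∑ k ∈ range (m + 1),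
      ((m + 1).choose (k + 1) : ℚ) • (z ^ (m + 1 - 1 - k) * (adr z)^[k] (D z))) =
      ∑ k ∈ range (m + 1),
      ((((m - k).factorial : ℕ) : ℚ)⁻¹ * ((k + 1).factorial : ℚ)⁻¹) •
        (z ^ (m - k) * (adr z)^[k] (D z)) := by
    intro m _
    rw [smul_sum]
    refine sum_congr rfl fun k hk => ?_
    rw [mem_range] at hk
    rw [smul_smul, Nat.choose_eq_factorial_div_factorial (by omega),
      Nat.cast_div (Nat.factorial_mul_factorial_dvd_factorial (by omega)) (by positivity)]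
    have e2 : m + 1 - (k + 1) = m - k := by omega
    rw [e2, Nat.add_sub_cancel]
    congr 1
    have h1 : (((m + 1).factorial : ℕ) : ℚ) ≠ 0 := by positivity
    have h2 : (((m - k).factorial : ℕ) : ℚ) ≠ 0 := by positivity
    have h3 : (((k + 1).factorial : ℕ) : ℚ) ≠ 0 := by positivity
    rw [Nat.cast_mul]
    field_simp
  rw [sum_congr rfl e1, h, Φ.exp_eq hz, sum_mul]
  refine sum_congr rfl fun j _ => ?_
  rw [mul_sum]
  refine sum_congr rfl fun k _ => ?_
  rw [smul_mul_assoc, mul_smul_comm, smul_smul]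

/-! ### injectivity and surjectivity of the exponential -/

theorem add_pow_sub {z v : A} {k : ℕ} (hz : z ∈ Φ.F 1) (hv : v ∈ Φ.F k) (hk : 1 ≤ k) (m : ℕ) :
    (z + v) ^ (m + 1) - z ^ (m + 1) ∈ Φ.F (k + m) := by
  have hzv : z + v ∈ Φ.F 1 := Submodule.add_mem _ hz (Φ.anti hk hv)
  induction m with
  | zero => simpa using hv
  | succ m ih =>
    have e : (z + v) ^ (m + 1 + 1) - z ^ (m + 1 + 1) =
        (z + v) * ((z + v) ^ (m + 1) - z ^ (m + 1)) + v * z ^ (m + 1) := by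
      rw [pow_succ' (z + v), pow_succ' z (m + 1), mul_sub, add_mul z v (z ^ (m + 1))]
      abel
    rw [e]
    refine Submodule.add_mem _ ?_ ?_
    · have := Φ.mul hzv ih
      rwa [show 1 + (k + m) = k + (m + 1) by ring] at this
    · exact Φ.mul hv (Φ.pow_mem hz _ (by omega))

theorem exp_add_sub {z v : A} {k : ℕ} (hz : z ∈ Φ.F 1) (hv : v ∈ Φ.F k) (hk : 1 ≤ k) :
    IsNilpotent.exp (z + v) - IsNilpotent.exp z - v ∈ Φ.F (k + 1) := by
  have hzv : z + v ∈ Φ.F 1 := Submodule.add_mem _ hz (Φ.anti hk hv)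
  have e1 : ∀ x ∈ Φ.F 1, IsNilpotent.exp x = ∑ i ∈ range (N + 2), (i.factorial : ℚ)⁻¹ • (x ^ i) :=
    fun x hx => IsNilpotent.exp_eq_sum (Φ.pow_eq_zero hx _ (by omega) (by omega))
  rw [e1 _ hzv, e1 _ hz, ← sum_sub_distrib, sum_range_succ', sum_range_succ']
  simp only [zero_add, pow_one, pow_zero, sub_self, Nat.factorial_one, Nat.cast_one, inv_one,
    one_smul, add_zero, add_sub_cancel_left, add_sub_cancel_right]
  refine Submodule.sum_mem _ fun i _ => ?_
  rw [← smul_sub]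
  refine Submodule.smul_mem _ _ ?_
  exact Φ.anti (by omega) (Φ.add_pow_sub hz hv hk (i + 1))

theorem exp_inj {x y : A} (hx : x ∈ Φ.F 1) (hy : y ∈ Φ.F 1)
    (h : IsNilpotent.exp x = IsNilpotent.exp y) : x = y := by
  have key : ∀ k, y - x ∈ Φ.F (k + 1) := by
    intro k
    induction k with
    | zero => exact Submodule.sub_mem _ hy hx
    | succ k ih =>
      have h1 := Φ.exp_add_sub hx ih (by omega)
      rw [add_sub_cancel, ← h, sub_self, zero_sub] at h1
      simpa using Submodule.neg_mem _ h1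
  have := Φ.eq_zero_of_le (k := N + 1) (by omega) (key N)
  exact (sub_eq_zero.1 this).symm

theorem exp_sub_one_mem {x : A} (hx : x ∈ Φ.F 1) : IsNilpotent.exp x - 1 ∈ Φ.F 1 := by
  have h0 : (0 : A) ∈ Φ.F 1 := Submodule.zero_mem _
  have := Φ.exp_add_sub h0 hx le_rfl
  rw [zero_add, IsNilpotent.exp_zero] at this
  have h2 := Submodule.add_mem _ (Φ.anti (by omega : 1 ≤ 1 + 1) this) hx
  simpa using h2

theorem exp_surj {w : A} (hw : w - 1 ∈ Φ.F 1) : ∃ z ∈ Φ.F 1, IsNilpotent.exp z = w := by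
  have key : ∀ k, ∃ z ∈ Φ.F 1, w - IsNilpotent.exp z ∈ Φ.F (k + 1) := by
    intro k
    induction k with
    | zero =>
      refine ⟨0, Submodule.zero_mem _, ?_⟩
      rw [IsNilpotent.exp_zero]
      exact hw
    | succ k ih =>
      obtain ⟨z, hz, h⟩ := ih
      refine ⟨z + (w - IsNilpotent.exp z), Submodule.add_mem _ hz (Φ.anti (by omega) h), ?_⟩
      have h1 := Φ.exp_add_sub hz h (by omega)
      have e : w - IsNilpotent.exp (z + (w - IsNilpotent.exp z)) =
          -(IsNilpotent.exp (z + (w - IsNilpotent.exp z)) - IsNilpotent.exp z -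
            (w - IsNilpotent.exp z)) := by abel
      rw [e]
      exact Submodule.neg_mem _ h1
  obtain ⟨z, hz, h⟩ := key N
  exact ⟨z, hz, (sub_eq_zero.1 (Φ.eq_zero_of_le (by omega) h)).symm⟩

theorem one_add_mul_mem {u v : A} (hu : u - 1 ∈ Φ.F 1) (hv : v - 1 ∈ Φ.F 1) :
    u * v - 1 ∈ Φ.F 1 := by
  have e : u * v - 1 = (u - 1) + (v - 1) + (u - 1) * (v - 1) := by
    noncomm_ring
  rw [e]
  exact Submodule.add_mem _ (Submodule.add_mem _ hu hv) (Φ.anti (by omega) (Φ.mul hu hv))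

end Filt

end Pool.Agent.TH91.RF
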