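import Pool.Agent.TH91.RF.Mal

/-!
# The rational closure of a group of unipotent matrices
-/

set_option autoImplicit false

namespace Pool.Agent.TH91.RF

open Finset Matrix

attribute [local instance 100] LieRing.ofAssociativeRing

theorem vdm_ne_zero (N : ℕ) : vdm N ≠ 0 := by
  intro h0
  obtain ⟨p, hp1, hp2⟩ := Nat.exists_infinite_primes (N + 1)
  apply not_dvd_vdm (N := N) hp2 (by omega)
  rw [h0]
  exact dvd_zero _

section
variable {A : Type*} [Ring A] [Algebra ℚ A] {N : ℕ} {G : Type*} [Group G]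

theorem Filt.lieLat (Φ : Filt A N) : LieLat Φ (Φ.F 1).toAddSubgroup := by
  refine ⟨fun x hx => hx, fun u hu v hv => ?_⟩
  refine Submodule.smul_mem _ _ (Submodule.sub_mem _ ?_ ?_)
  · exact Φ.anti (by omega) (Φ.mul hu hv)
  · exact Φ.anti (by omega) (Φ.mul hv hu)

theorem Filt.lieIdl (Φ : Filt A N) (k : ℕ) (hk : 1 ≤ k) :
    LieIdl N (Φ.F 1).toAddSubgroup (Φ.F k).toAddSubgroup := by
  refine ⟨Φ.anti hk, fun u hu v hv => ?_⟩
  refine Submodule.smul_mem _ _ (Submodule.sub_mem _ ?_ ?_)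
  · exact Φ.anti (by omega) (Φ.mul hu hv)
  · exact Φ.anti (by omega) (Φ.mul hv hu)

/-- the logarithms of the roots of the elements of the group -/
def isoSet (Φ : Filt A N) (ρ : G →* A) : Set A :=
  {x | x ∈ Φ.F 1 ∧ ∃ m : ℕ, 0 < m ∧ ∃ g, ρ g = IsNilpotent.exp (m • x)}

variable {Φ : Filt A N} {ρ : G →* A}

theorem isoSet_smul {x : A} (hx : x ∈ isoSet Φ ρ) (q : ℚ) : q • x ∈ isoSet Φ ρ := by
  obtain ⟨hx1, m, hm, g, hg⟩ := hx
  refine ⟨Submodule.smul_mem _ _ hx1, m * q.den, Nat.mul_pos hm q.pos, g ^ q.num, ?_⟩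
  rw [rho_zpow ρ ((Φ.F 1).nsmul_mem hx1 m) hg]
  congr 1
  rw [← Int.cast_smul_eq_zsmul ℚ, ← Nat.cast_smul_eq_nsmul ℚ, ← Nat.cast_smul_eq_nsmul ℚ,
    smul_smul, smul_smul]
  congr 1
  push_cast
  rw [mul_assoc, Rat.den_mul_eq_num, mul_comm]

theorem isoSet_mem {x : A} (hx : x ∈ Φ.F 1) (g : G) (hg : ρ g = IsNilpotent.exp x) :
    x ∈ isoSet Φ ρ := ⟨hx, 1, one_pos, g, by rw [one_smul]; exact hg⟩

/-- the bracket step -/
theorem isoSet_bracket {k : ℕ} (hk : 1 ≤ k) (J : Submodule ℚ A)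
    (hJ : ∀ x, x ∈ J ↔ x ∈ isoSet Φ ρ ∧ x ∈ Φ.F (k + 1)) {w x : A} (hw : w ∈ isoSet Φ ρ)
    (hx : x ∈ isoSet Φ ρ) (hxk : x ∈ Φ.F k) : w * x - x * w ∈ J := by
  rcases Nat.eq_zero_or_pos N with hN0 | hN0
  · have : x = 0 := Φ.eq_zero_of_le (by omega) hxk
    rw [this]
    simp
  obtain ⟨hw1, m, hm, gw, hgw⟩ := hw
  obtain ⟨hx1, n, hn, gx, hgx⟩ := hx
  set w' := m • w with hw'
  set x' := n • x with hx'
  have hw'1 : w' ∈ Φ.F 1 := (Φ.F 1).nsmul_mem hw1 m
  have hx'1 : x' ∈ Φ.F 1 := (Φ.F 1).nsmul_mem hx1 n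
  have hx'k : x' ∈ Φ.F k := (Φ.F k).nsmul_mem hxk n
  have hT := Φ.lieLat
  have hI := Φ.lieIdl (k + 1) (by omega)
  have hvdm : ∀ y : A, vdm N • y ∈ J → y ∈ J := by
    intro y hy
    have h1 := J.smul_mem ((vdm N : ℤ) : ℚ)⁻¹ hy
    rwa [← Int.cast_smul_eq_zsmul ℚ, inv_smul_smul₀ (by exact_mod_cast vdm_ne_zero N)] at h1
  have hcon : ∀ t : ℕ, ∑ i ∈ range (N + 1), ((t ^ i : ℕ) : ℤ) •
      (if i = 0 then 0 else ((i.factorial : ℚ))⁻¹ • (adr (-w'))^[i] x') ∈ J.toAddSubgroup := by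
    intro t
    set a : A := ∑ i ∈ range (N + 1), ((i.factorial : ℚ))⁻¹ •
      (adr (-((t : ℤ) • w')))^[i] x' with ha
    have htw : (t : ℤ) • w' ∈ Φ.F 1 := by
      rw [natCast_zsmul]
      exact (Φ.F 1).nsmul_mem hw'1 t
    have haT : a ∈ Φ.F 1 := Submodule.sum_mem _ fun i hi =>
      hT.fact_adr_mem hT.self htw hx'1 i (mem_range.1 hi)
    have haexp : ρ (gw ^ (t : ℤ) * gx * (gw ^ (t : ℤ))⁻¹) = IsNilpotent.exp a := by
      rw [ha, ← hT.exp_conj_eq htw hx'1, map_mul, map_mul,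
        rho_inv ρ htw (rho_zpow ρ hw'1 hgw t), rho_zpow ρ hw'1 hgw t, hgx]
    have hax : a - x' = ∑ i ∈ range (N + 1), ((t ^ i : ℕ) : ℤ) •
        (if i = 0 then 0 else ((i.factorial : ℚ))⁻¹ • (adr (-w'))^[i] x') := by
      rw [ha, sum_range_succ', sum_range_succ' (fun n => ((t ^ n : ℕ) : ℤ) • _)]
      simp only [Function.iterate_zero, id_eq, Nat.factorial_zero, Nat.cast_one, inv_one,
        one_smul, add_sub_cancel_right, if_true, smul_zero, add_zero]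
      refine sum_congr rfl fun n _ => ?_
      rw [if_neg (by omega)]
      have e1 : (-((t : ℤ) • w')) = (t : ℚ) • (-w') := by
        rw [smul_neg, Nat.cast_smul_eq_nsmul, Nat.cast_smul_eq_nsmul]
      rw [e1, adr_smul_iter, smul_comm, ← Int.cast_smul_eq_zsmul ℚ]
      push_cast
      rfl
    have hax' : a - x' ∈ Φ.F (k + 1) := by
      rw [hax]
      refine Submodule.sum_mem _ fun n hn => ?_
      rw [← Int.cast_smul_eq_zsmul ℚ]
      refine Submodule.smul_mem _ _ ?_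
      split_ifs with h0
      · exact Submodule.zero_mem _
      · exact Submodule.smul_mem _ _ (Φ.anti (by omega)
          (Φ.adr_iter_mem (Submodule.neg_mem _ hw'1) hx'k n))
    rw [← hax]
    obtain ⟨Z, h0, h1, hF, hs, hZ⟩ := Φ.bch haT (Submodule.neg_mem _ hx'1)
    have hZ' := hZ (Φ.F 1).toAddSubgroup (Φ.F (k + 1)).toAddSubgroup haT
      (Submodule.neg_mem _ hx'1) hI.le hI.br (by
        have e : (bigM N : ℚ)⁻¹ • (a * -x' - -x' * a) =
            (bigM N : ℚ)⁻¹ • (x' * (a - x') - (a - x') * x') := by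
          congr 1
          noncomm_ring
        rw [e]
        exact hI.br x' hx'1 _ hax')
    have hZJ' : ∀ n, Z n ∈ Φ.F (k + 1) := by
      intro n
      rcases Nat.lt_or_ge n 2 with h | h
      · interval_cases n
        · rw [h0]; exact Submodule.zero_mem _
        · rw [h1]
          rwa [← sub_eq_add_neg]
      · exact hZ' n h
    have hsum : ∀ s : ℕ, ∑ n ∈ range (N + 1), ((s ^ n : ℕ) : ℤ) • Z n ∈ J.toAddSubgroup := by
      intro s
      have h2 : ∑ n ∈ range (N + 1), ((s ^ n : ℕ) : ℤ) • Z n ∈ Φ.F (k + 1) :=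
        Submodule.sum_mem _ fun n _ => by
          rw [natCast_zsmul]
          exact (Φ.F (k + 1)).nsmul_mem (hZJ' n) _
      rw [Submodule.mem_toAddSubgroup, hJ]
      refine ⟨isoSet_mem (Φ.anti (by omega) h2)
        ((gw ^ (t : ℤ) * gx * (gw ^ (t : ℤ))⁻¹) ^ (s : ℤ) * (gx ^ (s : ℤ))⁻¹) ?_, h2⟩
      have h3 := hs s
      have e1 : ∑ n ∈ range (N + 1), ((s ^ n : ℕ) : ℤ) • Z n =
          ∑ n ∈ range (N + 1), (s : ℚ) ^ n • Z n := by
        refine sum_congr rfl fun n _ => ?_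
        rw [← Int.cast_smul_eq_zsmul ℚ]
        push_cast
        rfl
      rw [e1, ← h3, map_mul, rho_zpow ρ haT haexp s]
      have hxs : (s : ℤ) • x' ∈ Φ.F 1 := by
        rw [natCast_zsmul]
        exact (Φ.F 1).nsmul_mem hx'1 s
      rw [rho_inv ρ hxs (rho_zpow ρ hx'1 hgx s), ← Int.cast_smul_eq_zsmul ℚ,
        ← Int.cast_smul_eq_zsmul ℚ]
      push_cast
      rw [smul_neg]
    have h5 := vdm_mem N J.toAddSubgroup Z hsum 1 (by omega)
    rw [h1, ← sub_eq_add_neg] at h5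
    exact hvdm _ h5
  have h5 := vdm_mem N J.toAddSubgroup _ hcon 1 (by omega)
  simp only [one_ne_zero, if_false, Nat.factorial_one, Nat.cast_one, inv_one, one_smul,
    Function.iterate_one] at h5
  have h6 := hvdm _ h5
  have e1 : adr (-w') x' = ((m * n : ℕ) : ℚ) • (w * x - x * w) := by
    unfold adr
    rw [hw', hx', Nat.cast_smul_eq_nsmul, smul_sub]
    rw [mul_neg, neg_mul, sub_neg_eq_add, smul_mul_smul_comm, smul_mul_smul_comm, mul_comm n m]
    abel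
  rw [e1] at h6
  have h7 := J.smul_mem ((m * n : ℕ) : ℚ)⁻¹ h6
  rwa [inv_smul_smul₀ (by
    have : m * n ≠ 0 := (Nat.mul_pos hm hn).ne'
    exact_mod_cast this)] at h7

end

end Pool.Agent.TH91.RF
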