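import Pool.Agent.TH91.RF.Ex1

/-!
# The rational closure of a group of unipotent matrices is a Lie algebra
-/

set_option autoImplicit false

namespace Pool.Agent.TH91.RF

open Finset Matrix

attribute [local instance 100] LieRing.ofAssociativeRing

variable {N : ℕ} {G : Type*} [Group G] {ρ : G →* Matrix (Fin N) (Fin N) ℚ}

/-- the addition step -/
theorem isoSet_add {k : ℕ} (hk : 1 ≤ k) (J : Submodule ℚ (Matrix (Fin N) (Fin N) ℚ))
    (hJ : ∀ x, x ∈ J ↔ x ∈ isoSet (matFilt N) ρ ∧ x ∈ (matFilt N).F (k + 1))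
    {x y : Matrix (Fin N) (Fin N) ℚ} (hx : x ∈ isoSet (matFilt N) ρ) (hxk : x ∈ (matFilt N).F k)
    (hy : y ∈ isoSet (matFilt N) ρ) (hyk : y ∈ (matFilt N).F k) :
    x + y ∈ isoSet (matFilt N) ρ := by
  set Φ := matFilt N with hΦ
  set S : Set (Matrix (Fin N) (Fin N) ℚ) := {x, y} ∪ J with hS
  have hSiso : ∀ u ∈ S, u ∈ isoSet Φ ρ ∧ u ∈ Φ.F k := by
    rintro u (hu | hu)
    · rcases hu with rfl | hu
      · exact ⟨hx, hxk⟩
      · rw [Set.mem_singleton_iff.1 hu]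
        exact ⟨hy, hyk⟩
    · have h1 := (hJ u).1 hu
      exact ⟨h1.1, Φ.anti (by omega) h1.2⟩
  set V := Submodule.span ℚ S with hV
  have hbr : ∀ u ∈ V, ∀ v ∈ V, u * v - v * u ∈ J := by
    intro u hu v hv
    induction hu using Submodule.span_induction with
    | mem u hu =>
      induction hv using Submodule.span_induction with
      | mem v hv =>
        exact isoSet_bracket hk J hJ (hSiso u hu).1 (hSiso v hv).1 (hSiso v hv).2
      | zero => simp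
      | add a b _ _ iha ihb =>
        have e : u * (a + b) - (a + b) * u = (u * a - a * u) + (u * b - b * u) := by noncomm_ring
        rw [e]
        exact J.add_mem iha ihb
      | smul c a _ iha =>
        have e : u * (c • a) - (c • a) * u = c • (u * a - a * u) := by
          rw [mul_smul_comm, smul_mul_assoc, smul_sub]
        rw [e]
        exact J.smul_mem c iha
    | zero => simp
    | add a b _ _ iha ihb =>
      have e : (a + b) * v - v * (a + b) = (a * v - v * a) + (b * v - v * b) := by noncomm_ring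
      rw [e]
      exact J.add_mem iha ihb
    | smul c a _ iha =>
      have e : (c • a) * v - v * (c • a) = c • (a * v - v * a) := by
        rw [mul_smul_comm, smul_mul_assoc, smul_sub]
      rw [e]
      exact J.smul_mem c iha
  have hJV : J ≤ V := fun u hu => Submodule.subset_span (Or.inr hu)
  let L : LieSubalgebra ℚ (Matrix (Fin N) (Fin N) ℚ) :=
    { V with
      lie_mem' := by
        intro u v hu hv
        rw [LieRing.of_associative_ring_bracket]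
        exact hJV (hbr u hu v hv) }
  have hLV : ∀ u, u ∈ L ↔ u ∈ V := fun u => Iff.rfl
  have hLF : ∀ u ∈ L, u ∈ Φ.F 1 := by
    intro u hu
    have h1 : V ≤ Φ.F 1 := Submodule.span_le.2 fun u hu => (hSiso u hu).1.1
    exact h1 ((hLV u).1 hu)
  obtain ⟨h, b, T, hT⟩ := exists_lat L
  have hup : ∀ X ∈ L, ∀ i j : Fin N, j ≤ i → X i j = 0 := by
    intro X hX i j hij
    exact (mem_matFilt.1 (hLF X hX)) i j (by rw [Fin.le_def] at hij; omega)
  set Λ := (emb b).range with hΛ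
  have hΛL : ∀ u ∈ Λ, u ∈ V := by
    rintro _ ⟨z, rfl⟩
    exact (hLV _).1 (emb_mem b z)
  have hΛrg : LieRg Φ Λ := lieRg_range b T hT hup
  set ΛJ : AddSubgroup (Matrix (Fin N) (Fin N) ℚ) := Λ ⊓ J.toAddSubgroup with hΛJ
  have hbrΛ : ∀ u ∈ Λ, ∀ v ∈ Λ, u * v - v * u ∈ ΛJ := by
    intro u hu v hv
    rw [hΛJ, AddSubgroup.mem_inf]
    exact ⟨hΛrg.br u hu v hv, hbr u (hΛL u hu) v (hΛL v hv)⟩
  have hΛJrg : LieRg Φ ΛJ := by
    refine ⟨fun u hu => hΛrg.le u hu.1, fun u hu v hv => hbrΛ u hu.1 v hv.1⟩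
  have hfg : (AddSubgroup.toIntSubmodule ΛJ).FG := by
    have h1 : IsNoetherian ℤ (AddSubgroup.toIntSubmodule Λ) :=
      isNoetherian_of_fg_of_noetherian _ (fg_range b)
    refine (isNoetherian_submodule.1 h1) _ ?_
    intro x hx
    exact hx.1
  obtain ⟨q', hq', huni⟩ := exists_uniform Φ hΛJrg hfg ρ (by
    intro u hu
    have h1 := ((hJ u).1 hu.2).1
    exact h1.2)
  obtain ⟨c₁, hc₁, hc₁x⟩ := exists_smul_mem_range b ((hLV x).2 (Submodule.subset_span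
    (Or.inl (Or.inl rfl))))
  obtain ⟨c₂, hc₂, hc₂y⟩ := exists_smul_mem_range b ((hLV y).2 (Submodule.subset_span
    (Or.inl (Or.inr rfl))))
  obtain ⟨hx1, m₁, hm₁, g₁, hg₁⟩ := hx
  obtain ⟨hy1, m₂, hm₂, g₂, hg₂⟩ := hy
  set q := bigM N * (q' * (m₁ * m₂)) with hq
  have hq0 : 0 < q := Nat.mul_pos (bigM_pos N) (Nat.mul_pos hq' (Nat.mul_pos hm₁ hm₂))
  set T' := scl q Λ with hT'
  set J₀ := scl (q * q') ΛJ with hJ₀
  have hTJ : ∀ u ∈ T', ∀ v ∈ T', (bigM N : ℚ)⁻¹ • (u * v - v * u) ∈ J₀ := by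
    intro u hu v hv
    obtain ⟨a, ha, rfl⟩ := mem_scl.1 hu
    obtain ⟨a', ha', rfl⟩ := mem_scl.1 hv
    rw [scl_br hq]
    refine mem_scl.2 ⟨(m₁ * m₂) • (a * a' - a' * a), ΛJ.nsmul_mem (hbrΛ a ha a' ha') _, ?_⟩
    rw [smul_smul]
    congr 1
    ring
  have hJT : J₀ ≤ T' := by
    intro u hu
    obtain ⟨a, ha, rfl⟩ := mem_scl.1 hu
    refine mem_scl.2 ⟨q' • a, Λ.nsmul_mem ha.1 _, ?_⟩
    rw [smul_smul]
  have hTL : LieLat Φ T' := by
    refine ⟨?_, fun u hu v hv => hJT (hTJ u hu v hv)⟩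
    intro u hu
    obtain ⟨a, ha, rfl⟩ := mem_scl.1 hu
    exact (Φ.F 1).nsmul_mem (hΛrg.le a ha) q
  have hJI : LieIdl N T' J₀ := ⟨hJT, fun u hu v hv => hTJ u hu v (hJT hv)⟩
  have hJρ : ∀ j ∈ J₀, ∃ g, ρ g = IsNilpotent.exp j := by
    intro j hj
    obtain ⟨a, ha, rfl⟩ := mem_scl.1 hj
    rw [mul_comm, mul_smul]
    exact huni _ (ΛJ.nsmul_mem ha _)
  -- the multiples of `x` and `y`
  set c := c₁ * c₂ with hc
  have hc0 : 0 < c := Nat.mul_pos hc₁ hc₂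
  have hu₁ : q • (c • x) ∈ T' := by
    refine mem_scl.2 ⟨c • x, ?_, rfl⟩
    rw [hc, mul_comm, mul_smul]
    exact Λ.nsmul_mem hc₁x _
  have hu₂ : q • (c • y) ∈ T' := by
    refine mem_scl.2 ⟨c • y, ?_, rfl⟩
    rw [hc, mul_smul]
    exact Λ.nsmul_mem hc₂y _
  have hρ₁ : ∃ g, ρ g = IsNilpotent.exp (q • (c • x)) := by
    refine ⟨g₁ ^ (bigM N * q' * m₂ * c), ?_⟩
    rw [map_pow, hg₁, ← exp_nsmul ((Φ.F 1).nsmul_mem hx1 m₁)]
    congr 1
    rw [smul_smul, smul_smul]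
    congr 1
    rw [hq]
    ring
  have hρ₂ : ∃ g, ρ g = IsNilpotent.exp (q • (c • y)) := by
    refine ⟨g₂ ^ (bigM N * q' * m₁ * c), ?_⟩
    rw [map_pow, hg₂, ← exp_nsmul ((Φ.F 1).nsmul_mem hy1 m₂)]
    congr 1
    rw [smul_smul, smul_smul]
    congr 1
    rw [hq]
    ring
  obtain ⟨γ₁, hγ₁⟩ := hρ₁
  obtain ⟨γ₂, hγ₂⟩ := hρ₂
  obtain ⟨j, hj, h1⟩ := hTL.exp_mul_add hJI hu₁ hu₂ (hTJ _ hu₁ _ hu₂)
  obtain ⟨j', hj', h2⟩ := hTL.exp_coset hJI
    (T'.add_mem (T'.add_mem hu₁ hu₂) (hJT hj)) (T'.add_mem hu₁ hu₂) (by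
      have : q • (c • x) + q • (c • y) - (q • (c • x) + q • (c • y) + j) = -j := by abel
      rw [this]
      exact J₀.neg_mem hj)
  obtain ⟨γ₃, hγ₃⟩ := hJρ j' hj'
  refine ⟨Submodule.add_mem _ hx1 hy1, q * c, Nat.mul_pos hq0 hc0, γ₁ * γ₂ * γ₃, ?_⟩
  have e : (q * c) • (x + y) = q • (c • x) + q • (c • y) := by
    rw [mul_smul, smul_add, smul_add]
  rw [e, h2, ← h1, map_mul, map_mul, hγ₁, hγ₂, hγ₃]

theorem isoSet_closed : ∀ j k : ℕ, N ≤ k + j → 1 ≤ k →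
    ∃ J : Submodule ℚ (Matrix (Fin N) (Fin N) ℚ),
      ∀ x, x ∈ J ↔ x ∈ isoSet (matFilt N) ρ ∧ x ∈ (matFilt N).F k := by
  have hzero : (0 : Matrix (Fin N) (Fin N) ℚ) ∈ isoSet (matFilt N) ρ :=
    ⟨Submodule.zero_mem _, 1, one_pos, 1, by simp⟩
  intro j
  induction j with
  | zero =>
    intro k hk hk1
    refine ⟨⊥, fun x => ?_⟩
    rw [Submodule.mem_bot]
    constructor
    · rintro rfl
      exact ⟨hzero, Submodule.zero_mem _⟩
    · rintro ⟨_, hx⟩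
      exact (matFilt N).eq_zero_of_le hk hx
  | succ j ih =>
    intro k hk hk1
    obtain ⟨J, hJ⟩ := ih (k + 1) (by omega) (by omega)
    exact ⟨{ carrier := {x | x ∈ isoSet (matFilt N) ρ ∧ x ∈ (matFilt N).F k}
             add_mem' := fun {a b} ha hb => ⟨isoSet_add hk1 J hJ ha.1 ha.2 hb.1 hb.2,
               Submodule.add_mem _ ha.2 hb.2⟩
             zero_mem' := ⟨hzero, Submodule.zero_mem _⟩
             smul_mem' := fun c {x} hx => ⟨isoSet_smul hx.1 c, Submodule.smul_mem _ _ hx.2⟩ },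
      fun x => Iff.rfl⟩

/-- A group of unipotent matrices has a Mal'cev completion. -/
theorem completion_of_unipotent (ρ : G →* Matrix (Fin N) (Fin N) ℚ) (hinj : Function.Injective ρ)
    (hρ : ∀ g, ρ g - 1 ∈ (matFilt N).F 1) : Nonempty (MalcevCompletion G) := by
  obtain ⟨J, hJ⟩ := isoSet_closed (N := N) (ρ := ρ) N 1 (by omega) le_rfl
  obtain ⟨J₂, hJ₂⟩ := isoSet_closed (N := N) (ρ := ρ) N 2 (by omega) (by omega)
  have hJ1 : ∀ x, x ∈ J ↔ x ∈ isoSet (matFilt N) ρ := by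
    intro x
    rw [hJ]
    exact ⟨fun h => h.1, fun h => ⟨h, h.1⟩⟩
  let L : LieSubalgebra ℚ (Matrix (Fin N) (Fin N) ℚ) :=
    { J with
      lie_mem' := by
        intro u v hu hv
        rw [LieRing.of_associative_ring_bracket]
        have hu' : u ∈ J := hu
        have hv' : v ∈ J := hv
        rw [hJ1] at hu' hv'
        have h1 := isoSet_bracket le_rfl J₂ hJ₂ hu' hv' hv'.1
        have h2 := ((hJ₂ _).1 h1).1
        exact (hJ1 _).2 h2 }
  have hL : ∀ x, x ∈ L ↔ x ∈ isoSet (matFilt N) ρ := fun x => hJ1 x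
  refine ⟨⟨N, L, ?_, ρ, hinj, ?_, ?_⟩⟩
  · intro X hX i j hij
    exact (mem_matFilt.1 ((hL X).1 hX).1) i j (by rw [Fin.le_def] at hij; omega)
  · intro g
    obtain ⟨z, hz, h⟩ := (matFilt N).exp_surj (hρ g)
    exact ⟨z, (hL z).2 (isoSet_mem hz g h.symm), h.symm⟩
  · intro X hX
    exact ((hL X).1 hX).2

end Pool.Agent.TH91.RF
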