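import Mathlib

/-!
# Quotients of bounded dimension of a module over a family of integer matrices
-/

set_option autoImplicit false

namespace Pool.Agent.TH91.RF

open Finset Matrix

variable {ι : Type} {h : ℕ}

/-- `P` describes an invariant quotient of dimension at most `e`. -/
def Quo (T : ι → Matrix (Fin h) (Fin h) ℤ) (R : Type*) [CommRing R] (e : ℕ)
    (P : Matrix (Fin e) (Fin h) R) : Prop :=
  ∃ A : ι → Matrix (Fin e) (Fin e) R, ∀ i, P * (T i).map (Int.castRingHom R) = A i * P

/-- the invariant quotients of dimension at most `e` separate the points -/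
def Full (T : ι → Matrix (Fin h) (Fin h) ℤ) (R : Type*) [CommRing R] (e : ℕ) : Prop :=
  ∀ x : Fin h → R, x ≠ 0 → ∃ P : Matrix (Fin e) (Fin h) R, Quo T R e P ∧ P *ᵥ x ≠ 0

/-- the same, with a certificate -/
def Cert (T : ι → Matrix (Fin h) (Fin h) ℤ) (R : Type*) [CommRing R] (e : ℕ) : Prop :=
  ∃ (m : ℕ) (P : Fin m → Matrix (Fin e) (Fin h) R) (Q : Fin m → Matrix (Fin h) (Fin e) R),
    (∀ j, Quo T R e (P j)) ∧ ∑ j, Q j * P j = 1

variable {T : ι → Matrix (Fin h) (Fin h) ℤ} {e : ℕ}

theorem map_castHom {R R' : Type*} [CommRing R] [CommRing R'] (φ : R →+* R')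
    (M : Matrix (Fin h) (Fin h) ℤ) :
    (M.map (Int.castRingHom R)).map φ = M.map (Int.castRingHom R') := by
  ext a b
  simp

theorem Quo.map {R R' : Type*} [CommRing R] [CommRing R'] (φ : R →+* R')
    {P : Matrix (Fin e) (Fin h) R} (hP : Quo T R e P) : Quo T R' e (P.map φ) := by
  obtain ⟨A, hA⟩ := hP
  refine ⟨fun i => (A i).map φ, fun i => ?_⟩
  rw [← map_castHom φ, ← Matrix.map_mul, hA i, Matrix.map_mul]

theorem Cert.map {R R' : Type*} [CommRing R] [CommRing R'] (φ : R →+* R')
    (hC : Cert T R e) : Cert T R' e := by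
  obtain ⟨m, P, Q, hP, hPQ⟩ := hC
  refine ⟨m, fun j => (P j).map φ, fun j => (Q j).map φ, fun j => (hP j).map φ, ?_⟩
  have h1 := congrArg (fun M : Matrix (Fin h) (Fin h) R => φ.mapMatrix M) hPQ
  simp only [map_sum, map_one] at h1
  rw [← h1]
  refine sum_congr rfl fun j _ => ?_
  rw [← Matrix.map_mul]
  rfl

theorem Cert.full {R : Type*} [CommRing R] (hC : Cert T R e) : Full T R e := by
  obtain ⟨m, P, Q, hP, hPQ⟩ := hC
  intro x hx
  by_contra hcon
  push Not at hcon
  apply hx
  rw [← one_mulVec x, ← hPQ, sum_mulVec]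
  refine sum_eq_zero fun j _ => ?_
  rw [← mulVec_mulVec, hcon _ (hP j), mulVec_zero]

theorem Full.cert {F : Type*} [Field F] (hF : Full T F e) : Cert T F e := by
  have key : ∀ n : ℕ, ∀ (m : ℕ) (P : Fin m → Matrix (Fin e) (Fin h) F), (∀ j, Quo T F e (P j)) →
      Module.finrank F ((⨅ j, LinearMap.ker (P j).mulVecLin : Submodule F (Fin h → F))) ≤ n →
      ∃ (m : ℕ) (P : Fin m → Matrix (Fin e) (Fin h) F), (∀ j, Quo T F e (P j)) ∧
        (⨅ j, LinearMap.ker (P j).mulVecLin : Submodule F (Fin h → F)) = ⊥ := by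
    intro n
    induction n with
    | zero =>
      intro m P hP hr
      exact ⟨m, P, hP, Submodule.finrank_eq_zero.1 (Nat.le_zero.1 hr)⟩
    | succ n ih =>
      intro m P hP hr
      by_cases hbot : (⨅ j, LinearMap.ker (P j).mulVecLin : Submodule F (Fin h → F)) = ⊥
      · exact ⟨m, P, hP, hbot⟩
      obtain ⟨x, hx, hx0⟩ := Submodule.exists_mem_ne_zero_of_ne_bot hbot
      obtain ⟨P', hP', hPx⟩ := hF x hx0
      refine ih (m + 1) (Fin.cons P' P) ?_ ?_
      · intro j
        refine Fin.cases ?_ (fun j => ?_) j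
        · simpa using hP'
        · simpa using hP j
      · rw [← Nat.lt_succ_iff]
        refine lt_of_lt_of_le (Submodule.finrank_lt_finrank_of_lt ?_) hr
        refine lt_of_le_of_ne ?_ ?_
        · refine le_iInf fun j => ?_
          refine (iInf_le _ j.succ).trans ?_
          rw [Fin.cons_succ]
        · intro heq
          rw [← heq] at hx
          have h1 := (Submodule.mem_iInf _).1 hx 0
          rw [Fin.cons_zero, LinearMap.mem_ker, mulVecLin_apply] at h1
          exact hPx h1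
  obtain ⟨m, P, hP, hbot⟩ := key _ 0 Fin.elim0 (fun j => j.elim0) le_rfl
  set Φ : (Fin h → F) →ₗ[F] (Fin m → Fin e → F) := LinearMap.pi fun j => (P j).mulVecLin with hΦ
  have hker : LinearMap.ker Φ = ⊥ := by
    rw [hΦ, LinearMap.ker_pi]
    exact hbot
  obtain ⟨g, hg⟩ := LinearMap.exists_leftInverse_of_injective Φ hker
  refine ⟨m, P, fun j => LinearMap.toMatrix' (g ∘ₗ LinearMap.single F (fun _ => Fin e → F) j), hP, ?_⟩
  apply Matrix.toLin'.injective
  ext1
  rename_i i
  ext1
  rw [map_sum]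
  simp only [toLin'_mul, toLin'_toMatrix', toLin'_one]
  have h1 := LinearMap.congr_fun hg (LinearMap.single F (fun _ => F) i 1)
  rw [LinearMap.comp_apply, LinearMap.id_apply] at h1
  rw [LinearMap.comp_apply, LinearMap.comp_apply, LinearMap.id_apply]
  nth_rewrite 2 [← h1]
  rw [LinearMap.sum_apply]
  simp only [LinearMap.comp_apply]
  rw [← map_sum]
  congr 1
  ext j : 1
  rw [Finset.sum_apply]
  rw [Finset.sum_eq_single_of_mem j (Finset.mem_univ _)]
  · simp [hΦ]
  · intro b _ hb
    simp [Pi.single_eq_of_ne (Ne.symm hb)]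

end Pool.Agent.TH91.RF
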