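import Pool.Agent.TH91.RF.Alg

/-!
# Transfer of certificates to number fields, and rational vectors
-/

set_option autoImplicit false

namespace Pool.Agent.TH91.RF

open Finset Matrix

theorem exists_numberField_hom' (R : Type) [CommRing R] [Nontrivial R] [Algebra ℚ R]
    [Algebra.FiniteType ℚ R] :
    ∃ (K : Type) (_ : Field K) (_ : NumberField K), Nonempty (R →+* K) := by
  obtain ⟨I, hI⟩ := Ideal.exists_maximal R
  let := Ideal.Quotient.field I
  have hfin : Module.Finite ℚ (R ⧸ I) := finite_of_finite_type_of_isJacobsonRing ℚ (R ⧸ I)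
  have hcz : CharZero (R ⧸ I) := algebraRat.charZero _
  refine ⟨R ⧸ I, inferInstance, @NumberField.mk (R ⧸ I) _ hcz ?_, ⟨Ideal.Quotient.mk I⟩⟩
  convert! hfin
  exact Subsingleton.elim _ _

theorem exists_numberField_hom (k : Type) [Field k] [CharZero k] (s : Set k) (hs : s.Finite) :
    ∃ (K : Type) (_ : Field K) (_ : NumberField K),
      Nonempty ((Algebra.adjoin ℚ s : Subalgebra ℚ k) →+* K) := by
  have hft : Algebra.FiniteType ℚ (Algebra.adjoin ℚ s) := by
    rw [← Subalgebra.fg_iff_finiteType]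
    exact Subalgebra.fg_def.2 ⟨s, hs, rfl⟩
  exact exists_numberField_hom' _

/-- restrict the coefficients of a matrix to a subalgebra -/
def lft {k : Type} [Field k] [CharZero k] {a b : Type*} (S : Subalgebra ℚ k) (M : Matrix a b k)
    (hM : ∀ i j, M i j ∈ S) : Matrix a b S := Matrix.of fun i j => ⟨M i j, hM i j⟩

theorem lft_map {k : Type} [Field k] [CharZero k] {a b : Type*} (S : Subalgebra ℚ k)
    (M : Matrix a b k) (hM : ∀ i j, M i j ∈ S) :
    (lft S M hM).map S.val = M := by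
  ext i j
  simp [lft]

theorem val_inj {k : Type} [Field k] [CharZero k] {a b : Type*} (S : Subalgebra ℚ k)
    {M M' : Matrix a b S} (h : M.map S.val = M'.map S.val) : M = M' := by
  ext i j
  exact congrFun (congrFun h i) j

variable {ι : Type} {h : ℕ} {T : ι → Matrix (Fin h) (Fin h) ℤ} {e : ℕ}

theorem Quo.descend {k : Type} [Field k] [CharZero k] (S : Subalgebra ℚ k)
    (P : Matrix (Fin e) (Fin h) k) (A : ι → Matrix (Fin e) (Fin e) k)
    (hPA : ∀ i, P * (T i).map (Int.castRingHom k) = A i * P)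
    (hP : ∀ i j, P i j ∈ S) (hA : ∀ l i j, A l i j ∈ S) : Quo T S e (lft S P hP) := by
  refine ⟨fun l => lft S (A l) (hA l), fun l => ?_⟩
  apply val_inj S
  have h1 := map_castHom (S.val : S →+* k) (T l)
  have h2 : ∀ {a b c : ℕ} (X : Matrix (Fin a) (Fin b) S) (Y : Matrix (Fin b) (Fin c) S),
      (X * Y).map S.val = X.map S.val * Y.map S.val := fun X Y => by
    rw [Matrix.map_mul]
  rw [h2, h2, lft_map, lft_map]
  rw [← hPA l, ← h1]
  rfl

theorem Cert.numberField [Finite ι] {k : Type} [Field k] [CharZero k] (hC : Cert T k e) :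
    ∃ (K : Type) (_ : Field K) (_ : NumberField K), Cert T K e := by
  obtain ⟨m, P, Q, hP, hPQ⟩ := hC
  choose A hA using hP
  set s : Set k := (Set.range fun x : Fin m × Fin e × Fin h => P x.1 x.2.1 x.2.2) ∪
    (Set.range fun x : Fin m × Fin h × Fin e => Q x.1 x.2.1 x.2.2) ∪
    (Set.range fun x : Fin m × ι × Fin e × Fin e => A x.1 x.2.1 x.2.2.1 x.2.2.2) with hs
  have hsf : s.Finite := ((Set.finite_range _).union (Set.finite_range _)).union (Set.finite_range _)
  obtain ⟨K, hK, hKN, ⟨φ⟩⟩ := exists_numberField_hom k s hsf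
  refine ⟨K, hK, hKN, Cert.map φ ?_⟩
  set S := Algebra.adjoin ℚ s with hS
  have h1 : s ⊆ S := Algebra.subset_adjoin
  have hPS : ∀ l i j, P l i j ∈ S := fun l i j => h1 (Or.inl (Or.inl ⟨(l, i, j), rfl⟩))
  have hQS : ∀ l i j, Q l i j ∈ S := fun l i j => h1 (Or.inl (Or.inr ⟨(l, i, j), rfl⟩))
  have hAS : ∀ l l' i j, A l l' i j ∈ S := fun l l' i j => h1 (Or.inr ⟨(l, l', i, j), rfl⟩)
  refine ⟨m, fun l => lft S (P l) (hPS l), fun l => lft S (Q l) (hQS l), fun l =>
    Quo.descend S (P l) (A l) (hA l) (hPS l) (hAS l), ?_⟩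
  apply val_inj S
  have h2 : ((S.val : S →+* k).mapMatrix : Matrix (Fin h) (Fin h) S →+* Matrix (Fin h) (Fin h) k)
    (∑ j, lft S (Q j) (hQS j) * lft S (P j) (hPS j)) = 1 := by
    rw [map_sum, ← hPQ]
    refine sum_congr rfl fun j _ => ?_
    have h3 : (lft S (Q j) (hQS j) * lft S (P j) (hPS j)).map S.val = Q j * P j := by
      rw [Matrix.map_mul, lft_map, lft_map]
    exact h3
  have h4 : (1 : Matrix (Fin h) (Fin h) S).map S.val = 1 := by
    ext i j
    by_cases hij : i = j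
    · subst hij; simp
    · simp [hij]
  rw [h4]
  exact h2

theorem sep_numberField [Finite ι] {k : Type} [Field k] [CharZero k] (ζ : Fin h → ℤ)
    (P : Matrix (Fin e) (Fin h) k) (hP : Quo T k e P) (hζ : P *ᵥ (fun i => (ζ i : k)) ≠ 0) :
    ∃ (K : Type) (_ : Field K) (_ : NumberField K) (P' : Matrix (Fin e) (Fin h) K),
      Quo T K e P' ∧ P' *ᵥ (fun i => (ζ i : K)) ≠ 0 := by
  obtain ⟨A, hA⟩ := hP
  obtain ⟨t, ht⟩ := Function.ne_iff.1 hζ
  rw [Pi.zero_apply] at ht
  set c : k := (P *ᵥ (fun i => (ζ i : k))) t with hc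
  set s : Set k := (Set.range fun x : Fin e × Fin h => P x.1 x.2) ∪
    (Set.range fun x : ι × Fin e × Fin e => A x.1 x.2.1 x.2.2) ∪ {c⁻¹} with hs
  have hsf : s.Finite := ((Set.finite_range _).union (Set.finite_range _)).union
    (Set.finite_singleton _)
  obtain ⟨K, hK, hKN, ⟨φ⟩⟩ := exists_numberField_hom k s hsf
  set S := Algebra.adjoin ℚ s with hS
  have h1 : s ⊆ S := Algebra.subset_adjoin
  have hPS : ∀ i j, P i j ∈ S := fun i j => h1 (Or.inl (Or.inl ⟨(i, j), rfl⟩))
  have hAS : ∀ l' i j, A l' i j ∈ S := fun l' i j => h1 (Or.inl (Or.inr ⟨(l', i, j), rfl⟩))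
  have hcS : c⁻¹ ∈ S := h1 (Or.inr rfl)
  refine ⟨K, hK, hKN, (lft S P hPS).map φ, (Quo.descend S P A hA hPS hAS).map φ, ?_⟩
  intro h0
  have h2 := congrFun h0 t
  set P' := lft S P hPS with hP'
  have h3 : (P' *ᵥ (fun i => (ζ i : S))) t * ⟨c⁻¹, hcS⟩ = 1 := by
    apply Subtype.val_injective
    have h4 : ((P' *ᵥ (fun i => (ζ i : S))) t : k) = c := by
      rw [hc]
      simp only [mulVec, dotProduct, hP', lft, Matrix.of_apply]
      push_cast
      rfl
    rw [MulMemClass.coe_mul, h4]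
    simp [mul_inv_cancel₀ ht]
  have h5 := congrArg φ h3
  rw [map_mul, map_one] at h5
  have h6 : φ ((P' *ᵥ (fun i => (ζ i : S))) t) = ((P'.map φ) *ᵥ (fun i => (ζ i : K))) t := by
    simp only [mulVec, dotProduct, map_sum, map_mul, map_intCast, Matrix.map_apply]
  rw [h6, h2] at h5
  simp at h5

/-- the rational number field embeds in the algebraic closure -/
theorem sep_algClosure [Finite ι] {k : Type} [Field k] [CharZero k] (ζ : Fin h → ℤ)
    (P : Matrix (Fin e) (Fin h) k) (hP : Quo T k e P) (hζ : P *ᵥ (fun i => (ζ i : k)) ≠ 0) :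
    ∃ P' : Matrix (Fin e) (Fin h) (AlgebraicClosure ℚ),
      Quo T (AlgebraicClosure ℚ) e P' ∧ P' *ᵥ (fun i => (ζ i : AlgebraicClosure ℚ)) ≠ 0 := by
  obtain ⟨K, hK, hKN, P', hP', hζ'⟩ := sep_numberField ζ P hP hζ
  let φ : K →ₐ[ℚ] AlgebraicClosure ℚ := IsAlgClosed.lift
  refine ⟨P'.map φ, hP'.map (φ : K →+* AlgebraicClosure ℚ), ?_⟩
  intro h0
  apply hζ'
  ext t
  have h2 := congrFun h0 t
  have h6 : φ ((P' *ᵥ (fun i => (ζ i : K))) t) =
      ((P'.map φ) *ᵥ (fun i => (ζ i : AlgebraicClosure ℚ))) t := by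
    simp only [mulVec, dotProduct, map_sum, map_mul, map_intCast, Matrix.map_apply]
  rw [h2, Pi.zero_apply] at h6
  exact (map_eq_zero φ).1 h6

end Pool.Agent.TH91.RF
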