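import Pool.Agent.TH91.RF.Alg2

/-!
# Galois descent: a rational vector killed by all small quotients
-/

set_option autoImplicit false

namespace Pool.Agent.TH91.RF

open Finset Matrix

variable {ι : Type} {h : ℕ} {T : ι → Matrix (Fin h) (Fin h) ℤ} {e : ℕ}

theorem isAlgebraic_closure : Algebra.IsAlgebraic ℚ (AlgebraicClosure ℚ) := by
  convert! AlgebraicClosure.isAlgebraic ℚ

theorem isGalois_closure : IsGalois ℚ (AlgebraicClosure ℚ) := by
  have := isAlgebraic_closure
  have h1 : IsAlgClosure ℚ (AlgebraicClosure ℚ) := ⟨inferInstance, isAlgebraic_closure⟩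
  have h2 : Normal ℚ (AlgebraicClosure ℚ) := IsAlgClosure.normal ℚ _
  exact ⟨⟩

/-- the vectors killed by all small quotients -/
def Bad (T : ι → Matrix (Fin h) (Fin h) ℤ) (F : Type*) [Field F] (e : ℕ) (x : Fin h → F) : Prop :=
  ∀ P : Matrix (Fin e) (Fin h) F, Quo T F e P → P *ᵥ x = 0

theorem Bad.smul {F : Type*} [Field F] {x : Fin h → F} (hx : Bad T F e x) (c : F) :
    Bad T F e (c • x) := fun P hP => by rw [mulVec_smul, hx P hP, smul_zero]

theorem Bad.sub {F : Type*} [Field F] {x y : Fin h → F} (hx : Bad T F e x) (hy : Bad T F e y) :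
    Bad T F e (x - y) := fun P hP => by rw [mulVec_sub, hx P hP, hy P hP, sub_zero]

theorem Bad.galois {F : Type*} [Field F] [Algebra ℚ F] {x : Fin h → F} (hx : Bad T F e x)
    (σ : F ≃ₐ[ℚ] F) : Bad T F e (fun i => σ (x i)) := by
  intro P hP
  have h1 := hx (P.map σ.symm) (hP.map (σ.symm : F →+* F))
  ext t
  have h2 := congrArg σ (congrFun h1 t)
  simp only [mulVec, dotProduct, map_sum, map_mul, Matrix.map_apply, AlgEquiv.apply_symm_apply,
    Pi.zero_apply, map_zero] at h2 ⊢
  exact h2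

theorem exists_rational_bad (hF : ¬ Full T (AlgebraicClosure ℚ) e) :
    ∃ ζ : Fin h → ℤ, ζ ≠ 0 ∧ Bad T (AlgebraicClosure ℚ) e (fun i => (ζ i : AlgebraicClosure ℚ)) := by
  classical
  set F := AlgebraicClosure ℚ with hFdef
  have h1 : ∃ x : Fin h → F, x ≠ 0 ∧ Bad T F e x := by
    unfold Full at hF
    push Not at hF
    obtain ⟨x, hx, h⟩ := hF
    exact ⟨x, hx, h⟩
  -- minimal support
  have h2 : ∃ n : ℕ, ∃ x : Fin h → F, x ≠ 0 ∧ Bad T F e x ∧
      (univ.filter fun i => x i ≠ 0).card = n := by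
    obtain ⟨x, hx, hb⟩ := h1
    exact ⟨_, x, hx, hb, rfl⟩
  obtain ⟨x, hx0, hxb, hxn⟩ := Nat.find_spec h2
  have hmin := fun m hm => Nat.find_min h2 (m := m) hm
  obtain ⟨i₀, hi₀⟩ := Function.ne_iff.1 hx0
  rw [Pi.zero_apply] at hi₀
  set y : Fin h → F := (x i₀)⁻¹ • x with hy
  have hyb : Bad T F e y := hxb.smul _
  have hyi : y i₀ = 1 := by
    rw [hy, Pi.smul_apply, smul_eq_mul, inv_mul_cancel₀ hi₀]
  have hysupp : (univ.filter fun i => y i ≠ 0) = (univ.filter fun i => x i ≠ 0) := by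
    ext i
    simp [hy, hi₀]
  have hfix : ∀ σ : F ≃ₐ[ℚ] F, ∀ i, σ (y i) = y i := by
    intro σ
    by_contra hcon
    push Not at hcon
    obtain ⟨i₁, hi₁⟩ := hcon
    set z : Fin h → F := (fun i => σ (y i)) - y with hz
    have hzb : Bad T F e z := (hyb.galois σ).sub hyb
    have hz0 : z ≠ 0 := by
      intro h0
      have := congrFun h0 i₁
      rw [hz, Pi.sub_apply, Pi.zero_apply, sub_eq_zero] at this
      exact hi₁ this
    refine hmin _ ?_ ⟨z, hz0, hzb, rfl⟩
    rw [← hxn, ← hysupp]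
    refine Finset.card_lt_card ⟨?_, ?_⟩
    · intro i hi
      rw [mem_filter] at hi ⊢
      refine ⟨mem_univ _, fun h0 => hi.2 ?_⟩
      rw [hz, Pi.sub_apply, h0, map_zero, sub_zero]
    · intro hsub
      have h3 : i₀ ∈ univ.filter fun i => y i ≠ 0 := by
        rw [mem_filter, hyi]
        exact ⟨mem_univ _, one_ne_zero⟩
      have h4 := (mem_filter.1 (hsub h3)).2
      apply h4
      rw [hz, Pi.sub_apply, hyi, map_one, sub_self]
  have hrat : ∀ i, ∃ q : ℚ, algebraMap ℚ F q = y i := by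
    intro i
    have := isGalois_closure
    have := (InfiniteGalois.mem_range_algebraMap_iff_fixed (k := ℚ) (K := F) (y i)).2
      (fun σ => hfix σ i)
    exact this
  choose q hq using hrat
  set D : ℕ := ∏ i, (q i).den with hD
  have hD0 : D ≠ 0 := Finset.prod_ne_zero_iff.2 fun i _ => (q i).den_ne_zero
  have hint : ∀ i, ∃ n : ℤ, (n : ℚ) = (D : ℚ) * q i := by
    intro i
    obtain ⟨c, hc⟩ : (q i).den ∣ D := Finset.dvd_prod_of_mem (fun i => (q i).den) (mem_univ i)
    refine ⟨c * (q i).num, ?_⟩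
    rw [hc]
    push_cast
    rw [mul_comm ((q i).den : ℚ), mul_assoc, mul_comm ((q i).den : ℚ), Rat.mul_den_eq_num]
  choose n hn using hint
  have hcast : ∀ i, ((n i : ℤ) : F) = (D : F) * y i := by
    intro i
    have h5 := congrArg (algebraMap ℚ F) (hn i)
    rw [map_mul, hq] at h5
    simpa using h5
  refine ⟨n, ?_, ?_⟩
  · intro h0
    have h5 := hcast i₀
    rw [h0, hyi] at h5
    simp only [Pi.zero_apply, Int.cast_zero, mul_one] at h5
    exact hD0 (by exact_mod_cast h5.symm)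
  · have h6 : (fun i => ((n i : ℤ) : F)) = (D : F) • y := by
      ext i
      rw [hcast i]
      rfl
    rw [h6]
    exact hyb.smul _

/-- If the small invariant quotients do not separate over `ℂ`, then there is a nonzero integral
vector which is killed by all small invariant quotients over all fields of characteristic zero. -/
theorem exists_int_bad [Finite ι] (hF : ¬ Full T ℂ e) :
    ∃ ζ : Fin h → ℤ, ζ ≠ 0 ∧ ∀ (k : Type) [Field k] [CharZero k] (P : Matrix (Fin e) (Fin h) k),
      Quo T k e P → P *ᵥ (fun i => (ζ i : k)) = 0 := by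
  have h1 : ¬ Full T (AlgebraicClosure ℚ) e := by
    intro h
    apply hF
    have := isAlgebraic_closure
    exact (h.cert.map ((IsAlgClosed.lift : AlgebraicClosure ℚ →ₐ[ℚ] ℂ) :
      AlgebraicClosure ℚ →+* ℂ)).full
  obtain ⟨ζ, hζ, hb⟩ := exists_rational_bad h1
  refine ⟨ζ, hζ, ?_⟩
  intro k _ _ P hP
  by_contra hcon
  obtain ⟨P', hP', h2⟩ := sep_algClosure ζ P hP hcon
  exact h2 (hb P' hP')

end Pool.Agent.TH91.RF
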