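import Pool.Agent.TH91.RF.Bch

/-!
# The Baker-Campbell-Hausdorff series in filtered nilpotent algebras
-/

set_option autoImplicit false

namespace Pool.Agent.TH91.RF

open Finset Polynomial
open scoped Nat

/-- The constant by which brackets have to be divisible. -/
def bigM (N : ℕ) : ℕ := (N + 1).factorial * (N + 1).factorial

theorem bigM_pos (N : ℕ) : 0 < bigM N := Nat.mul_pos (Nat.factorial_pos _) (Nat.factorial_pos _)

namespace Filt

variable {A : Type*} [Ring A] [Algebra ℚ A] {N : ℕ} (Φ : Filt A N)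

/-- the filtration on polynomials, for which the coefficient of `X ^ n` also lies in `F n` -/
noncomputable def poly : Filt A[X] N where
  F k :=
    { carrier := {f | ∀ n, f.coeff n ∈ Φ.F (max k n)}
      add_mem' := by
        intro a b ha hb n
        rw [coeff_add]
        exact Submodule.add_mem _ (ha n) (hb n)
      zero_mem' := by
        intro n
        simp
      smul_mem' := by
        intro c x hx n
        rw [coeff_smul]
        exact Submodule.smul_mem _ _ (hx n) }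
  anti := by
    intro i j hij x hx n
    exact Φ.anti (by omega) (hx n)
  mul := by
    intro i j x y hx hy n
    rw [coeff_mul]
    refine Submodule.sum_mem _ fun ab hab => ?_
    rw [HasAntidiagonal.mem_antidiagonal] at hab
    exact Φ.anti (by omega) (Φ.mul (hx ab.1) (hy ab.2))
  bot := by
    intro x hx
    ext n
    rw [coeff_zero]
    exact Φ.eq_zero_of_le (k := max N n) (by omega) (hx n)

theorem mem_poly {k : ℕ} {f : A[X]} : f ∈ Φ.poly.F k ↔ ∀ n, f.coeff n ∈ Φ.F (max k n) := Iff.rfl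

theorem monomial_mem {x : A} (hx : x ∈ Φ.F 1) : (monomial 1 x : A[X]) ∈ Φ.poly.F 1 := by
  rw [mem_poly]
  intro n
  rw [coeff_monomial]
  split_ifs with h
  · subst h
    simpa using hx
  · exact Submodule.zero_mem _

theorem C_mem {x : A} (hx : x ∈ Φ.F 1) : (C x : A[X]) ∈ Φ.poly.F 1 := by
  rw [mem_poly]
  intro n
  rw [coeff_C]
  split_ifs with h
  · subst h
    simpa using hx
  · exact Submodule.zero_mem _

theorem derivative_mem {f : A[X]} (hf : f ∈ Φ.poly.F 1) : derivative f ∈ Φ.poly.F 1 := by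
  rw [mem_poly] at hf ⊢
  intro n
  rw [coeff_derivative]
  have h1 := hf (n + 1)
  have h2 : f.coeff (n + 1) * ((n : A) + 1) = ((n + 1 : ℕ) : ℚ) • f.coeff (n + 1) := by
    rw [Nat.cast_smul_eq_nsmul, nsmul_eq_mul, ← Nat.cast_succ, Nat.cast_comm]
  rw [h2]
  exact Submodule.smul_mem _ _ (Φ.anti (by omega) h1)

theorem derivative_exp_monomial {x : A} (hx : x ∈ Φ.F 1) :
    derivative (IsNilpotent.exp (monomial 1 x : A[X])) =
      IsNilpotent.exp (monomial 1 x : A[X]) * C x := by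
  have h := Φ.poly.deriv_exp (derivative : A[X] →ₗ[A] A[X]).toAddMonoidHom
    (fun f g => by simp [derivative_mul])
    (fun q f => by simp) (Φ.monomial_mem hx) (by
      simpa using Φ.derivative_mem (Φ.monomial_mem hx))
  simp only [LinearMap.toAddMonoidHom_coe] at h
  rw [h]
  congr 1
  have hd : derivative (monomial 1 x : A[X]) = C x := by
    rw [derivative_monomial]
    simp
  rw [hd, sum_eq_single_of_mem 0 (by simp)]
  · simp
  · intro k _ hk
    obtain ⟨k, rfl⟩ := Nat.exists_eq_succ_of_ne_zero hk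
    rw [Function.iterate_succ_apply]
    have : adr (monomial 1 x : A[X]) (C x) = 0 := by
      unfold adr
      rw [C_mul_monomial, monomial_mul_C, sub_self]
    rw [this]
    have h0 : ∀ k, (adr (monomial 1 x : A[X]))^[k] 0 = 0 := by
      intro k
      induction k with
      | zero => rfl
      | succ k ih => rw [Function.iterate_succ_apply', ih]; simp [adr]
    rw [h0, smul_zero]

omit [Algebra ℚ A] in
/-- the coefficients of iterated brackets -/
theorem coeff_adr {Z W : A[X]} (hZ0 : Z.coeff 0 = 0) (m : ℕ) :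
    (adr Z W).coeff m = ∑ p ∈ (HasAntidiagonal.antidiagonal m).filter (fun p => p.2 ≠ 0),
      (W.coeff p.1 * Z.coeff p.2 - Z.coeff p.2 * W.coeff p.1) := by
  unfold adr
  rw [coeff_sub, coeff_mul, coeff_mul,
    ← Finset.Nat.sum_antidiagonal_swap (f := fun p : ℕ × ℕ => Z.coeff p.1 * W.coeff p.2),
    ← sum_sub_distrib, sum_filter_of_ne]
  · rfl
  intro p _ hp h0
  apply hp
  rw [h0, hZ0]
  simp

theorem coeff_adr_iter {Z W : A[X]} (hZ0 : Z.coeff 0 = 0) (T J : AddSubgroup A) (M : ℚ)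
    (hJ : ∀ u ∈ T, ∀ v ∈ J, M⁻¹ • (u * v - v * u) ∈ J) (n : ℕ)
    (hZ : ∀ b, 1 ≤ b → b ≤ n → Z.coeff b ∈ T)
    (h1 : ∀ m ≤ n, M⁻¹ • (adr Z W).coeff m ∈ J) (k : ℕ) :
    ∀ m ≤ n, (M ^ (k + 1))⁻¹ • ((adr Z)^[k + 1] W).coeff m ∈ J := by
  induction k with
  | zero => simpa using h1
  | succ k ih =>
    intro m hm
    rw [Function.iterate_succ_apply', coeff_adr hZ0, smul_sum]
    refine AddSubgroup.sum_mem _ fun p hp => ?_
    rw [mem_filter, HasAntidiagonal.mem_antidiagonal] at hp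
    have h2 := ih p.1 (by omega)
    have h3 := hZ p.2 (by omega) (by omega)
    have h4 := J.neg_mem (hJ _ h3 _ h2)
    have e : (M ^ (k + 1 + 1))⁻¹ • (((adr Z)^[k + 1] W).coeff p.1 * Z.coeff p.2 -
        Z.coeff p.2 * ((adr Z)^[k + 1] W).coeff p.1) =
        -(M⁻¹ • (Z.coeff p.2 * ((M ^ (k + 1))⁻¹ • ((adr Z)^[k + 1] W).coeff p.1) -
          ((M ^ (k + 1))⁻¹ • ((adr Z)^[k + 1] W).coeff p.1) * Z.coeff p.2)) := by
      rw [mul_smul_comm, smul_mul_assoc, ← smul_sub, smul_smul, ← smul_neg, neg_sub, ← mul_inv,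
        ← pow_succ']
    rw [e]
    exact h4

theorem M_div (k n : ℕ) (hk : k + 1 ≤ N + 1) (hn : n + 1 ≤ N + 1) (j : ℕ) (hj : 1 ≤ j) :
    ∃ c : ℕ, ((k + 1).factorial : ℚ)⁻¹ * ((n + 1 : ℕ) : ℚ)⁻¹ = (c : ℚ) * ((bigM N : ℚ) ^ j)⁻¹ := by
  have h1 : (k + 1).factorial * (n + 1) ∣ bigM N ^ j := by
    refine Dvd.dvd.trans ?_ (dvd_pow_self _ (by omega : j ≠ 0))
    exact Nat.mul_dvd_mul (Nat.factorial_dvd_factorial hk)
      (Nat.dvd_factorial (by omega) hn)
  obtain ⟨c, hc⟩ := h1
  refine ⟨c, ?_⟩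
  have h2 : ((bigM N : ℚ)) ^ j = ((k + 1).factorial : ℚ) * ((n + 1 : ℕ) : ℚ) * c := by
    exact_mod_cast hc
  have h3 : ((bigM N : ℚ)) ^ j ≠ 0 := pow_ne_zero _ (by exact_mod_cast (bigM_pos N).ne')
  have h4 : ((k + 1).factorial : ℚ) ≠ 0 := by positivity
  have h5 : ((n + 1 : ℕ) : ℚ) ≠ 0 := by positivity
  have h6 : (c : ℚ) ≠ 0 := by
    intro h
    rw [h, mul_zero] at h2
    exact h3 h2
  rw [h2]
  field_simp

/-- **Baker-Campbell-Hausdorff**, with control on the homogeneous terms. -/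
theorem bch {x y : A} (hx : x ∈ Φ.F 1) (hy : y ∈ Φ.F 1) :
    ∃ Z : ℕ → A, Z 0 = 0 ∧ Z 1 = x + y ∧ (∀ n, Z n ∈ Φ.F (max 1 n)) ∧
      (∀ s : ℚ, IsNilpotent.exp (s • x) * IsNilpotent.exp (s • y) =
        IsNilpotent.exp (∑ n ∈ range (N + 1), s ^ n • Z n)) ∧
      (∀ T J : AddSubgroup A, x ∈ T → y ∈ T → J ≤ T →
        (∀ u ∈ T, ∀ v ∈ J, (bigM N : ℚ)⁻¹ • (u * v - v * u) ∈ J) →
        (bigM N : ℚ)⁻¹ • (x * y - y * x) ∈ J → ∀ n, 2 ≤ n → Z n ∈ J) := by
  set Ex : A[X] := IsNilpotent.exp (monomial 1 x) with hEx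
  set Ey : A[X] := IsNilpotent.exp (monomial 1 y) with hEy
  have hxm := Φ.monomial_mem hx
  have hym := Φ.monomial_mem hy
  obtain ⟨z, hz, hE⟩ := Φ.poly.exp_surj (w := Ex * Ey)
    (Φ.poly.one_add_mul_mem (Φ.poly.exp_sub_one_mem hxm) (Φ.poly.exp_sub_one_mem hym))
  have hzc := Φ.mem_poly.1 hz
  -- evaluation
  have hev : ∀ s : ℚ, IsNilpotent.exp (s • x) * IsNilpotent.exp (s • y) =
        IsNilpotent.exp (∑ n ∈ range (N + 1), s ^ n • z.coeff n) := by
    intro s
    have hcomm : ∀ a : A, Commute ((RingHom.id A) a) (algebraMap ℚ A s) := fun a =>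
      Algebra.commute_algebraMap_right s _
    set ev : A[X] →+* A := eval₂RingHom' (RingHom.id A) (algebraMap ℚ A s) hcomm with hevd
    have h1 : ∀ w : A, ev (monomial 1 w) = s • w := by
      intro w
      rw [hevd, eval₂RingHom'_apply, eval₂_monomial, pow_one, RingHom.id_apply, Algebra.smul_def]
      exact (Algebra.commutes s w).symm
    have h2 : ev z = ∑ n ∈ range (N + 1), s ^ n • z.coeff n := by
      rw [hevd, eval₂RingHom'_apply, eval₂_eq_sum_range' _ (n := N + 1)]
      · refine sum_congr rfl fun n _ => ?_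
        rw [← map_pow, RingHom.id_apply, Algebra.smul_def]
        exact (Algebra.commutes (s ^ n) _).symm
      · rw [Nat.lt_succ_iff, natDegree_le_iff_coeff_eq_zero]
        intro n hn
        exact Φ.eq_zero_of_le (k := max 1 n) (by omega) (hzc n)
    rw [← h1, ← h1, ← IsNilpotent.map_exp (Φ.poly.nilp hxm) ev,
      ← IsNilpotent.map_exp (Φ.poly.nilp hym) ev, ← map_mul, ← h2,
      ← IsNilpotent.map_exp (Φ.poly.nilp hz) ev, hE]
  have hz0 : z.coeff 0 = 0 := by
    have h1 := hev 0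
    have h2 : ∑ n ∈ range (N + 1), (0 : ℚ) ^ n • z.coeff n = z.coeff 0 := by
      rw [sum_eq_single_of_mem 0 (by simp)]
      · simp
      · intro n _ hn
        rw [zero_pow hn, zero_smul]
    rw [h2, zero_smul, zero_smul, IsNilpotent.exp_zero, one_mul] at h1
    refine (Φ.exp_inj (Submodule.zero_mem _) (by simpa using hzc 0) ?_).symm
    rw [IsNilpotent.exp_zero]
    exact h1
  -- the differential equation
  have hstar : ∑ k ∈ range (N + 1), ((k + 1).factorial : ℚ)⁻¹ • (adr z)^[k] (derivative z) =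
      C y + ∑ k ∈ range (N + 1), (k.factorial : ℚ)⁻¹ • (adr z)^[k] (C x) := by
    have h1 := Φ.poly.deriv_exp (derivative : A[X] →ₗ[A] A[X]).toAddMonoidHom
      (fun f g => by simp [derivative_mul])
      (fun q f => by simp) hz (by simpa using Φ.derivative_mem hz)
    simp only [LinearMap.toAddMonoidHom_coe] at h1
    have h2 : derivative (IsNilpotent.exp z) =
        IsNilpotent.exp z * (C y + ∑ k ∈ range (N + 1), (k.factorial : ℚ)⁻¹ • (adr z)^[k] (C x)) := by
      rw [mul_add, ← Φ.poly.mul_exp hz (Φ.C_mem hx), hE, derivative_mul, hEx, hEy,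
        Φ.derivative_exp_monomial hx, Φ.derivative_exp_monomial hy]
      have hc : Commute (C x : A[X]) (monomial 1 x) := by
        unfold Commute SemiconjBy
        rw [C_mul_monomial, monomial_mul_C]
      have hc2 : Commute (C x : A[X]) (IsNilpotent.exp (monomial 1 x : A[X])) := by
        rw [Φ.poly.exp_eq hxm]
        exact Commute.sum_right _ _ _ fun i _ => (hc.pow_right i).smul_right _
      rw [← hc2.eq]
      simp only [mul_assoc]
      rw [add_comm]
    rw [h1] at h2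
    exact (IsNilpotent.isUnit_exp (Φ.poly.nilp hz)).mul_left_cancel h2
  have hrec : ∀ n, ((n + 1 : ℕ) : ℚ) • z.coeff (n + 1) +
      ∑ k ∈ range N, ((k + 2).factorial : ℚ)⁻¹ • ((adr z)^[k + 1] (derivative z)).coeff n =
      (C y + C x).coeff n +
      ∑ k ∈ range N, ((k + 1).factorial : ℚ)⁻¹ • ((adr z)^[k + 1] (C x)).coeff n := by
    intro n
    have h1 := congrArg (fun f : A[X] => f.coeff n) hstar
    simp only [coeff_add, finsetSum_coeff, coeff_smul] at h1
    rw [sum_range_succ', sum_range_succ' (fun k => (k.factorial : ℚ)⁻¹ • _)] at h1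
    simp only [Function.iterate_zero, id_eq, zero_add, Nat.factorial_one, Nat.factorial_zero,
      Nat.cast_one, inv_one, one_smul, coeff_derivative] at h1
    have h2 : z.coeff (n + 1) * ((n : A) + 1) = ((n + 1 : ℕ) : ℚ) • z.coeff (n + 1) := by
      rw [Nat.cast_smul_eq_nsmul, nsmul_eq_mul, ← Nat.cast_succ, Nat.cast_comm]
    rw [h2] at h1
    rw [coeff_add, add_comm, h1]
    abel
  have hz1 : z.coeff 1 = x + y := by
    have h1 := hrec 0
    have h2 : ∀ (W : A[X]) k, ((adr z)^[k + 1] W).coeff 0 = 0 := by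
      intro W k
      rw [Function.iterate_succ_apply', coeff_adr hz0]
      refine sum_eq_zero fun p hp => ?_
      rw [mem_filter, HasAntidiagonal.mem_antidiagonal] at hp
      omega
    simp only [h2, smul_zero, sum_const_zero, add_zero, coeff_add, coeff_C_zero] at h1
    rw [add_comm x y, ← h1]
    simp
  refine ⟨z.coeff, hz0, hz1, hzc, hev, ?_⟩
  intro T J hxT hyT hJT hJ hxy n hn
  induction n using Nat.strong_induction_on with
  | _ n ih =>
  obtain ⟨n, rfl⟩ := Nat.exists_eq_succ_of_ne_zero (by omega : n ≠ 0)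
  rw [Nat.succ_eq_add_one] at hn ih ⊢
  by_cases hnN : N < n + 1
  · rw [Φ.eq_zero_of_le (k := max 1 (n + 1)) (by omega) (hzc (n + 1))]
    exact J.zero_mem
  push Not at hnN
  have hZT : ∀ b, 1 ≤ b → b ≤ n → z.coeff b ∈ T := by
    intro b hb hbn
    rcases Nat.lt_or_ge b 2 with h | h
    · rw [show b = 1 by omega, hz1]
      exact T.add_mem hxT hyT
    · exact hJT (ih b (by omega) h)
  have hA1 : ∀ m ≤ n, (bigM N : ℚ)⁻¹ • (adr z (C x)).coeff m ∈ J := by
    intro m hm
    rw [coeff_adr hz0, smul_sum]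
    refine AddSubgroup.sum_mem _ fun p hp => ?_
    rw [mem_filter, HasAntidiagonal.mem_antidiagonal] at hp
    rw [coeff_C]
    split_ifs with h0
    · rcases Nat.lt_or_ge p.2 2 with h | h
      · rw [show p.2 = 1 by omega, hz1]
        have e : x * (x + y) - (x + y) * x = x * y - y * x := by noncomm_ring
        rw [e]
        exact hxy
      · exact hJ _ hxT _ (ih p.2 (by omega) h)
    · simp
  have hA2 : ∀ m ≤ n, (bigM N : ℚ)⁻¹ • (adr z (derivative z)).coeff m ∈ J := by
    intro m hm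
    rw [coeff_adr hz0, smul_sum]
    refine AddSubgroup.sum_mem _ fun p hp => ?_
    rw [mem_filter, HasAntidiagonal.mem_antidiagonal] at hp
    have h2 : (derivative z).coeff p.1 = ((p.1 + 1 : ℕ) : ℚ) • z.coeff (p.1 + 1) := by
      rw [coeff_derivative, Nat.cast_smul_eq_nsmul, nsmul_eq_mul, ← Nat.cast_succ, Nat.cast_comm]
    rw [h2, smul_mul_assoc, mul_smul_comm, ← smul_sub, smul_comm, Nat.cast_smul_eq_nsmul]
    refine J.nsmul_mem ?_ _
    rcases Nat.eq_zero_or_pos p.1 with h0 | h0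
    · rw [h0, zero_add]
      rcases Nat.lt_or_ge p.2 2 with h | h
      · rw [show p.2 = 1 by omega, sub_self, smul_zero]
        exact J.zero_mem
      · exact hJ _ (hZT 1 le_rfl (by omega)) _ (ih p.2 (by omega) h)
    · have h3 := hJ _ (hZT p.2 (by omega) (by omega)) _ (ih (p.1 + 1) (by omega) (by omega))
      have h4 := J.neg_mem h3
      rwa [← smul_neg, neg_sub] at h4
  have hB1 := fun k => coeff_adr_iter hz0 T J _ hJ n hZT hA1 k n le_rfl
  have hB2 := fun k => coeff_adr_iter hz0 T J _ hJ n hZT hA2 k n le_rfl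
  have h1 := hrec n
  have h2 : (C y + C x : A[X]).coeff n = 0 := by
    rw [coeff_add, coeff_C, coeff_C, if_neg (by omega), if_neg (by omega), add_zero]
  rw [h2, zero_add] at h1
  have hn0 : ((n + 1 : ℕ) : ℚ) ≠ 0 := by positivity
  have h3 : z.coeff (n + 1) = ((n + 1 : ℕ) : ℚ)⁻¹ •
      (∑ k ∈ range N, ((k + 1).factorial : ℚ)⁻¹ • ((adr z)^[k + 1] (C x)).coeff n -
       ∑ k ∈ range N, ((k + 2).factorial : ℚ)⁻¹ • ((adr z)^[k + 1] (derivative z)).coeff n) := by
    rw [← h1, add_sub_cancel_right, inv_smul_smul₀ hn0]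
  rw [h3, smul_sub, smul_sum, smul_sum]
  refine J.sub_mem (J.sum_mem fun k hk => ?_) (J.sum_mem fun k hk => ?_)
  · rw [mem_range] at hk
    obtain ⟨c, hc⟩ := M_div (N := N) k n (by omega) (by omega) (k + 1) (by omega)
    rw [smul_smul, mul_comm, hc, mul_smul, Nat.cast_smul_eq_nsmul]
    exact J.nsmul_mem (hB1 k) _
  · rw [mem_range] at hk
    obtain ⟨c, hc⟩ := M_div (N := N) (k + 1) n (by omega) (by omega) (k + 1) (by omega)
    rw [smul_smul, mul_comm, hc, mul_smul, Nat.cast_smul_eq_nsmul]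
    exact J.nsmul_mem (hB2 k) _

end Filt

end Pool.Agent.TH91.RF
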