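import Pool.Agent.TH91.RF.Ultra2

/-!
# Composition series of finite abelian `p`-groups
-/

set_option autoImplicit false

namespace Pool.Agent.TH91.RF

open Finset

theorem exists_comp (p : ℕ) [hp : Fact p.Prime] (e : ℕ) :
    ∀ (M : Type) [AddCommGroup M] [Finite M], (∀ x : M, ∃ n : ℕ, p ^ n • x = 0) →
      Nat.card M ≤ p ^ e → ∃ v : Fin e → M,
        (∀ i, ∃ c : Fin e → ℤ, (∀ j, i ≤ j → c j = 0) ∧ (p : ℤ) • v i = ∑ j, c j • v j) ∧
        (∀ x, ∃ c : Fin e → ℤ, x = ∑ j, c j • v j) := by
  induction e with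
  | zero =>
    intro M _ _ hM hcard
    have h1 : Subsingleton M := by
      rw [pow_zero] at hcard
      exact (Finite.card_le_one_iff_subsingleton).1 hcard
    refine ⟨Fin.elim0, fun i => i.elim0, fun x => ⟨0, Subsingleton.elim _ _⟩⟩
  | succ e ih =>
    intro M _ _ hM hcard
    rcases subsingleton_or_nontrivial M with hs | hn
    · exact ⟨0, fun i => ⟨0, fun _ _ => rfl, Subsingleton.elim _ _⟩,
        fun x => ⟨0, Subsingleton.elim _ _⟩⟩
    obtain ⟨x, hx⟩ := exists_ne (0 : M)
    classical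
    have hfind := Nat.find_spec (hM x)
    have hmin := fun m hm => Nat.find_min (hM x) (m := m) hm
    set n := Nat.find (hM x) with hn
    have hn0 : n ≠ 0 := by
      intro h0
      rw [h0] at hfind
      simp at hfind
      exact hx hfind
    set y : M := p ^ (n - 1) • x with hy
    have hy0 : y ≠ 0 := hmin (n - 1) (by omega)
    have hpy : p • y = 0 := by
      rw [hy, smul_smul, ← pow_succ', show n - 1 + 1 = n by omega]
      exact hfind
    have hord : addOrderOf y = p := addOrderOf_eq_prime hpy hy0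
    set Y := AddSubgroup.zmultiples y with hY
    have hcardY : Nat.card Y = p := by
      rw [hY, Nat.card_zmultiples, hord]
    have hcardQ : Nat.card (M ⧸ Y) ≤ p ^ e := by
      have h1 := AddSubgroup.card_eq_card_quotient_mul_card_addSubgroup Y
      rw [hcardY] at h1
      rw [h1, pow_succ] at hcard
      exact Nat.le_of_mul_le_mul_right hcard hp.out.pos
    obtain ⟨v', hv1, hv2⟩ := ih (M ⧸ Y) (by
      intro z
      obtain ⟨z, rfl⟩ := QuotientAddGroup.mk_surjective z
      obtain ⟨m, hm⟩ := hM z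
      refine ⟨m, ?_⟩
      rw [← QuotientAddGroup.mk_nsmul, hm]
      rfl) hcardQ
    have hlift : ∀ i, ∃ w : M, (QuotientAddGroup.mk w : M ⧸ Y) = v' i := fun i =>
      QuotientAddGroup.mk_surjective (v' i)
    choose w hw using hlift
    have hsumq : ∀ c : Fin e → ℤ, ∑ j, c j • v' j =
        (QuotientAddGroup.mk (∑ j, c j • w j) : M ⧸ Y) := by
      intro c
      have := map_sum (QuotientAddGroup.mk' Y) (fun j => c j • w j) univ
      rw [QuotientAddGroup.mk'_apply] at this
      rw [this]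
      refine sum_congr rfl fun j _ => ?_
      rw [map_zsmul, QuotientAddGroup.mk'_apply, hw]
    refine ⟨Fin.cons y w, ?_, ?_⟩
    · intro i
      refine Fin.cases ?_ (fun i => ?_) i
      · refine ⟨0, fun _ _ => rfl, ?_⟩
        simp [hpy]
      · obtain ⟨c, hc0, hc⟩ := hv1 i
        rw [hsumq, ← hw, ← QuotientAddGroup.mk_zsmul, QuotientAddGroup.eq] at hc
        obtain ⟨a, ha⟩ := AddSubgroup.mem_zmultiples_iff.1 hc
        refine ⟨Fin.cons (-a) c, ?_, ?_⟩
        · intro j hj
          refine Fin.cases ?_ (fun j => ?_) j hj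
          · intro hj
            exact absurd hj (by simp)
          · intro hj
            rw [Fin.cons_succ]
            exact hc0 j (by simpa using hj)
        · rw [Fin.sum_univ_succ]
          simp only [Fin.cons_zero, Fin.cons_succ]
          rw [neg_smul, ha]
          abel
    · intro z
      obtain ⟨c, hc⟩ := hv2 (QuotientAddGroup.mk z)
      rw [hsumq, QuotientAddGroup.eq] at hc
      obtain ⟨a, ha⟩ := AddSubgroup.mem_zmultiples_iff.1 hc
      refine ⟨Fin.cons (-a) c, ?_⟩
      rw [Fin.sum_univ_succ]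
      simp only [Fin.cons_zero, Fin.cons_succ]
      rw [neg_smul, ha]
      abel

theorem compData_of_card (p : ℕ) [hp : Fact p.Prime] (e h : ℕ) (J : AddSubgroup (Fin h → ℤ))
    (hJ : ∀ x, (p : ℤ) ^ e • x ∈ J) (hfin : Finite ((Fin h → ℤ) ⧸ J))
    (hcard : Nat.card ((Fin h → ℤ) ⧸ J) ≤ p ^ e) : CompData p e h J := by
  obtain ⟨v', hv1, hv2⟩ := exists_comp p e ((Fin h → ℤ) ⧸ J) (by
      intro z
      obtain ⟨z, rfl⟩ := QuotientAddGroup.mk_surjective z
      refine ⟨e, ?_⟩
      rw [← QuotientAddGroup.mk_nsmul, QuotientAddGroup.eq_zero_iff]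
      have := hJ z
      rw [← Nat.cast_pow, natCast_zsmul] at this
      exact this) hcard
  have hlift : ∀ i, ∃ w, (QuotientAddGroup.mk w : (Fin h → ℤ) ⧸ J) = v' i := fun i =>
      QuotientAddGroup.mk_surjective (v' i)
  choose w hw using hlift
  have hsumq : ∀ c : Fin e → ℤ, ∑ j, c j • v' j =
      (QuotientAddGroup.mk (∑ j, c j • w j) : (Fin h → ℤ) ⧸ J) := by
    intro c
    have := map_sum (QuotientAddGroup.mk' J) (fun j => c j • w j) univ
    rw [QuotientAddGroup.mk'_apply] at this
    rw [this]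
    refine sum_congr rfl fun j _ => ?_
    rw [map_zsmul, QuotientAddGroup.mk'_apply, hw]
  refine ⟨hJ, w, ?_, ?_⟩
  · intro i
    obtain ⟨c, hc0, hc⟩ := hv1 i
    refine ⟨c, hc0, ?_⟩
    rw [hsumq, ← hw, ← QuotientAddGroup.mk_zsmul, eq_comm, QuotientAddGroup.eq] at hc
    rwa [neg_add_eq_sub] at hc
  · intro x
    obtain ⟨c, hc⟩ := hv2 (QuotientAddGroup.mk x)
    refine ⟨c, ?_⟩
    rw [hsumq, eq_comm, QuotientAddGroup.eq] at hc
    rwa [neg_add_eq_sub] at hc

end Pool.Agent.TH91.RF
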