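import Mathlib

/-!
# Residual finiteness growth and rational Mal'cev completions
-/

set_option autoImplicit false

namespace Pool.Agent.TH91.RF

/-- Word length of `g` with respect to `S` and the inverses of its elements. -/
noncomputable def wordLen {G : Type*} [Group G] (S : Set G) (g : G) : ℕ :=
  sInf {n : ℕ | ∃ l : List G, l.length = n ∧ (∀ s ∈ l, s ∈ S ∨ s⁻¹ ∈ S) ∧ l.prod = g}

/-- The depth `D(g)`: the least index of a normal subgroup of finite index not containing `g`. -/
noncomputable def depth {G : Type*} [Group G] (g : G) : ℕ :=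
  sInf {m : ℕ | ∃ K : Subgroup G, K.Normal ∧ K.FiniteIndex ∧ g ∉ K ∧ K.index = m}

/-- The residual finiteness growth: the maximum of the depths `D(g)` over all `g ≠ 1` of word
length at most `n` (and `0` if there is no such `g`). -/
noncomputable def rfGrowth {G : Type*} [Group G] (S : Set G) (n : ℕ) : ℕ :=
  sSup {m : ℕ | ∃ g : G, g ≠ 1 ∧ wordLen S g ≤ n ∧ depth g = m}

/-- `f ⪯ h`: there is `C > 0` with `f n ≤ C * h (C * n)` for all `n`. -/
def Dominated (f h : ℕ → ℕ) : Prop := ∃ C : ℕ, 0 < C ∧ ∀ n : ℕ, f n ≤ C * h (C * n)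

/-- `f ≈ h` -/
def GrowthEquiv (f h : ℕ → ℕ) : Prop := Dominated f h ∧ Dominated h f

attribute [local instance 100] LieRing.ofAssociativeRing

/-- A rational Mal'cev completion of `G`, in exponential form: a rational Lie algebra `L` of
strictly upper triangular matrices, and an embedding `ρ` of `G` in the unipotent group
`exp L`, such that every element of `exp L` has a positive power in `ρ G`. -/
structure MalcevCompletion (G : Type*) [Group G] where
  /-- the size of the matrices -/
  N : ℕ
  /-- the rational Lie algebra -/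
  L : LieSubalgebra ℚ (Matrix (Fin N) (Fin N) ℚ)
  upper : ∀ X ∈ L, ∀ i j : Fin N, j ≤ i → X i j = 0
  /-- the embedding -/
  ρ : G →* Matrix (Fin N) (Fin N) ℚ
  injective : Function.Injective ρ
  exp_mem : ∀ g : G, ∃ X ∈ L, ρ g = IsNilpotent.exp X
  dense : ∀ X ∈ L, ∃ m : ℕ, 0 < m ∧ ∃ g : G, ρ g = IsNilpotent.exp (m • X)

/-- The rational Lie algebra of a Mal'cev completion, as a type. -/
def MalcevCompletion.QLie {G : Type*} [Group G] (c : MalcevCompletion G) : Type := c.L

noncomputable instance {G : Type*} [Group G] (c : MalcevCompletion G) : LieRing c.QLie :=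
  LieSubalgebra.lieRing ℚ _ c.L

noncomputable instance {G : Type*} [Group G] (c : MalcevCompletion G) : LieAlgebra ℚ c.QLie :=
  LieSubalgebra.lieAlgebra ℚ _ c.L

/-- The complexified Lie algebra of a Mal'cev completion. -/
def MalcevCompletion.CLie {G : Type*} [Group G] (c : MalcevCompletion G) : Type :=
  TensorProduct ℚ ℂ c.QLie

noncomputable instance {G : Type*} [Group G] (c : MalcevCompletion G) : LieRing c.CLie :=
  LieAlgebra.ExtendScalars.instLieRing ℚ ℂ c.QLie

noncomputable instance {G : Type*} [Group G] (c : MalcevCompletion G) : LieAlgebra ℂ c.CLie :=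
  LieAlgebra.ExtendScalars.instLieAlgebra ℚ ℂ c.QLie

end Pool.Agent.TH91.RF
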