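import Pool.Agent.TH91.RF.Core

/-!
# Lattices in nilpotent Lie algebras and commensurable groups
-/

set_option autoImplicit false

namespace Pool.Agent.TH91.RF

open Finset
open scoped Nat

/-- multiples of a lattice -/
def scl {A : Type*} [AddCommGroup A] (q : ℕ) (Λ : AddSubgroup A) : AddSubgroup A :=
  Λ.map (zsmulAddGroupHom (q : ℤ))

theorem mem_scl {A : Type*} [AddCommGroup A] {q : ℕ} {Λ : AddSubgroup A} {x : A} :
    x ∈ scl q Λ ↔ ∃ y ∈ Λ, q • y = x := by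
  unfold scl
  rw [AddSubgroup.mem_map]
  simp

/-- localization of a lattice at `p` -/
def loc {A : Type*} [AddCommGroup A] (p : ℕ) [hp : Fact p.Prime] (Λ : AddSubgroup A) :
    AddSubgroup A where
  carrier := {x | ∃ m : ℕ, ¬ p ∣ m ∧ m • x ∈ Λ}
  add_mem' := by
    rintro a b ⟨m, hm, ha⟩ ⟨n, hn, hb⟩
    refine ⟨m * n, ?_, ?_⟩
    · rw [hp.out.dvd_mul]
      tauto
    · rw [smul_add]
      refine Λ.add_mem ?_ ?_
      · rw [mul_comm, mul_smul]
        exact Λ.nsmul_mem ha _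
      · rw [mul_smul]
        exact Λ.nsmul_mem hb _
  zero_mem' := ⟨1, by simpa using hp.out.one_lt.ne', by simp⟩
  neg_mem' := by
    rintro a ⟨m, hm, ha⟩
    exact ⟨m, hm, by rw [smul_neg]; exact Λ.neg_mem ha⟩

theorem mem_loc {A : Type*} [AddCommGroup A] {p : ℕ} [hp : Fact p.Prime] {Λ : AddSubgroup A}
    {x : A} : x ∈ loc p Λ ↔ ∃ m : ℕ, ¬ p ∣ m ∧ m • x ∈ Λ := Iff.rfl

variable {A : Type*} [Ring A] [Algebra ℚ A] {N : ℕ}

/-- A Lie ring of elements of positive filtration. -/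
structure LieRg (Φ : Filt A N) (Λ : AddSubgroup A) : Prop where
  le : ∀ x ∈ Λ, x ∈ Φ.F 1
  br : ∀ u ∈ Λ, ∀ v ∈ Λ, u * v - v * u ∈ Λ

theorem bigM_ne (N : ℕ) : (bigM N : ℚ) ≠ 0 := by exact_mod_cast (bigM_pos N).ne'

theorem scl_br {x y : A} {q q' c : ℕ} (h : q = bigM N * c) :
    (bigM N : ℚ)⁻¹ • ((q • x) * (q' • y) - (q' • y) * (q • x)) = (c * q') • (x * y - y * x) := by
  have e : (q • x) * (q' • y) - (q' • y) * (q • x) = ((bigM N * (c * q') : ℕ)) • (x * y - y * x) := by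
    rw [smul_mul_smul_comm, smul_mul_smul_comm, mul_comm q' q, ← smul_sub, h, mul_assoc]
  rw [e, mul_smul, ← Nat.cast_smul_eq_nsmul ℚ (bigM N), inv_smul_smul₀ (bigM_ne N)]

theorem LieRg.scl {Φ : Filt A N} {Λ : AddSubgroup A} (h : LieRg Φ Λ) {q : ℕ} (hq : bigM N ∣ q) :
    LieLat Φ (scl q Λ) := by
  obtain ⟨c, hc⟩ := hq
  refine ⟨?_, ?_⟩
  · intro x hx
    obtain ⟨y, hy, rfl⟩ := mem_scl.1 hx
    exact (Φ.F 1).nsmul_mem (h.le y hy) q
  · intro u hu v hv
    obtain ⟨x, hx, rfl⟩ := mem_scl.1 hu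
    obtain ⟨y, hy, rfl⟩ := mem_scl.1 hv
    rw [scl_br hc]
    refine mem_scl.2 ⟨c • (x * y - y * x), Λ.nsmul_mem (h.br x hx y hy) _, ?_⟩
    rw [smul_smul, mul_comm]

theorem not_dvd_bigM {N p : ℕ} (hp : p.Prime) (hpN : N + 1 < p) : ¬ p ∣ bigM N := by
  unfold bigM
  intro h
  rcases (Nat.Prime.dvd_mul hp).1 h with h | h
  all_goals
    have := (Nat.Prime.dvd_factorial hp).1 h
    omega

theorem loc_br {Λ J : AddSubgroup A} {p : ℕ} [hp : Fact p.Prime] (hpN : N + 1 < p)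
    (h : ∀ u ∈ Λ, ∀ v ∈ J, u * v - v * u ∈ J) :
    ∀ u ∈ loc p Λ, ∀ v ∈ loc p J, (bigM N : ℚ)⁻¹ • (u * v - v * u) ∈ loc p J := by
  rintro u ⟨m, hm, hu⟩ v ⟨n, hn, hv⟩
  refine ⟨bigM N * (m * n), ?_, ?_⟩
  · rw [hp.out.dvd_mul, hp.out.dvd_mul]
    have := not_dvd_bigM hp.out hpN
    tauto
  · have e : (bigM N * (m * n)) • ((bigM N : ℚ)⁻¹ • (u * v - v * u)) =
        (m • u) * (n • v) - (n • v) * (m • u) := by
      rw [mul_comm (bigM N), mul_smul (m * n), ← Nat.cast_smul_eq_nsmul ℚ (bigM N),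
        smul_inv_smul₀ (bigM_ne N), smul_mul_smul_comm, smul_mul_smul_comm, mul_comm n m, smul_sub]
    rw [e]
    exact h _ hu _ hv

theorem LieRg.loc {Φ : Filt A N} {Λ : AddSubgroup A} (h : LieRg Φ Λ) {p : ℕ} [hp : Fact p.Prime]
    (hpN : N + 1 < p) : LieLat Φ (loc p Λ) := by
  refine ⟨?_, loc_br hpN h.br⟩
  rintro x ⟨m, hm, hx⟩
  have hm0 : (m : ℚ) ≠ 0 := by
    intro h0
    apply hm
    rw [Nat.cast_eq_zero.1 h0]
    exact dvd_zero p
  have h1 := Submodule.smul_mem (Φ.F 1) (m : ℚ)⁻¹ (h.le _ hx)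
  rwa [← Nat.cast_smul_eq_nsmul ℚ m, inv_smul_smul₀ hm0] at h1

theorem loc_idl {Λ J : AddSubgroup A} {p : ℕ} [hp : Fact p.Prime] (hpN : N + 1 < p) (hJ : J ≤ Λ)
    (h : ∀ u ∈ Λ, ∀ v ∈ J, u * v - v * u ∈ J) : LieIdl N (loc p Λ) (loc p J) := by
  refine ⟨?_, loc_br hpN h⟩
  rintro x ⟨m, hm, hx⟩
  exact ⟨m, hm, hJ hx⟩

/-! ### The group -/

variable {G : Type*} [Group G]

theorem exp_nsmul {Φ : Filt A N} {x : A} (hx : x ∈ Φ.F 1) (n : ℕ) :
    IsNilpotent.exp (n • x) = IsNilpotent.exp x ^ n := by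
  induction n with
  | zero => simp
  | succ n ih =>
    rw [succ_nsmul, IsNilpotent.exp_add_of_commute ((Commute.refl x).smul_left n)
      (Φ.nilp ((Φ.F 1).nsmul_mem hx n)) (Φ.nilp hx), ih, pow_succ]

theorem rho_inv {Φ : Filt A N} (ρ : G →* A) {g : G} {x : A} (hx : x ∈ Φ.F 1)
    (h : ρ g = IsNilpotent.exp x) : ρ g⁻¹ = IsNilpotent.exp (-x) := by
  have h1 : ρ g⁻¹ * ρ g = 1 := by rw [← map_mul]; simp
  have h2 : IsNilpotent.exp x * IsNilpotent.exp (-x) = 1 :=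
    IsNilpotent.exp_mul_exp_neg_self (Φ.nilp hx)
  rw [h] at h1
  calc ρ g⁻¹ = ρ g⁻¹ * (IsNilpotent.exp x * IsNilpotent.exp (-x)) := by rw [h2, mul_one]
    _ = IsNilpotent.exp (-x) := by rw [← mul_assoc, h1, one_mul]

theorem rho_zpow {Φ : Filt A N} (ρ : G →* A) {g : G} {x : A} (hx : x ∈ Φ.F 1)
    (h : ρ g = IsNilpotent.exp x) (n : ℤ) : ρ (g ^ n) = IsNilpotent.exp (n • x) := by
  rcases n with n | n
  · rw [Int.ofNat_eq_natCast, zpow_natCast, map_pow, h, natCast_zsmul, exp_nsmul hx]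
  · rw [zpow_negSucc, negSucc_zsmul]
    refine rho_inv (Φ := Φ) ρ ((Φ.F 1).nsmul_mem hx _) ?_
    rw [map_pow, h, exp_nsmul hx]

/-- **Uniform commensurability** -/
theorem exists_uniform (Φ : Filt A N) {Λ : AddSubgroup A} (hΛ : LieRg Φ Λ)
    (hfg : (AddSubgroup.toIntSubmodule Λ).FG) (ρ : G →* A)
    (h : ∀ x ∈ Λ, ∃ m : ℕ, 0 < m ∧ ∃ g, ρ g = IsNilpotent.exp (m • x)) :
    ∃ q : ℕ, 0 < q ∧ ∀ x ∈ Λ, ∃ g, ρ g = IsNilpotent.exp (q • x) := by
  have key : ∀ j k : ℕ, N ≤ k + j → 1 ≤ k →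
      ∃ q : ℕ, 0 < q ∧ ∀ x ∈ Λ, x ∈ Φ.F k → ∃ g, ρ g = IsNilpotent.exp (q • x) := by
    intro j
    induction j with
    | zero =>
      intro k hk hk1
      refine ⟨1, one_pos, fun x _ hx => ⟨1, ?_⟩⟩
      rw [Φ.eq_zero_of_le hk hx]
      simp
    | succ j ih =>
      intro k hk hk1
      obtain ⟨q', hq', ihq⟩ := ih (k + 1) (by omega) (by omega)
      have : IsNoetherian ℤ (AddSubgroup.toIntSubmodule Λ) := isNoetherian_of_fg_of_noetherian _ hfg
      set Λk : AddSubgroup A := Λ ⊓ (Φ.F k).toAddSubgroup with hΛk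
      have hfgk : (AddSubgroup.toIntSubmodule Λk).FG := by
        refine (isNoetherian_submodule.1 this) _ ?_
        intro x hx
        exact hx.1
      obtain ⟨s, hs⟩ := hfgk
      have hsk : ∀ y ∈ s, y ∈ Λk := by
        intro y hy
        have : y ∈ Submodule.span ℤ (s : Set A) := Submodule.subset_span hy
        rw [hs] at this
        exact this
      have h1 : ∀ y : A, ∃ m : ℕ, 0 < m ∧ (y ∈ s → ∃ g, ρ g = IsNilpotent.exp (m • y)) := by
        intro y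
        by_cases hy : y ∈ s
        · obtain ⟨m, hm, hg⟩ := h y (hsk y hy).1
          exact ⟨m, hm, fun _ => hg⟩
        · exact ⟨1, one_pos, fun h => absurd h hy⟩
      choose f hf0 hf using h1
      set m := ∏ y ∈ s, f y with hm
      have hm0 : 0 < m := Finset.prod_pos fun y _ => hf0 y
      set q := bigM N * (m * q') with hq
      have hq0 : 0 < q := Nat.mul_pos (bigM_pos N) (Nat.mul_pos hm0 hq')
      set T := scl q Λk with hT
      set J := scl (q * q') (Λ ⊓ (Φ.F (k + 1)).toAddSubgroup) with hJ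
      have hJT' : ∀ c c' : ℕ, ∀ x ∈ Λk, ∀ y ∈ Λk, c' • (x * y - y * x) ∈
          Λ ⊓ (Φ.F (k + 1)).toAddSubgroup := by
        intro c c' x hx y hy
        refine AddSubgroup.nsmul_mem _ (AddSubgroup.mem_inf.2 ⟨hΛ.br x hx.1 y hy.1, ?_⟩) _
        refine Submodule.sub_mem _ ?_ ?_
        · exact Φ.anti (by omega) (Φ.mul hx.2 hy.2)
        · exact Φ.anti (by omega) (Φ.mul hy.2 hx.2)
      have hTJ : ∀ u ∈ T, ∀ v ∈ T, (bigM N : ℚ)⁻¹ • (u * v - v * u) ∈ J := by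
        intro u hu v hv
        obtain ⟨x, hx, rfl⟩ := mem_scl.1 hu
        obtain ⟨y, hy, rfl⟩ := mem_scl.1 hv
        rw [scl_br hq]
        refine mem_scl.2 ⟨m • (x * y - y * x), hJT' 0 m x hx y hy, ?_⟩
        rw [smul_smul]
        congr 1
        ring
      have hJleT : J ≤ T := by
        intro x hx
        obtain ⟨y, hy, rfl⟩ := mem_scl.1 hx
        refine mem_scl.2 ⟨q' • y, AddSubgroup.nsmul_mem _
          (AddSubgroup.mem_inf.2 ⟨hy.1, Φ.anti (by omega) hy.2⟩) _, ?_⟩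
        rw [smul_smul]
      have hTL : LieLat Φ T := by
        refine ⟨?_, fun u hu v hv => hJleT (hTJ u hu v hv)⟩
        intro x hx
        obtain ⟨y, hy, rfl⟩ := mem_scl.1 hx
        exact (Φ.F 1).nsmul_mem (hΛ.le y hy.1) q
      have hJI : LieIdl N T J := by
        refine ⟨hJleT, ?_⟩
        intro u hu v hv
        exact hTJ u hu v (hJleT hv)
      have hJρ : ∀ j ∈ J, ∃ g, ρ g = IsNilpotent.exp j := by
        intro j hj
        obtain ⟨y, hy, rfl⟩ := mem_scl.1 hj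
        rw [mul_comm, mul_smul]
        exact ihq _ (Λ.nsmul_mem hy.1 _) ((Φ.F (k + 1)).nsmul_mem hy.2 _)
      let S : AddSubgroup A :=
        { carrier := {x | x ∈ T ∧ ∃ g, ρ g = IsNilpotent.exp x}
          add_mem' := by
            rintro a b ⟨ha, g, hg⟩ ⟨hb, g', hg'⟩
            refine ⟨T.add_mem ha hb, ?_⟩
            obtain ⟨j, hj, h1⟩ := hTL.exp_mul_add hJI ha hb (hTJ a ha b hb)
            obtain ⟨j', hj', h2⟩ := hTL.exp_coset hJI
              (T.add_mem (T.add_mem ha hb) (hJleT hj)) (T.add_mem ha hb) (by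
                have : a + b - (a + b + j) = -j := by abel
                rw [this]
                exact J.neg_mem hj)
            obtain ⟨g'', hg''⟩ := hJρ j' hj'
            refine ⟨g * g' * g'', ?_⟩
            rw [map_mul, map_mul, hg, hg', hg'', h1, h2]
          zero_mem' := ⟨T.zero_mem, 1, by simp⟩
          neg_mem' := by
            rintro a ⟨ha, g, hg⟩
            exact ⟨T.neg_mem ha, g⁻¹, rho_inv ρ (hTL.le a ha) hg⟩ }
      have hsub : ∀ x ∈ Λk, q • x ∈ S := by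
        intro x hx
        have hx' : x ∈ Submodule.span ℤ (s : Set A) := by
          rw [hs]
          exact hx
        induction hx' using Submodule.span_induction with
        | mem y hy =>
          refine ⟨mem_scl.2 ⟨y, hsk y hy, rfl⟩, ?_⟩
          obtain ⟨g, hg⟩ := hf y hy
          obtain ⟨c, hc⟩ : f y ∣ m := Finset.dvd_prod_of_mem f hy
          refine ⟨g ^ (bigM N * (c * q')), ?_⟩
          rw [map_pow, hg, ← exp_nsmul ((Φ.F 1).nsmul_mem (hΛ.le y (hsk y hy).1) (f y)), smul_smul]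
          congr 2
          rw [hq, hc]
          ring
        | zero => rw [smul_zero]; exact S.zero_mem
        | add a b ha hb iha ihb =>
          rw [hs] at ha hb
          rw [smul_add]
          exact S.add_mem (iha ha) (ihb hb)
        | smul c a ha iha =>
          rw [hs] at ha
          rw [smul_comm]
          exact S.zsmul_mem (iha ha) c
      exact ⟨q, hq0, fun x hx hxk => (hsub x ⟨hx, hxk⟩).2⟩
  obtain ⟨q, hq, h1⟩ := key N 1 (by omega) le_rfl
  exact ⟨q, hq, fun x hx => h1 x hx (hΛ.le x hx)⟩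

end Pool.Agent.TH91.RF
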