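import Pool.Agent.TH91.RF.Lat

/-!
# Finite quotients of the group and ideals of the lattice
-/

set_option autoImplicit false

namespace Pool.Agent.TH91.RF

open Finset
open scoped Nat

variable {A : Type*} [Ring A] [Algebra ℚ A] {N : ℕ} {G : Type*} [Group G]

/-- the elements with logarithm in an ideal form a subgroup -/
def expSub {Φ : Filt A N} {T J : AddSubgroup A} (hT : LieLat Φ T) (hJ : LieIdl N T J)
    (ρ : G →* A) : Subgroup G where
  carrier := {g | ∃ x ∈ J, ρ g = IsNilpotent.exp x}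
  mul_mem' := by
    rintro a b ⟨x, hx, ha⟩ ⟨y, hy, hb⟩
    obtain ⟨j, hj, h1⟩ := hT.exp_mul_add hJ (hJ.le hx) (hJ.le hy) (hJ.br x (hJ.le hx) y hy)
    exact ⟨_, J.add_mem (J.add_mem hx hy) hj, by rw [map_mul, ha, hb, h1]⟩
  one_mem' := ⟨0, J.zero_mem, by simp⟩
  inv_mem' := by
    rintro a ⟨x, hx, ha⟩
    exact ⟨-x, J.neg_mem hx, rho_inv ρ (hT.le x (hJ.le hx)) ha⟩

theorem exists_loc (Φ : Filt A N) {Λ : AddSubgroup A} (hΛ : LieRg Φ Λ) (ρ : G →* A) (S : Set G)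
    (hS : S.Finite) (hgen : Subgroup.closure S = ⊤)
    (h : ∀ g, ∃ x, (∃ m : ℕ, 0 < m ∧ m • x ∈ Λ) ∧ ρ g = IsNilpotent.exp x) :
    ∃ p₀ : ℕ, ∀ p : ℕ, ∀ [Fact p.Prime], p₀ < p → ∀ g, ∃ x ∈ loc p Λ, ρ g = IsNilpotent.exp x := by
  choose x hx1 hx2 using h
  choose m hm0 hm using hx1
  refine ⟨N + 1 + ∑ g ∈ hS.toFinset, m g, ?_⟩
  intro p hp hlt g
  have hpN : N + 1 < p := by omega
  have hT := hΛ.loc hpN
  have h1 : (⊤ : Subgroup G) ≤ expSub hT hT.self ρ := by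
    rw [← hgen, Subgroup.closure_le]
    intro s hs
    refine ⟨x s, ⟨m s, ?_, hm s⟩, hx2 s⟩
    intro hd
    have h2 := Nat.le_of_dvd (hm0 s) hd
    have h3 : m s ≤ ∑ g ∈ hS.toFinset, m g :=
      Finset.single_le_sum (f := m) (fun _ _ => Nat.zero_le _) (hS.mem_toFinset.2 hs)
    omega
  exact h1 (Subgroup.mem_top g)

theorem mem_of_coprime_zpow {K : Subgroup G} {g : G} {m : ℤ} {n : ℕ} (hc : IsCoprime m (n : ℤ))
    (h1 : g ^ m ∈ K) (h2 : g ^ n ∈ K) : g ∈ K := by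
  obtain ⟨a, b, hab⟩ := hc
  have h3 : g = (g ^ m) ^ a * (g ^ n) ^ b := by
    rw [← zpow_mul, ← zpow_natCast g n, ← zpow_mul, ← zpow_add, mul_comm m, mul_comm (n : ℤ), hab,
      zpow_one]
  rw [h3]
  exact K.mul_mem (K.zpow_mem h1 _) (K.zpow_mem h2 _)

theorem group_low (Φ : Filt A N) {Λ : AddSubgroup A} (hΛ : LieRg Φ Λ) (ρ : G →* A)
    (hρ : Function.Injective ρ) {D : ℕ} (hMD : bigM N ∣ D)
    (hD : ∀ x ∈ Λ, ∃ g, ρ g = IsNilpotent.exp (D • x)) (p : ℕ) [hp : Fact p.Prime]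
    (hpN : N + 1 < p) (hpD : ¬ p ∣ D) (K : Subgroup G) [hK : K.Normal] (e : ℕ)
    (he : K.index = p ^ e) :
    ∃ J : AddSubgroup A, J ≤ Λ ∧ (∀ u ∈ Λ, ∀ v ∈ J, u * v - v * u ∈ J) ∧
      (∀ x ∈ Λ, p ^ e • x ∈ J) ∧ Finite (Λ ⧸ J.addSubgroupOf Λ) ∧
      Nat.card (Λ ⧸ J.addSubgroupOf Λ) ≤ p ^ e ∧
      (∀ x ∈ J, ∀ g, ρ g = IsNilpotent.exp (D • x) → g ∈ K) := by
  set T := scl D Λ with hTd
  have hT : LieLat Φ T := hΛ.scl hMD
  have hTρ : ∀ x ∈ T, ∃ g, ρ g = IsNilpotent.exp x := by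
    intro x hx
    obtain ⟨y, hy, rfl⟩ := mem_scl.1 hx
    exact hD y hy
  have hpow : ∀ g : G, g ^ (p ^ e) ∈ K := fun g => by
    rw [← he]
    exact K.pow_index_mem g
  have hcop : ∀ m : ℤ, ¬ (p : ℤ) ∣ m → IsCoprime m ((p ^ e : ℕ) : ℤ) := by
    intro m hm
    have hp' : Prime (p : ℤ) := Nat.prime_iff_prime_int.1 hp.out
    push_cast
    exact ((Prime.coprime_iff_not_dvd hp').2 hm).symm.pow_right
  set I : Set A := {x | x ∈ T ∧ ∃ g ∈ K, ρ g = IsNilpotent.exp x} with hI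
  have n4 : ∀ x ∈ T, ∀ m : ℤ, ¬ (p : ℤ) ∣ m → m • x ∈ I → x ∈ I := by
    rintro x hx m hm ⟨hmx, g', hg', hg'x⟩
    obtain ⟨g, hg⟩ := hTρ x hx
    refine ⟨hx, g, ?_, hg⟩
    have h1 := rho_zpow ρ (hT.le x hx) hg m
    rw [← hg'x] at h1
    have h2 := hρ h1
    refine mem_of_coprime_zpow (hcop m hm) ?_ (hpow g)
    rw [h2]
    exact hg'
  obtain ⟨J₁, hJ₁, hidl⟩ := exists_idl hT hp.out hpN I (fun x hx => hx.1)
    ⟨T.zero_mem, 1, K.one_mem, by simp⟩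
    (by
      rintro x ⟨hx, g, hg, hgx⟩ s
      exact ⟨T.zsmul_mem hx s, g ^ s, K.zpow_mem hg s, rho_zpow ρ (hT.le x hx) hgx s⟩)
    (by
      rintro x ⟨hx, g, hg, hgx⟩ y ⟨hy, g', hg', hgy⟩ z hz hzx
      exact ⟨hz, g * g', K.mul_mem hg hg', by rw [map_mul, hgx, hgy, hzx]⟩)
    (by
      rintro x ⟨hx, g, hg, hgx⟩ w hw z hz hzx
      obtain ⟨k, hk⟩ := hTρ w hw
      refine ⟨hz, k * g * k⁻¹, hK.conj_mem g hg k, ?_⟩
      rw [map_mul, map_mul, rho_inv ρ (hT.le w hw) hk, hk, hgx, hzx])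
    n4
  have hsat : ∀ x ∈ T, ∀ m : ℕ, ¬ p ∣ m → m • x ∈ J₁ → x ∈ J₁ := by
    intro x hx m hm h
    rw [hJ₁] at h ⊢
    refine n4 x hx m ?_ ?_
    · rwa [Int.natCast_dvd_natCast]
    · rwa [natCast_zsmul]
  have hDT : ∀ x ∈ Λ, D • x ∈ T := fun x hx => mem_scl.2 ⟨x, hx, rfl⟩
  let J : AddSubgroup A :=
    { carrier := {x | x ∈ Λ ∧ D • x ∈ J₁}
      add_mem' := by
        rintro a b ⟨ha, ha'⟩ ⟨hb, hb'⟩
        refine ⟨Λ.add_mem ha hb, ?_⟩
        rw [smul_add]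
        exact J₁.add_mem ha' hb'
      zero_mem' := ⟨Λ.zero_mem, by rw [smul_zero]; exact J₁.zero_mem⟩
      neg_mem' := by
        rintro a ⟨ha, ha'⟩
        refine ⟨Λ.neg_mem ha, ?_⟩
        rw [smul_neg]
        exact J₁.neg_mem ha' }
  have hinj : ∃ f : (Λ ⧸ J.addSubgroupOf Λ) → G ⧸ K, Function.Injective f := by
    have h1 : ∀ x : Λ, ∃ g, ρ g = IsNilpotent.exp (D • (x : A)) := fun x => hD x x.2
    choose γ hγ using h1
    refine ⟨fun c => (γ (Quotient.out c) : G ⧸ K), ?_⟩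
    intro c c' hcc
    simp only at hcc
    rw [QuotientGroup.eq] at hcc
    set x := Quotient.out c with hx
    set x' := Quotient.out c' with hx'
    have hxT := hDT x x.2
    have hxT' := hDT x' x'.2
    obtain ⟨z, hz, hzx⟩ := hT.exp_mul (T.neg_mem hxT) hxT'
    have h2 : z ∈ J₁ := by
      rw [hJ₁]
      refine ⟨hz, _, hcc, ?_⟩
      rw [map_mul, rho_inv ρ (hT.le _ hxT) (hγ x), hγ x', hzx]
    obtain ⟨j', hj', h3⟩ := hT.exp_mul_idl hidl hxT h2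
    have h4 : IsNilpotent.exp (D • (x' : A)) = IsNilpotent.exp (D • (x : A) + j') := by
      rw [← h3, ← hzx, ← mul_assoc, IsNilpotent.exp_mul_exp_neg_self (Φ.nilp (hT.le _ hxT)),
        one_mul]
    have h5 := Φ.exp_inj (hT.le _ hxT') (hT.le _ (T.add_mem hxT (hidl.le hj'))) h4
    have h6 : (x' : A) - x ∈ J := by
      refine ⟨Λ.sub_mem x'.2 x.2, ?_⟩
      rw [smul_sub, h5, add_sub_cancel_left]
      exact hj'
    have h7 : (QuotientAddGroup.mk x : Λ ⧸ J.addSubgroupOf Λ) = QuotientAddGroup.mk x' := by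
      rw [QuotientAddGroup.eq, AddSubgroup.mem_addSubgroupOf]
      have : ((-x + x' : Λ) : A) = (x' : A) - x := by
        push_cast
        abel
      rw [this]
      exact h6
    have h8 : c = QuotientAddGroup.mk x := (Quotient.out_eq c).symm
    have h9 : c' = QuotientAddGroup.mk x' := (Quotient.out_eq c').symm
    rw [h8, h9, h7]
  have hfin : Finite (G ⧸ K) := by
    have : K.FiniteIndex := ⟨by
      rw [he]
      exact pow_ne_zero _ hp.out.ne_zero⟩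
    exact Subgroup.finite_quotient_of_finiteIndex
  obtain ⟨f, hf⟩ := hinj
  refine ⟨J, fun x hx => hx.1, ?_, ?_, Finite.of_injective f hf, ?_, ?_⟩
  · rintro u hu v ⟨hv, hv'⟩
    have h1 : u * v - v * u ∈ Λ := hΛ.br u hu v hv
    refine ⟨h1, ?_⟩
    obtain ⟨c, hc⟩ := hMD
    have h2 := hidl.br _ (hDT u hu) _ hv'
    rw [scl_br hc, mul_smul] at h2
    refine hsat _ (hDT _ h1) c ?_ h2
    intro h
    apply hpD
    rw [hc]
    exact Dvd.dvd.mul_left h _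
  · intro x hx
    refine ⟨Λ.nsmul_mem hx _, ?_⟩
    rw [hJ₁]
    obtain ⟨g, hg⟩ := hD x hx
    rw [smul_comm]
    refine ⟨T.nsmul_mem (hDT x hx) _, g ^ (p ^ e), hpow g, ?_⟩
    rw [map_pow, hg, exp_nsmul (hT.le _ (hDT x hx))]
  · rw [← he]
    exact Nat.card_le_card_of_injective f hf
  · rintro x ⟨hx, hx'⟩ g hg
    rw [hJ₁] at hx'
    obtain ⟨_, g', hg', h1⟩ := hx'
    rw [← hg] at h1
    rw [← hρ h1]
    exact hg'

theorem group_up (Φ : Filt A N) {Λ : AddSubgroup A} (hΛ : LieRg Φ Λ) (ρ : G →* A)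
    (p : ℕ) [hp : Fact p.Prime] (hpN : N + 1 < p)
    (hloc : ∀ g, ∃ x ∈ loc p Λ, ρ g = IsNilpotent.exp x)
    (J : AddSubgroup A) (hJΛ : J ≤ Λ) (hJ : ∀ u ∈ Λ, ∀ v ∈ J, u * v - v * u ∈ J)
    (hpJ : ∀ x ∈ Λ, p • x ∈ J) (hfin : Finite (Λ ⧸ J.addSubgroupOf Λ)) (g : G)
    (x : A) (hxΛ : x ∈ loc p Λ) (hgx : ρ g = IsNilpotent.exp x) (hxJ : x ∉ loc p J) :
    ∃ K : Subgroup G, K.Normal ∧ K.FiniteIndex ∧ g ∉ K ∧
      K.index ≤ Nat.card (Λ ⧸ J.addSubgroupOf Λ) := by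
  have hT := hΛ.loc (p := p) hpN
  have hI := loc_idl (p := p) hpN hJΛ hJ
  set K : Subgroup G := expSub hT hI ρ with hK
  have hnorm : K.Normal := by
    refine ⟨?_⟩
    rintro k ⟨y, hy, hky⟩ h
    obtain ⟨w, hw, hhw⟩ := hloc h
    refine ⟨_, (loc p J).sum_mem fun n hn => hT.fact_adr_mem hI hw hy n (mem_range.1 hn), ?_⟩
    rw [← hT.exp_conj_eq hw (hI.le hy), map_mul, map_mul, rho_inv ρ (hT.le w hw) hhw, hhw, hky]
  have hg : g ∉ K := by
    rintro ⟨y, hy, hgy⟩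
    apply hxJ
    rw [hgx] at hgy
    rw [Φ.exp_inj (hT.le x hxΛ) (hT.le y (hI.le hy)) hgy]
    exact hy
  -- representatives
  have hrep : ∀ h : G, ∃ y ∈ loc p Λ, ρ h = IsNilpotent.exp y ∧ ∃ z ∈ Λ, y - z ∈ loc p J := by
    intro h
    obtain ⟨y, ⟨m, hm, hmy⟩, hhy⟩ := hloc h
    refine ⟨y, ⟨m, hm, hmy⟩, hhy, ?_⟩
    have hp' : Prime (p : ℤ) := Nat.prime_iff_prime_int.1 hp.out
    have hm' : ¬ (p : ℤ) ∣ (m : ℤ) := by rwa [Int.natCast_dvd_natCast]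
    obtain ⟨a, b, hab⟩ := (Prime.coprime_iff_not_dvd hp').2 hm'
    refine ⟨b • ((m : ℤ) • y), Λ.zsmul_mem (by rwa [natCast_zsmul]) _, m, hm, ?_⟩
    have e : m • (y - b • ((m : ℤ) • y)) = a • (p • (m • y)) := by
      have h1 : y = (a * p + b * m) • y := by rw [hab, one_smul]
      have h2 : y - b • ((m : ℤ) • y) = (a * p) • y := by
        nth_rewrite 1 [h1]
        rw [add_smul, mul_smul b, add_sub_cancel_right]
      rw [h2, ← natCast_zsmul, ← natCast_zsmul, ← natCast_zsmul, smul_smul, smul_smul, smul_smul]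
      congr 1
      ring
    rw [e]
    exact J.zsmul_mem (hpJ _ hmy) _
  choose y hy hρy z hz hyz using hrep
  have hinj : Function.Injective (fun c : G ⧸ K =>
      (QuotientAddGroup.mk (⟨z (Quotient.out c), hz _⟩ : Λ) : Λ ⧸ J.addSubgroupOf Λ)) := by
    intro c c' hcc
    simp only at hcc
    rw [QuotientAddGroup.eq, AddSubgroup.mem_addSubgroupOf] at hcc
    set h := Quotient.out c with hh
    set h' := Quotient.out c' with hh'
    have h1 : z h' - z h ∈ J := by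
      have : ((-(⟨z h, hz h⟩ : Λ) + (⟨z h', hz h'⟩ : Λ) : Λ) : A) = z h' - z h := by
        push_cast
        abel
      rwa [this] at hcc
    have h2 : y h' - y h ∈ loc p J := by
      have e : y h' - y h = (y h' - z h') + (z h' - z h) - (y h - z h) := by abel
      rw [e]
      refine (loc p J).sub_mem ((loc p J).add_mem (hyz h') ?_) (hyz h)
      exact ⟨1, by simpa using hp.out.one_lt.ne', by simpa using h1⟩
    obtain ⟨j, hj, h3⟩ := hT.exp_coset hI (hy h) (hy h') h2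
    have h4 : h⁻¹ * h' ∈ K := by
      refine ⟨j, hj, ?_⟩
      rw [map_mul, rho_inv ρ (hT.le _ (hy h)) (hρy h), hρy h', h3, ← mul_assoc,
        IsNilpotent.exp_neg_mul_exp_self (Φ.nilp (hT.le _ (hy h))), one_mul]
    have h5 : (QuotientGroup.mk h : G ⧸ K) = QuotientGroup.mk h' := QuotientGroup.eq.2 h4
    have h8 : c = QuotientGroup.mk h := (Quotient.out_eq c).symm
    have h9 : c' = QuotientGroup.mk h' := (Quotient.out_eq c').symm
    rw [h8, h9, h5]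
  have hfinK : Finite (G ⧸ K) := Finite.of_injective _ hinj
  exact ⟨K, hnorm, Subgroup.finiteIndex_of_finite_quotient, hg,
    Nat.card_le_card_of_injective _ hinj⟩

end Pool.Agent.TH91.RF
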