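import Pool.Agent.TH91.RF.Defs
import Pool.Agent.TH91.RF.Comp
import Pool.Agent.TH91.RF.Lat2

/-!
# The lattice attached to a Mal'cev completion, and large primes
-/

set_option autoImplicit false

namespace Pool.Agent.TH91.RF

open Finset Matrix

attribute [local instance 100] LieRing.ofAssociativeRing

/-- the filtration of matrices by superdiagonals -/
def matFilt (N : ℕ) : Filt (Matrix (Fin N) (Fin N) ℚ) N where
  F k :=
    { carrier := {M | ∀ i j : Fin N, (j : ℕ) < i + k → M i j = 0}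
      add_mem' := by
        intro a b ha hb i j hij
        rw [Matrix.add_apply, ha i j hij, hb i j hij, add_zero]
      zero_mem' := by
        intro i j _
        rfl
      smul_mem' := by
        intro c x hx i j hij
        rw [Matrix.smul_apply, hx i j hij, smul_zero] }
  anti := by
    intro i j hij x hx a b hab
    exact hx a b (by omega)
  mul := by
    intro i j x y hx hy a b hab
    rw [Matrix.mul_apply]
    refine sum_eq_zero fun c _ => ?_
    by_cases h : (c : ℕ) < a + i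
    · rw [hx a c h, zero_mul]
    · rw [hy c b (by omega), mul_zero]
  bot := by
    intro x hx
    ext i j
    exact hx i j (by omega)

theorem mem_matFilt {N k : ℕ} {M : Matrix (Fin N) (Fin N) ℚ} :
    M ∈ (matFilt N).F k ↔ ∀ i j : Fin N, (j : ℕ) < i + k → M i j = 0 := Iff.rfl

/-- A basis with integral structure constants. -/
theorem exists_lat (L : Type) [LieRing L] [LieAlgebra ℚ L] [Module.Finite ℚ L] :
    ∃ (h : ℕ) (b : Module.Basis (Fin h) ℚ L) (T : Fin h → Matrix (Fin h) (Fin h) ℤ),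
      ∀ l i, ⁅b l, b i⁆ = ∑ j, (T l j i) • b j := by
  let β := Module.finBasis ℚ L
  set h := Module.finrank ℚ L with hh
  set D : ℕ := ∏ l : Fin h × Fin h × Fin h, (β.repr ⁅β l.1, β l.2.1⁆ l.2.2).den with hD
  have hD0 : D ≠ 0 := Finset.prod_ne_zero_iff.2 fun l _ => Rat.den_ne_zero _
  have hDQ : (D : ℚ) ≠ 0 := by exact_mod_cast hD0
  have hint : ∀ l j i, ∃ n : ℤ, (n : ℚ) = (D : ℚ) * β.repr ⁅β l, β i⁆ j := by
    intro l j i
    obtain ⟨c, hc⟩ : (β.repr ⁅β l, β i⁆ j).den ∣ D := Finset.dvd_prod_of_mem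
      (fun l : Fin h × Fin h × Fin h => (β.repr ⁅β l.1, β l.2.1⁆ l.2.2).den) (mem_univ (l, i, j))
    refine ⟨c * (β.repr ⁅β l, β i⁆ j).num, ?_⟩
    rw [hc]
    push_cast
    rw [mul_comm ((β.repr ⁅β l, β i⁆ j).den : ℚ), mul_assoc,
      mul_comm ((β.repr ⁅β l, β i⁆ j).den : ℚ), Rat.mul_den_eq_num]
  choose n hn using hint
  refine ⟨h, β.isUnitSMul (w := fun _ => (D : ℚ)) (fun _ => isUnit_iff_ne_zero.2 hDQ),
    fun l => Matrix.of fun j i => n l j i, fun l i => ?_⟩
  simp only [Module.Basis.isUnitSMul_apply, Matrix.of_apply]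
  rw [smul_lie, lie_smul]
  have h1 : ⁅β l, β i⁆ = ∑ j, β.repr ⁅β l, β i⁆ j • β j := (β.sum_repr _).symm
  nth_rewrite 1 [h1]
  rw [smul_sum, smul_sum]
  refine sum_congr rfl fun j _ => ?_
  rw [← Int.cast_smul_eq_zsmul ℚ, hn, smul_smul, smul_smul, smul_smul]
  congr 1
  ring

section emb

variable {N h : ℕ} {L : LieSubalgebra ℚ (Matrix (Fin N) (Fin N) ℚ)}

/-- the lattice spanned by a basis -/
noncomputable def emb (b : Module.Basis (Fin h) ℚ L) : (Fin h → ℤ) →+ Matrix (Fin N) (Fin N) ℚ where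
  toFun x := ∑ i, (x i) • (b i : Matrix (Fin N) (Fin N) ℚ)
  map_zero' := by simp
  map_add' x y := by
    simp only [Pi.add_apply, add_smul, sum_add_distrib]

theorem emb_apply (b : Module.Basis (Fin h) ℚ L) (x : Fin h → ℤ) :
    emb b x = ∑ i, (x i) • (b i : Matrix (Fin N) (Fin N) ℚ) := rfl

theorem emb_eq (b : Module.Basis (Fin h) ℚ L) (x : Fin h → ℤ) :
    emb b x = ((∑ i, ((x i : ℤ) : ℚ) • b i : L) : Matrix (Fin N) (Fin N) ℚ) := by
  rw [emb_apply]
  push_cast
  refine sum_congr rfl fun i _ => ?_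
  rw [Int.cast_smul_eq_zsmul]

theorem emb_mem (b : Module.Basis (Fin h) ℚ L) (x : Fin h → ℤ) : emb b x ∈ L := by
  rw [emb_eq]
  exact SetLike.coe_mem _

theorem emb_injective (b : Module.Basis (Fin h) ℚ L) : Function.Injective (emb b) := by
  intro x y hxy
  rw [emb_eq, emb_eq] at hxy
  have h1 := Subtype.val_injective hxy
  have h2 := congrArg b.equivFun h1
  rw [map_sum, map_sum] at h2
  ext i
  have h3 := congrFun h2 i
  simp only [map_smul, Module.Basis.equivFun_self, Finset.sum_apply, Pi.smul_apply, smul_eq_mul,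
    mul_ite, mul_one, mul_zero] at h3
  rw [Finset.sum_ite_eq' , Finset.sum_ite_eq'] at h3
  simpa using h3

theorem emb_bracket (b : Module.Basis (Fin h) ℚ L) (T : Fin h → Matrix (Fin h) (Fin h) ℤ)
    (hT : ∀ l i, ⁅b l, b i⁆ = ∑ j, (T l j i) • b j) (x y : Fin h → ℤ) :
    emb b x * emb b y - emb b y * emb b x = emb b (∑ l, x l • (T l *ᵥ y)) := by
  have hT' : ∀ l i, (b l : Matrix (Fin N) (Fin N) ℚ) * (b i) - (b i : Matrix (Fin N) (Fin N) ℚ) * b l =
      ∑ j, (T l j i) • (b j : Matrix (Fin N) (Fin N) ℚ) := by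
    intro l i
    have h1 := congrArg (fun z : L => (z : Matrix (Fin N) (Fin N) ℚ)) (hT l i)
    simp only [LieSubalgebra.coe_bracket] at h1
    rw [LieRing.of_associative_ring_bracket] at h1
    rw [h1]
    push_cast
    rfl
  have h1 : emb b x * emb b y - emb b y * emb b x = ∑ l, ∑ i, (x l * y i) •
      ((b l : Matrix (Fin N) (Fin N) ℚ) * (b i) - (b i : Matrix (Fin N) (Fin N) ℚ) * b l) := by
    simp_rw [smul_sub, sum_sub_distrib]
    rw [emb_apply, emb_apply, sum_mul_sum, sum_mul_sum]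
    congr 1
    · refine sum_congr rfl fun l _ => sum_congr rfl fun i _ => ?_
      rw [smul_mul_smul_comm]
    · rw [sum_comm]
      refine sum_congr rfl fun l _ => sum_congr rfl fun i _ => ?_
      rw [smul_mul_smul_comm, mul_comm]
  rw [h1, emb_apply]
  simp_rw [hT', smul_sum, Finset.sum_apply, Pi.smul_apply, mulVec, dotProduct, smul_eq_mul,
    Finset.mul_sum, sum_smul]
  rw [eq_comm, sum_comm]
  refine sum_congr rfl fun l _ => ?_
  rw [sum_comm]
  refine sum_congr rfl fun i _ => sum_congr rfl fun j _ => ?_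
  rw [smul_smul]
  congr 1
  ring

theorem lieRg_range (b : Module.Basis (Fin h) ℚ L) (T : Fin h → Matrix (Fin h) (Fin h) ℤ)
    (hT : ∀ l i, ⁅b l, b i⁆ = ∑ j, (T l j i) • b j)
    (hup : ∀ X ∈ L, ∀ i j : Fin N, j ≤ i → X i j = 0) :
    LieRg (matFilt N) (emb b).range := by
  refine ⟨?_, ?_⟩
  · rintro _ ⟨x, rfl⟩
    rw [mem_matFilt]
    intro i j hij
    refine hup _ (emb_mem b x) i j ?_
    rw [Fin.le_def]
    omega
  · rintro _ ⟨x, rfl⟩ _ ⟨y, rfl⟩
    exact ⟨_, (emb_bracket b T hT x y).symm⟩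

theorem fg_range (b : Module.Basis (Fin h) ℚ L) :
    (AddSubgroup.toIntSubmodule (emb b).range).FG := by
  have h1 : AddSubgroup.toIntSubmodule (emb b).range = LinearMap.range (emb b).toIntLinearMap := by
    ext x
    rfl
  rw [h1]
  exact Submodule.FG.of_finite

theorem exists_smul_mem_range (b : Module.Basis (Fin h) ℚ L) {X : Matrix (Fin N) (Fin N) ℚ}
    (hX : X ∈ L) : ∃ m : ℕ, 0 < m ∧ m • X ∈ (emb b).range := by
  set D : ℕ := ∏ i : Fin h, (b.repr ⟨X, hX⟩ i).den with hD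
  have hD0 : D ≠ 0 := Finset.prod_ne_zero_iff.2 fun l _ => Rat.den_ne_zero _
  have hint : ∀ i, ∃ n : ℤ, (n : ℚ) = (D : ℚ) * b.repr ⟨X, hX⟩ i := by
    intro i
    obtain ⟨c, hc⟩ : (b.repr ⟨X, hX⟩ i).den ∣ D := Finset.dvd_prod_of_mem
      (fun i : Fin h => (b.repr ⟨X, hX⟩ i).den) (mem_univ i)
    refine ⟨c * (b.repr ⟨X, hX⟩ i).num, ?_⟩
    rw [hc]
    push_cast
    rw [mul_comm ((b.repr ⟨X, hX⟩ i).den : ℚ), mul_assoc,
      mul_comm ((b.repr ⟨X, hX⟩ i).den : ℚ), Rat.mul_den_eq_num]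
  choose n hn using hint
  refine ⟨D, Nat.pos_of_ne_zero hD0, n, ?_⟩
  rw [emb_eq]
  have h1 : (∑ i, ((n i : ℤ) : ℚ) • b i : L) = (D : ℚ) • (⟨X, hX⟩ : L) := by
    conv_rhs => rw [← b.sum_repr ⟨X, hX⟩]
    rw [smul_sum]
    refine sum_congr rfl fun i _ => ?_
    rw [hn, mul_smul]
  rw [h1]
  push_cast
  rw [Nat.cast_smul_eq_nsmul]

end emb

theorem no_small_quotient {G : Type*} [Group G] (c : MalcevCompletion G) {h : ℕ}
    (b : Module.Basis (Fin h) ℚ c.L) (T : Fin h → Matrix (Fin h) (Fin h) ℤ)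
    (hT : ∀ l i, ⁅b l, b i⁆ = ∑ j, (T l j i) • b j) (e : ℕ) (hF : ¬ Full T ℂ e) :
    ∃ z : G, z ≠ 1 ∧ ∃ p₀ : ℕ, ∀ p : ℕ, p.Prime → p₀ < p → ∀ K : Subgroup G, K.Normal →
      ∀ e' ≤ e, K.index = p ^ e' → z ∈ K := by
  have hΛ := lieRg_range b T hT c.upper
  obtain ⟨ζ, hζ, hbad⟩ := exists_int_bad hF
  obtain ⟨q, hq0, hq⟩ := exists_uniform (matFilt c.N) hΛ (fg_range b) c.ρ (by
    intro x hx
    obtain ⟨y, rfl⟩ := hx
    exact c.dense _ (emb_mem b y))
  set D := bigM c.N * q with hD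
  have hDρ : ∀ x ∈ (emb b).range, ∃ g, c.ρ g = IsNilpotent.exp (D • x) := by
    intro x hx
    rw [hD, mul_comm, mul_smul]
    exact hq _ ((emb b).range.nsmul_mem hx _)
  obtain ⟨z, hz⟩ := hDρ (emb b ζ) ⟨ζ, rfl⟩
  obtain ⟨p₁, hp₁⟩ := eventually_mem T e ζ hbad
  have hD0 : D ≠ 0 := (Nat.mul_pos (bigM_pos _) hq0).ne'
  refine ⟨z, ?_, c.N + 1 + D + p₁, ?_⟩
  · intro h0
    rw [h0, map_one, ← IsNilpotent.exp_zero] at hz
    have h1 : (0 : Matrix (Fin c.N) (Fin c.N) ℚ) = D • emb b ζ :=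
      (matFilt c.N).exp_inj (Submodule.zero_mem _)
        (((matFilt c.N).F 1).nsmul_mem (hΛ.le _ ⟨ζ, rfl⟩) D) hz
    rw [eq_comm, ← Nat.cast_smul_eq_nsmul ℚ, smul_eq_zero] at h1
    rcases h1 with h1 | h1
    · exact hD0 (by exact_mod_cast h1)
    · apply hζ
      apply emb_injective b
      rw [h1, map_zero]
  · intro p hp hlt K hK e' he' hidx
    have : Fact p.Prime := ⟨hp⟩
    obtain ⟨J, hJΛ, hJbr, hJe, hJfin, hJcard, hJK⟩ := group_low (matFilt c.N) hΛ c.ρ c.injective
      (Dvd.intro _ rfl : bigM c.N ∣ D) hDρ p (by omega) (by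
        intro hd
        have := Nat.le_of_dvd (Nat.pos_of_ne_zero hD0) hd
        omega) K e' hidx
    set J' : AddSubgroup (Fin h → ℤ) := J.comap (emb b) with hJ'
    have h1 : ζ ∈ J' := by
      refine hp₁ p hp (by omega) J' ?_ ?_
      · intro l x hx
        rw [hJ', AddSubgroup.mem_comap] at hx ⊢
        have h2 := hJbr (emb b (Pi.single l 1)) ⟨_, rfl⟩ _ hx
        rw [emb_bracket b T hT] at h2
        have h3 : ∑ l', (Pi.single l 1 : Fin h → ℤ) l' • (T l' *ᵥ x) = T l *ᵥ x := by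
          rw [Finset.sum_eq_single_of_mem l (mem_univ _)]
          · simp
          · intro b _ hb
            rw [Pi.single_eq_of_ne hb, zero_smul]
        rwa [h3] at h2
      · have hinj : ∃ f : ((Fin h → ℤ) ⧸ J') → ((emb b).range ⧸ J.addSubgroupOf (emb b).range),
            Function.Injective f := by
          refine ⟨fun x => QuotientAddGroup.mk (⟨emb b (Quotient.out x), ⟨_, rfl⟩⟩ : (emb b).range), ?_⟩
          intro x y hxy
          simp only at hxy
          rw [QuotientAddGroup.eq, AddSubgroup.mem_addSubgroupOf] at hxy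
          have h2 : -Quotient.out x + Quotient.out y ∈ J' := by
            change emb b _ ∈ J
            rw [map_add, map_neg]
            exact hxy
          have h3 : (QuotientAddGroup.mk (Quotient.out x) : (Fin h → ℤ) ⧸ J') =
              QuotientAddGroup.mk (Quotient.out y) := QuotientAddGroup.eq.2 h2
          have h8 : x = QuotientAddGroup.mk (Quotient.out x) := (Quotient.out_eq x).symm
          have h9 : y = QuotientAddGroup.mk (Quotient.out y) := (Quotient.out_eq y).symm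
          rw [h8, h9, h3]
        obtain ⟨f, hf⟩ := hinj
        refine compData_of_card p e h J' ?_ (Finite.of_injective f hf) ?_
        · intro x
          rw [hJ', AddSubgroup.mem_comap]
          have h2 := hJe (emb b x) ⟨x, rfl⟩
          have h3 : (p : ℤ) ^ e • x = (p ^ (e - e') : ℕ) • ((p ^ e' : ℕ) • x) := by
            rw [smul_smul, ← pow_add, show e - e' + e' = e by omega, ← natCast_zsmul]
            push_cast
            rfl
          rw [h3, map_nsmul, map_nsmul]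
          exact J.nsmul_mem h2 _
        · calc Nat.card ((Fin h → ℤ) ⧸ J') ≤ _ := Nat.card_le_card_of_injective f hf
            _ ≤ p ^ e' := hJcard
            _ ≤ p ^ e := Nat.pow_le_pow_right hp.pos he'
    exact hJK _ h1 z hz

end Pool.Agent.TH91.RF
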