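import Pool.Agent.TH91.RF.Alg3

/-!
# Coefficient fields and quotients over fields of characteristic zero
-/

set_option autoImplicit false

namespace Pool.Agent.TH91.RF

open Finset Matrix

theorem formallySmooth_of_isField (k : Type) [CommRing k] [inst : Algebra ℚ k] (hk : IsField k) :
    Algebra.FormallySmooth ℚ k := by
  let := hk.toField
  obtain ⟨s, hs⟩ := exists_isTranscendenceBasis ℚ k
  have := hs.isAlgebraic_field
  exact Algebra.FormallySmooth.of_algebraicIndependent_of_isSeparable hs.1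

theorem exists_section (B : Type) [CommRing B] [Algebra ℚ B] (I : Ideal B) (hnil : IsNilpotent I)
    (hI : IsField (B ⧸ I)) : ∃ σ : (B ⧸ I) →+* B, ∀ b : B, b - σ (Ideal.Quotient.mk I b) ∈ I := by
  have := formallySmooth_of_isField (B ⧸ I) hI
  let σ : (B ⧸ I) →ₐ[ℚ] B := Algebra.FormallySmooth.lift I hnil (AlgHom.id ℚ (B ⧸ I))
  refine ⟨σ.toRingHom, fun b => ?_⟩
  rw [← Ideal.Quotient.eq_zero_iff_mem, map_sub, sub_eq_zero]
  exact (Algebra.FormallySmooth.mk_lift I hnil (AlgHom.id ℚ (B ⧸ I)) _).symm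

/-- existence of a coefficient field in a ring with a nilpotent maximal ideal -/
theorem exists_coeff_field (B : Type) [CommRing B] (I : Ideal B) [hI : I.IsMaximal]
    (hnil : IsNilpotent I) (hu : ∀ n : ℕ, n ≠ 0 → IsUnit (n : B)) :
    ∃ (k : Type) (_ : Field k) (_ : CharZero k) (σ : k →+* B), ∀ b : B, ∃ a : k, b - σ a ∈ I := by
  have hg : ∀ y : nonZeroDivisors ℤ, IsUnit ((Int.castRingHom B) y) := by
    rintro ⟨y, hy⟩
    have hy0 : y ≠ 0 := nonZeroDivisors.ne_zero hy
    simp only [eq_intCast]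
    rcases Int.natAbs_eq y with h | h
    · rw [h]
      simpa using hu y.natAbs (Int.natAbs_ne_zero.2 hy0)
    · rw [h]
      simpa using hu y.natAbs (Int.natAbs_ne_zero.2 hy0)
  let : Algebra ℚ B := (IsLocalization.lift (M := nonZeroDivisors ℤ) hg : ℚ →+* B).toAlgebra
  obtain ⟨σ, hσ⟩ := exists_section B I hnil ((Ideal.Quotient.maximal_ideal_iff_isField_quotient I).1 hI)
  have hcz : CharZero (B ⧸ I) := algebraRat.charZero _
  exact ⟨B ⧸ I, Ideal.Quotient.field I, hcz, σ, fun b => ⟨_, hσ b⟩⟩

variable {ι : Type} {h : ℕ} {T : ι → Matrix (Fin h) (Fin h) ℤ} {e : ℕ}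

/-- a module of finite length over a local ring with coefficient field `k` gives a quotient over
`k`. -/
theorem quo_of_module {B k : Type} [CommRing B] [Field k] (I : Ideal B) (σ : k →+* B)
    (hσ : ∀ b : B, ∃ a : k, b - σ a ∈ I) (M : Type) [AddCommGroup M] [Module B M]
    (β : Fin h → M) (τ : ι → M →ₗ[B] M) (hτ : ∀ l i, τ l (β i) = ∑ j, (T l j i : B) • β j)
    (v : Fin e → M) (hspan : ∀ x : M, ∃ c : Fin e → B, x = ∑ j, c j • v j)
    (hchain : ∀ i, ∀ m ∈ I, ∃ c : Fin e → B, (∀ j, i ≤ j → c j = 0) ∧ m • v i = ∑ j, c j • v j)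
    (ζ : Fin h → ℤ) (hζ : ∑ i, (ζ i : B) • β i ≠ 0) :
    ∃ P : Matrix (Fin e) (Fin h) k, Quo T k e P ∧ P *ᵥ (fun i => (ζ i : k)) ≠ 0 := by
  classical
  let : Module k M := Module.compHom M σ
  have hsm : ∀ (a : k) (x : M), a • x = σ a • x := fun _ _ => rfl
  have hk : ∀ n : ℕ, ∀ i : Fin e, (i : ℕ) ≤ n → ∀ b : B,
      b • v i ∈ Submodule.span k (Set.range v) := by
    intro n
    induction n using Nat.strong_induction_on with
    | _ n ih =>
    intro i hi b
    obtain ⟨a, ha⟩ := hσ b
    obtain ⟨c, hc0, hc⟩ := hchain i _ ha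
    have e1 : b • v i = a • v i + ∑ j, c j • v j := by
      rw [← hc, hsm, ← add_smul]
      congr 1
      ring
    rw [e1]
    refine Submodule.add_mem _ (Submodule.smul_mem _ _ (Submodule.subset_span ⟨i, rfl⟩)) ?_
    refine Submodule.sum_mem _ fun j _ => ?_
    by_cases hij : i ≤ j
    · rw [hc0 j hij, zero_smul]
      exact Submodule.zero_mem _
    · push Not at hij
      have : (j : ℕ) < i := hij
      exact ih j (by omega) j le_rfl (c j)
  have htop : Submodule.span k (Set.range v) = ⊤ := by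
    rw [eq_top_iff]
    intro x _
    obtain ⟨c, hc⟩ := hspan x
    rw [hc]
    exact Submodule.sum_mem _ fun j _ => hk j j le_rfl _
  have hfin : Module.Finite k M := ⟨⟨univ.image v, by simpa using htop⟩⟩
  have hrank : Module.finrank k M ≤ e := by
    rw [← finrank_top, ← htop]
    exact (finrank_range_le_card v).trans (by simp)
  -- embedding in `k ^ e`
  obtain ⟨g, hg⟩ : ∃ g : M →ₗ[k] (Fin e → k), LinearMap.ker g = ⊥ := by
    set r := Module.finrank k M with hr
    let bas := Module.finBasis k M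
    let ext : (Fin r → k) →ₗ[k] (Fin e → k) := LinearMap.pi fun j : Fin e =>
      if h : (j : ℕ) < r then LinearMap.proj ⟨j, h⟩ else 0
    refine ⟨ext ∘ₗ bas.equivFun.toLinearMap, ?_⟩
    rw [LinearMap.ker_eq_bot']
    intro x hx
    have h1 : bas.equivFun x = 0 := by
      ext i
      have h2 := congrFun hx ⟨i, lt_of_lt_of_le i.2 hrank⟩
      have h3 : (i : ℕ) < r := i.2
      simpa [ext, h3] using h2
    simpa using h1
  obtain ⟨g', hg'⟩ := LinearMap.exists_leftInverse_of_injective g hg
  set f : (Fin h → k) →ₗ[k] M := Fintype.linearCombination k β with hf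
  let τk : ι → M →ₗ[k] M := fun l =>
    { toFun := τ l
      map_add' := map_add (τ l)
      map_smul' := fun a x => by
        rw [hsm, map_smul]
        rfl }
  refine ⟨LinearMap.toMatrix' (g ∘ₗ f), ⟨fun l => LinearMap.toMatrix' (g ∘ₗ τk l ∘ₗ g'), fun l => ?_⟩,
    ?_⟩
  · apply Matrix.toLin'.injective
    rw [toLin'_mul, toLin'_mul, toLin'_toMatrix', toLin'_toMatrix']
    refine LinearMap.ext fun x => ?_
    have h1 : ∀ x, g' (g x) = x := fun x => LinearMap.congr_fun hg' x
    simp only [LinearMap.comp_apply, h1]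
    congr 1
    have h2 : f ∘ₗ toLin' ((T l).map (Int.castRingHom k)) = τk l ∘ₗ f := by
      refine LinearMap.pi_ext' fun i => LinearMap.ext_ring ?_
      simp only [LinearMap.comp_apply, LinearMap.single_apply]
      rw [toLin'_apply, hf, Fintype.linearCombination_apply, Fintype.linearCombination_apply]
      have h3 : ∑ j, (Pi.single i (1 : k) : Fin h → k) j • β j = β i := by
        rw [Finset.sum_eq_single_of_mem i (mem_univ _)]
        · simp
        · intro b _ hb
          rw [Pi.single_eq_of_ne hb, zero_smul]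
      rw [h3]
      change _ = τ l (β i)
      rw [hτ]
      refine sum_congr rfl fun j _ => ?_
      rw [hsm]
      congr 1
      rw [mulVec_single_one]
      simp
    exact LinearMap.congr_fun h2 x
  · intro h0
    rw [← toLin'_apply, toLin'_toMatrix', LinearMap.comp_apply] at h0
    have h1 := (LinearMap.ker_eq_bot'.1 hg) _ h0
    apply hζ
    rw [← h1, hf, Fintype.linearCombination_apply]
    refine sum_congr rfl fun i _ => ?_
    rw [hsm, map_intCast]

end Pool.Agent.TH91.RF
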