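import Pool.Agent.TH91.RF.Ultra

/-!
# Small quotients at large primes
-/

set_option autoImplicit false

namespace Pool.Agent.TH91.RF

open Finset Matrix Filter

/-- sequences of integers -/
abbrev SZ := ℕ → ℤ

/-- the ideal of sequences divisible by `p n ^ m` for almost all `n` -/
def dvdIdeal (p : ℕ → ℕ) (m : ℕ) : Ideal (ℕ → ℤ) where
  carrier := {a | ∀ᶠ n in (hyperfilter ℕ : Filter ℕ), ((p n : ℤ)) ^ m ∣ a n}
  add_mem' := by
    intro a b ha hb
    filter_upwards [ha, hb] with n h1 h2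
    exact dvd_add h1 h2
  zero_mem' := by
    filter_upwards with n
    exact dvd_zero _
  smul_mem' := by
    intro c a ha
    filter_upwards [ha] with n h1
    exact Dvd.dvd.mul_left h1 _

theorem mem_dvdIdeal {p : ℕ → ℕ} {m : ℕ} {a : ℕ → ℤ} :
    a ∈ dvdIdeal p m ↔ ∀ᶠ n in (hyperfilter ℕ : Filter ℕ), ((p n : ℤ)) ^ m ∣ a n := Iff.rfl

theorem dvdIdeal_anti (p : ℕ → ℕ) {m m' : ℕ} (h : m ≤ m') : dvdIdeal p m' ≤ dvdIdeal p m := by
  intro a ha
  rw [mem_dvdIdeal] at ha ⊢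
  filter_upwards [ha] with n h1
  exact (pow_dvd_pow _ h).trans h1

theorem dvdIdeal_pow (p : ℕ → ℕ) (m : ℕ) : (dvdIdeal p 1) ^ m ≤ dvdIdeal p m := by
  induction m with
  | zero =>
    intro a _
    rw [mem_dvdIdeal]
    filter_upwards with n
    simp
  | succ m ih =>
    rw [pow_succ, Ideal.mul_le]
    intro r hr s hs
    have h1 := ih hr
    rw [mem_dvdIdeal] at h1 hs ⊢
    filter_upwards [h1, hs] with n h2 h3
    rw [pow_one] at h3
    rw [pow_succ]
    exact mul_dvd_mul h2 h3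

theorem exists_inv (p : ℕ) (hp : p.Prime) (m : ℕ) (a : ℤ) (ha : ¬ (p : ℤ) ∣ a) :
    ∃ b : ℤ, (p : ℤ) ^ m ∣ a * b - 1 := by
  have hp' : Prime (p : ℤ) := Nat.prime_iff_prime_int.1 hp
  obtain ⟨u, v, huv⟩ : IsCoprime a ((p : ℤ) ^ m) :=
    ((Prime.coprime_iff_not_dvd hp').2 ha).symm.pow_right
  refine ⟨u, -v, ?_⟩
  linear_combination huv

theorem dvdIdeal_isMaximal (p : ℕ → ℕ) (hp : ∀ n, (p n).Prime) : (dvdIdeal p 1).IsMaximal := by
  rw [Ideal.isMaximal_iff]
  refine ⟨?_, ?_⟩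
  · intro h
    rw [mem_dvdIdeal] at h
    obtain ⟨n, hn⟩ := h.exists
    have hp' : Prime (p n : ℤ) := Nat.prime_iff_prime_int.1 (hp n)
    rw [pow_one] at hn
    exact hp'.not_isUnit (isUnit_of_dvd_one hn)
  · intro J x hJ hx hxJ
    have h1 : ∀ᶠ n in (hyperfilter ℕ : Filter ℕ), ¬ ((p n : ℤ)) ∣ x n := by
      rw [mem_dvdIdeal] at hx
      simp only [pow_one] at hx
      exact Ultrafilter.eventually_not.2 hx
    have h2 : ∀ n, ∃ b : ℤ, ¬ (p n : ℤ) ∣ x n → (p n : ℤ) ^ 1 ∣ x n * b - 1 := by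
      intro n
      by_cases h : (p n : ℤ) ∣ x n
      · exact ⟨0, fun h' => absurd h h'⟩
      · obtain ⟨b, hb⟩ := exists_inv (p n) (hp n) 1 (x n) h
        exact ⟨b, fun _ => hb⟩
    choose b hb using h2
    have h3 : x * b - 1 ∈ dvdIdeal p 1 := by
      rw [mem_dvdIdeal]
      filter_upwards [h1] with n hn
      exact hb n hn
    have h4 : (1 : ℕ → ℤ) = b * x - (x * b - 1) := by ring
    rw [h4]
    exact J.sub_mem (J.mul_mem_left _ hxJ) (hJ h3)

variable {ι : Type} {h : ℕ} {T : ι → Matrix (Fin h) (Fin h) ℤ} {e : ℕ}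

/-- the sequences of vectors in `J n` for almost all `n` -/
def seqSub (h : ℕ) (J : ℕ → AddSubgroup (Fin h → ℤ)) : Submodule (ℕ → ℤ) (Fin h → ℕ → ℤ) where
  carrier := {x | ∀ᶠ n in (hyperfilter ℕ : Filter ℕ), (fun i => x i n) ∈ J n}
  add_mem' := by
    intro a b ha hb
    filter_upwards [ha, hb] with n h1 h2
    exact (J n).add_mem h1 h2
  zero_mem' := by
    filter_upwards with n
    exact (J n).zero_mem
  smul_mem' := by
    intro c a ha
    filter_upwards [ha] with n h1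
    exact (J n).zsmul_mem h1 (c n)

theorem mem_seqSub {J : ℕ → AddSubgroup (Fin h → ℤ)} {x : Fin h → ℕ → ℤ} :
    x ∈ seqSub h J ↔ ∀ᶠ n in (hyperfilter ℕ : Filter ℕ), (fun i => x i n) ∈ J n := Iff.rfl

/-- Elementary data describing that `ℤ ^ h / J` has a composition series of length at most `e`. -/
def CompData (p e h : ℕ) (J : AddSubgroup (Fin h → ℤ)) : Prop :=
  (∀ x, (p : ℤ) ^ e • x ∈ J) ∧ ∃ v : Fin e → (Fin h → ℤ),
    (∀ i, ∃ c : Fin e → ℤ, (∀ j, i ≤ j → c j = 0) ∧ (p : ℤ) • v i - ∑ j, c j • v j ∈ J) ∧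
    (∀ x, ∃ c : Fin e → ℤ, x - ∑ j, c j • v j ∈ J)

theorem eventually_mem (T : ι → Matrix (Fin h) (Fin h) ℤ) (e : ℕ) (ζ : Fin h → ℤ)
    (hζ : ∀ (k : Type) [Field k] [CharZero k] (P : Matrix (Fin e) (Fin h) k),
      Quo T k e P → P *ᵥ (fun i => (ζ i : k)) = 0) :
    ∃ p₀ : ℕ, ∀ p : ℕ, p.Prime → p₀ < p → ∀ J : AddSubgroup (Fin h → ℤ),
      (∀ l, ∀ x ∈ J, (T l) *ᵥ x ∈ J) → CompData p e h J → ζ ∈ J := by
  by_contra hcon
  push Not at hcon
  choose p hp hlt J hJT hJC hζJ using hcon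
  choose hkill v hv1 hv2 using hJC
  choose d hd0 hd using hv1
  choose s hs using hv2
  set I : Ideal SZ := dvdIdeal p (e + 1) with hI
  set 𝔫 : Ideal SZ := dvdIdeal p 1 with h𝔫
  have h𝔫max : 𝔫.IsMaximal := dvdIdeal_isMaximal p hp
  set 𝔪 : Ideal (SZ ⧸ I) := 𝔫.map (Ideal.Quotient.mk I) with h𝔪
  have hI𝔫 : I ≤ 𝔫 := dvdIdeal_anti p (by omega)
  have h𝔪max : 𝔪.IsMaximal := by
    rcases Ideal.map_eq_top_or_isMaximal_of_surjective _ (Ideal.Quotient.mk_surjective (I := I))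
      h𝔫max with h | h
    · exfalso
      apply h𝔫max.ne_top
      have h1 := congrArg (Ideal.comap (Ideal.Quotient.mk I)) h
      rw [Ideal.comap_map_of_surjective _ Ideal.Quotient.mk_surjective, Ideal.comap_top] at h1
      rw [← h1, eq_comm, sup_eq_left]
      intro x hx
      rw [Ideal.mem_comap, Ideal.mem_bot, Ideal.Quotient.eq_zero_iff_mem] at hx
      exact hI𝔫 hx
    · exact h
  have hnil : IsNilpotent 𝔪 := by
    refine ⟨e + 1, ?_⟩
    rw [h𝔪, ← Ideal.map_pow, Ideal.zero_eq_bot, Ideal.map_eq_bot_iff_le_ker, Ideal.mk_ker]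
    exact dvdIdeal_pow p (e + 1)
  have hu : ∀ n : ℕ, n ≠ 0 → IsUnit (n : SZ ⧸ I) := by
    intro m hm
    have h2 : ∀ n, ∃ b : ℤ, m < p n → (p n : ℤ) ^ (e + 1) ∣ m * b - 1 := by
      intro n
      by_cases h : m < p n
      · obtain ⟨b, hb⟩ := exists_inv (p n) (hp n) (e + 1) m (by
          rw [Int.natCast_dvd_natCast]
          intro hd
          have := Nat.le_of_dvd (by omega) hd
          omega)
        exact ⟨b, fun _ => hb⟩
      · exact ⟨0, fun h' => absurd h' h⟩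
    choose b hb using h2
    refine IsUnit.of_mul_eq_one (Ideal.Quotient.mk I b) ?_
    have h3 : ((m : SZ ⧸ I)) = Ideal.Quotient.mk I (m : SZ) := (map_natCast (Ideal.Quotient.mk I) m).symm
    rw [h3, ← map_mul, ← sub_eq_zero, ← map_one (Ideal.Quotient.mk I), ← map_sub,
      Ideal.Quotient.eq_zero_iff_mem, hI, mem_dvdIdeal]
    have h4 : ∀ᶠ n in (hyperfilter ℕ : Filter ℕ), m ≤ n :=
      Nat.hyperfilter_le_atTop (eventually_ge_atTop m)
    filter_upwards [h4] with n hn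
    exact hb n (lt_of_le_of_lt hn (hlt n))
  obtain ⟨k, hk, hkc, σ, hσ⟩ := exists_coeff_field (SZ ⧸ I) 𝔪 hnil hu
  -- the module
  set N := seqSub h J with hN
  have htors : Module.IsTorsionBySet SZ ((Fin h → SZ) ⧸ N) I := by
    rintro x ⟨a, ha⟩
    obtain ⟨y, rfl⟩ := Submodule.Quotient.mk_surjective N x
    change (a • (Submodule.Quotient.mk y : (Fin h → SZ) ⧸ N)) = 0
    rw [← Submodule.Quotient.mk_smul, Submodule.Quotient.mk_eq_zero, hN, mem_seqSub]
    rw [SetLike.mem_coe, hI, mem_dvdIdeal] at ha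
    filter_upwards [ha] with n hn
    obtain ⟨b, hb⟩ := hn
    have e1 : (fun i => (a • y) i n) = b • ((p n : ℤ) • ((p n : ℤ) ^ e • fun i => y i n)) := by
      ext i
      simp only [Pi.smul_apply, smul_eq_mul, Pi.mul_apply]
      rw [hb]
      ring
    rw [e1]
    exact (J n).zsmul_mem ((J n).zsmul_mem (hkill n _) _) _
  let instM : Module (SZ ⧸ I) ((Fin h → SZ) ⧸ N) := htors.module
  have hsm : ∀ (a : SZ) (x : Fin h → SZ), (Ideal.Quotient.mk I a) •
      (Submodule.Quotient.mk x : (Fin h → SZ) ⧸ N) = Submodule.Quotient.mk (a • x) := by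
    intro a x
    rw [Submodule.Quotient.mk_smul]
    exact htors.mk_smul a _
  have hsum : ∀ {κ : Type} [Fintype κ] (f : κ → Fin h → SZ),
      ∑ j, (Submodule.Quotient.mk (f j) : (Fin h → SZ) ⧸ N) = Submodule.Quotient.mk (∑ j, f j) :=
    fun f => (map_sum N.mkQ f univ).symm
  have hTN : ∀ l, N ≤ N.comap ((T l).map (Int.castRingHom SZ)).mulVecLin := by
    intro l x hx
    rw [Submodule.mem_comap, hN, mem_seqSub]
    rw [hN, mem_seqSub] at hx
    filter_upwards [hx] with n hn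
    have e1 : (fun i => (((T l).map (Int.castRingHom SZ)).mulVecLin x) i n) =
        (T l) *ᵥ (fun i => x i n) := by
      ext i
      simp only [mulVecLin_apply, mulVec, dotProduct, Finset.sum_apply, Pi.mul_apply, map_apply,
        eq_intCast, Pi.intCast_apply, Int.cast_id]
    rw [e1]
    exact hJT n l _ hn
  let τ : ι → ((Fin h → SZ) ⧸ N) →ₗ[SZ ⧸ I] ((Fin h → SZ) ⧸ N) := fun l =>
    { toFun := Submodule.mapQ N N ((T l).map (Int.castRingHom SZ)).mulVecLin (hTN l)
      map_add' := map_add _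
      map_smul' := by
        intro a x
        obtain ⟨a, rfl⟩ := Ideal.Quotient.mk_surjective a
        have h1 : ∀ y : (Fin h → SZ) ⧸ N, (Ideal.Quotient.mk I a) • y = a • y := fun y =>
          htors.mk_smul a y
        rw [h1, RingHom.id_apply, h1, map_smul] }
  have hex := quo_of_module (T := T) (e := e) 𝔪 σ hσ ((Fin h → SZ) ⧸ N)
    (fun i => Submodule.Quotient.mk (Pi.single i 1)) τ ?_
    (fun j => Submodule.Quotient.mk (fun i n => v n j i)) ?_ ?_ ζ ?_
  · obtain ⟨Q, hQ, hQζ⟩ := hex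
    exact hQζ (hζ k Q hQ)
  · intro l i
    change Submodule.mapQ N N ((T l).map (Int.castRingHom SZ)).mulVecLin (hTN l) _ = _
    rw [Submodule.mapQ_apply]
    have h1 : ∀ j, ((T l j i : SZ ⧸ I)) • (Submodule.Quotient.mk (Pi.single j 1) : (Fin h → SZ) ⧸ N) =
        Submodule.Quotient.mk (((T l j i : SZ)) • (Pi.single j 1)) := by
      intro j
      rw [← hsm, map_intCast]
    simp_rw [h1]
    rw [hsum]
    congr 1
    rw [mulVecLin_apply, mulVec_single_one]
    ext j : 1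
    rw [Finset.sum_apply, Finset.sum_eq_single_of_mem j (mem_univ _)]
    · simp
    · intro b _ hb
      simp [Pi.single_eq_of_ne (Ne.symm hb)]
  · intro x
    obtain ⟨y, rfl⟩ := Submodule.Quotient.mk_surjective N x
    refine ⟨fun j => Ideal.Quotient.mk I (fun n => s n (fun i => y i n) j), ?_⟩
    simp_rw [hsm]
    rw [hsum, Submodule.Quotient.eq, hN, mem_seqSub]
    filter_upwards with n
    have h1 := hs n (fun i => y i n)
    convert h1 using 1
    ext i
    simp only [Pi.sub_apply, Finset.sum_apply, Pi.smul_apply, smul_eq_mul, Pi.mul_apply]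
  · intro i m hm
    rw [h𝔪, Ideal.mem_map_iff_of_surjective _ Ideal.Quotient.mk_surjective] at hm
    obtain ⟨a, ha, rfl⟩ := hm
    rw [h𝔫, mem_dvdIdeal] at ha
    have h2 : ∀ n, ∃ b : ℤ, (p n : ℤ) ^ 1 ∣ a n → a n = p n * b := by
      intro n
      by_cases h : (p n : ℤ) ^ 1 ∣ a n
      · obtain ⟨b, hb⟩ := h
        exact ⟨b, fun _ => by rw [hb, pow_one]⟩
      · exact ⟨0, fun h' => absurd h' h⟩
    choose b hb using h2
    refine ⟨fun j => Ideal.Quotient.mk I (fun n => b n * d n i j), ?_, ?_⟩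
    · intro j hij
      rw [Ideal.Quotient.eq_zero_iff_mem, hI, mem_dvdIdeal]
      filter_upwards with n
      rw [hd0 n i j hij, mul_zero]
      exact dvd_zero _
    · simp_rw [hsm]
      rw [hsum, Submodule.Quotient.eq, hN, mem_seqSub]
      filter_upwards [ha] with n hn
      have h1 := (J n).zsmul_mem (hd n i) (b n)
      convert h1 using 1
      ext i'
      simp only [Pi.sub_apply, Finset.sum_apply, Pi.smul_apply, smul_eq_mul, Pi.mul_apply]
      rw [hb n hn, mul_sub, Finset.mul_sum]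
      congr 1
      · ring
      · exact sum_congr rfl fun j _ => by ring
  · have h1 : ∀ j, ((ζ j : SZ ⧸ I)) • (Submodule.Quotient.mk (Pi.single j 1) : (Fin h → SZ) ⧸ N) =
        Submodule.Quotient.mk (((ζ j : SZ)) • (Pi.single j 1)) := by
      intro j
      rw [← hsm, map_intCast]
    simp_rw [h1]
    rw [hsum, Ne, Submodule.Quotient.mk_eq_zero, hN, mem_seqSub]
    intro hev
    obtain ⟨n, hn⟩ := hev.exists
    apply hζJ n
    convert hn using 1
    ext i
    rw [Finset.sum_apply, Finset.sum_eq_single_of_mem i (mem_univ _)]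
    · simp
    · intro b _ hb
      simp [Pi.single_eq_of_ne (Ne.symm hb)]

end Pool.Agent.TH91.RF
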